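import Mathlib

set_option autoImplicit false

namespace Pool.Agent.H891GAP

/-- number of ordered pairs (S, R) of members of `A` with `S \ R = U` and `R \ S = V` -/
def mult (A : Finset (Finset ℕ)) (U V : Finset ℕ) : ℕ :=
  ((A ×ˢ A).filter (fun p => p.1 \ p.2 = U ∧ p.2 \ p.1 = V)).card

/-- the difference types of ordered pairs of distinct members of `A` -/
def types (A : Finset (Finset ℕ)) : Finset (Finset ℕ × Finset ℕ) :=
  ((A ×ˢ A).filter (fun p => p.1 ≠ p.2)).image (fun p => (p.1 \ p.2, p.2 \ p.1))

/-- exactly `2 r` types occur at least `T` times, and every other type occurs at most `T / 2` times -/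
def Good (A : Finset (Finset ℕ)) (T r : ℕ) : Prop :=
  ((types A).filter (fun q => T ≤ mult A q.1 q.2)).card = 2 * r ∧
  ∀ q ∈ types A, T ≤ mult A q.1 q.2 ∨ 2 * mult A q.1 q.2 ≤ T

/-- `N d s = ∑ i ∈ [1, s], C(d,i) 2^(i-1)` -/
def N : ℕ → ℕ → ℕ
  | 0, _ => 0
  | _ + 1, 0 => 0
  | d + 1, s + 1 => N d (s + 1) + 1 + 2 * N d s

/-- all sets `I ∪ {c}` with `I ⊆ D` and `c ∈ E` -/
def fam (D E : Finset ℕ) : Finset (Finset ℕ) :=
  (D.powerset ×ˢ E).image (fun p => insert p.2 p.1)

/-- the integer with the base 3 digits given by `S` -/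
def code (S : Finset ℕ) : ℤ := ∑ i ∈ S, (3 : ℤ) ^ i

abbrev Pt := EuclideanSpace ℝ (Fin 2)

open Classical in
/-- the set of distances between distinct points of `P` -/
noncomputable def dists (P : Finset Pt) : Finset ℝ :=
  ((P ×ˢ P).filter (fun p => p.1 ≠ p.2)).image (fun p => dist p.1 p.2)

open Classical in
/-- the number of unordered pairs of distinct points of `P` at distance `d` (half the number of ordered pairs) -/
noncomputable def freq (P : Finset Pt) (d : ℝ) : ℕ :=
  ((P ×ˢ P).filter (fun p => p.1 ≠ p.2 ∧ dist p.1 p.2 = d)).card / 2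

/-- the multiplicities of the distances of `P`, in nonincreasing order -/
noncomputable def freqs (P : Finset Pt) : List ℕ :=
  ((dists P).val.map (freq P)).sort (· ≥ ·)

/-- the `r`-th largest multiplicity `f(d_r)` (for `r ≥ 1`), and 0 if there are fewer than `r` distances -/
noncomputable def F (P : Finset Pt) (r : ℕ) : ℕ := (freqs P).getD (r - 1) 0

/-- the point of the first coordinate axis that belongs to `S` -/
noncomputable def pt (S : Finset ℕ) : Pt := !₂[(code S : ℝ), 0]

/-- the planar point set that belongs to the family `A` -/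
noncomputable def pts (A : Finset (Finset ℕ)) : Finset Pt := by
  classical exact A.image pt

end Pool.Agent.H891GAP
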