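import Pool.Agent.H891GAP.Defs

set_option autoImplicit false

namespace Pool.Agent.H891GAP


section groupdefs
variable {G : Type} [AddGroup G] [DecidableEq G]

/-- number of ordered pairs of members of `A` with difference `v` -/
def multG (A : Finset G) (v : G) : ℕ := ((A ×ˢ A).filter (fun p => p.1 - p.2 = v)).card

/-- the nonzero differences of members of `A` -/
def typesG (A : Finset G) : Finset G := ((A ×ˢ A).filter (fun p => p.1 ≠ p.2)).image (fun p => p.1 - p.2)

/-- exactly `2 r` nonzero differences occur at least `a` times, and every other one occurs at most `b` times -/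
def GoodG (A : Finset G) (a b r : ℕ) : Prop :=
  ((typesG A).filter (fun v => a ≤ multG A v)).card = 2 * r ∧
  ∀ v ∈ typesG A, a ≤ multG A v ∨ multG A v ≤ b

end groupdefs

/-- there is an `n`-element set of nonzero integer vectors (in some dimension) that is `GoodG` -/
def Rz (n a b r : ℕ) : Prop :=
  ∃ (ι : Type) (_ : Fintype ι) (A : Finset (ι → ℤ)), (0 : ι → ℤ) ∉ A ∧ A.card = n ∧ GoodG A a b r

/-- `DN D s` = half the number of nonzero integer vectors of dimension `D` with l1-norm at most `s` -/
def DN : ℕ → ℕ → ℕ
  | 0, _ => 0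
  | _ + 1, 0 => 0
  | D + 1, s + 1 => DN D (s + 1) + DN (D + 1) s + DN D s + 1

/-- the box `{0, ..., m-1}^D` -/
noncomputable def box (D m : ℕ) : Finset (Fin D → ℤ) := Fintype.piFinset (fun _ => Finset.Ico (0 : ℤ) m)


end Pool.Agent.H891GAP
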