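import Pool.Agent.H891GAP.Defs

set_option autoImplicit false

namespace Pool.Agent.H891GAP

namespace W_GP_ASYM

lemma choose_le_N : ∀ (d s : ℕ), Nat.choose d (s+1) ≤ N d (s+1)
  | 0, s => by simp
  | d+1, 0 => by
      have h := choose_le_N d 0
      rw [Nat.choose_succ_succ]
      show d.choose 0 + d.choose 1 ≤ N d 1 + 1 + 2 * N d 0
      have h' : d.choose 1 ≤ N d 1 := h
      rw [Nat.choose_zero_right]
      omega
  | d+1, s+1 => by
      have h1 := choose_le_N d s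
      have h2 := choose_le_N d (s+1)
      rw [Nat.choose_succ_succ]
      show d.choose (s+1) + d.choose (s+1+1) ≤ N d (s+1+1) + 1 + 2 * N d (s+1)
      omega

lemma big (s C d : ℕ) (h : 2*s + C + (s+1).factorial * 2^(2*s+1) ≤ d) :
    (d+C)^s ≤ N d (s+1) := by
  refine le_trans ?_ (choose_le_N d s)
  have hf : 0 < (s+1).factorial := Nat.factorial_pos _
  have h1 : (d - s)^(s+1) ≤ (s+1).factorial * d.choose (s+1) := by
    have h0 := Nat.pow_sub_le_descFactorial d (s+1)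
    rw [Nat.descFactorial_eq_factorial_mul_choose] at h0
    have e : d + 1 - (s+1) = d - s := by omega
    rwa [e] at h0
  have a3 : (s+1).factorial * 2^(2*s+1) ≤ d := le_trans (Nat.le_add_left _ _) h
  have a0 : 2*s + C ≤ d := le_trans (Nat.le_add_right _ _) h
  have a1 : d + C ≤ 2*d := by omega
  have a2 : d ≤ 2*(d-s) := by omega
  have h2 : (s+1).factorial * (d+C)^s ≤ (d-s)^(s+1) := by
    refine Nat.le_of_mul_le_mul_left (c := 2^(s+1)) ?_ (by positivity)
    calc 2^(s+1) * ((s+1).factorial * (d+C)^s)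
        ≤ 2^(s+1) * ((s+1).factorial * (2*d)^s) :=
          Nat.mul_le_mul_left _ (Nat.mul_le_mul_left _ (Nat.pow_le_pow_left a1 _))
      _ = ((s+1).factorial * 2^(2*s+1)) * d^s := by rw [mul_pow]; ring
      _ ≤ d * d^s := Nat.mul_le_mul_right _ a3
      _ = d^(s+1) := by ring
      _ ≤ (2*(d-s))^(s+1) := Nat.pow_le_pow_left a2 _
      _ = 2^(s+1) * (d-s)^(s+1) := mul_pow _ _ _
  exact Nat.le_of_mul_le_mul_left (h2.trans h1) hf

end W_GP_ASYM

open W_GP_ASYM in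
theorem GP_ASYM (s : ℕ) : ∃ n0 : ℕ, ∀ n : ℕ, n0 ≤ n → ∃ d : ℕ, 2 ^ (d + 1) * (3 * 2 ^ (s + 1)) ≤ n ∧ n < 2 ^ (d + 2) * (3 * 2 ^ (s + 1)) ∧ ∀ r : ℕ, (r : ℝ) ≤ (Real.log n) ^ s → r ≤ N d (s + 1) := by
  set K : ℕ := 3 * 2 ^ (s + 1) with hK
  have hKpos : 0 < K := by positivity
  set D0 : ℕ := 2*s + (K+2) + (s+1).factorial * 2^(2*s+1) with hD0
  refine ⟨2^(D0+2) * K, fun n hn => ?_⟩
  have h1 : 2^(D0+2) ≤ n / K := (Nat.le_div_iff_mul_le hKpos).2 hn
  have hne : n / K ≠ 0 := by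
    have : 0 < 2^(D0+2) := by positivity
    omega
  have h2 : D0 + 2 ≤ Nat.log 2 (n / K) := Nat.le_log_of_pow_le (by norm_num) h1
  obtain ⟨d, hd⟩ : ∃ d, Nat.log 2 (n / K) = d + 1 := ⟨Nat.log 2 (n/K) - 1, by omega⟩
  have h3 : 2^(d+1) ≤ n / K := by rw [← hd]; exact Nat.pow_log_le_self 2 hne
  have h4 : n / K < 2^(d+2) := by
    have := Nat.lt_pow_succ_log_self (b := 2) (by norm_num) (n / K)
    rw [hd] at this; exact this
  have hlt : n < 2 ^ (d + 2) * K := (Nat.div_lt_iff_lt_mul hKpos).1 h4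
  refine ⟨d, (Nat.le_div_iff_mul_le hKpos).1 h3, hlt, ?_⟩
  intro r hr
  have hdD : D0 ≤ d := by omega
  refine le_trans ?_ (big s (K+2) d hdD)
  have hn1 : (1 : ℝ) ≤ n := by
    have : 0 < 2^(D0+2) * K := by positivity
    have : 1 ≤ n := by omega
    exact_mod_cast this
  have hlog0 : 0 ≤ Real.log n := Real.log_nonneg hn1
  have hlog : Real.log n ≤ (d : ℝ) + ((K : ℝ) + 2) := by
    have e1 : Real.log n ≤ Real.log ((2:ℝ)^(d+2) * K) := by
      apply Real.log_le_log (by linarith)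
      have : ((n : ℕ) : ℝ) < ((2^(d+2) * K : ℕ) : ℝ) := by exact_mod_cast hlt
      push_cast at this
      exact this.le
    have hKr : (0:ℝ) < K := by exact_mod_cast hKpos
    rw [Real.log_mul (by positivity) hKr.ne', Real.log_pow] at e1
    have e2 : Real.log K ≤ K := by
      have := Real.log_le_sub_one_of_pos hKr
      linarith
    have e3 : Real.log 2 ≤ 1 := by
      have := Real.log_two_lt_d9
      linarith
    have e4 : ((d + 2 : ℕ) : ℝ) * Real.log 2 ≤ (d:ℝ) + 2 := by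
      push_cast
      have : (0:ℝ) ≤ (d:ℝ) + 2 := by positivity
      calc ((d:ℝ) + 2) * Real.log 2 ≤ ((d:ℝ) + 2) * 1 := mul_le_mul_of_nonneg_left e3 this
        _ = (d:ℝ) + 2 := mul_one _
    linarith
  have hr2 : (r : ℝ) ≤ ((d : ℝ) + ((K : ℝ) + 2)) ^ s :=
    hr.trans (pow_le_pow_left₀ hlog0 hlog s)
  have : ((r : ℕ) : ℝ) ≤ (((d + (K + 2))^s : ℕ) : ℝ) := by
    push_cast
    exact hr2
  exact_mod_cast this



end Pool.Agent.H891GAP
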