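import Pool.Agent.H891GAP.Defs

set_option autoImplicit false

namespace Pool.Agent.H891GAP

namespace W_GP_ASYM2

theorem choose_le_N : ∀ d s : ℕ, Nat.choose d (s + 1) ≤ N d (s + 1) := by
  intro d
  induction d with
  | zero => intro s; simp [N]
  | succ d ih =>
    intro s
    rw [Nat.choose_succ_succ]
    show d.choose s + d.choose (s + 1) ≤ N d (s + 1) + 1 + 2 * N d s
    have h1 := ih s
    rcases s with _ | s
    · rw [Nat.choose_zero_right]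
      omega
    · have h2 := ih s
      omega

theorem pow_le_choose' (d s A : ℕ) (hs : 1 ≤ s) (h : s * A ≤ d + 1 - s) : A ^ s ≤ d.choose s := by
  have h1 := Nat.pow_sub_le_descFactorial d s
  rw [Nat.descFactorial_eq_factorial_mul_choose] at h1
  have h2 : (s * A) ^ s ≤ s.factorial * d.choose s := (Nat.pow_le_pow_left h s).trans h1
  have h3 : s.factorial ≤ s ^ s := Nat.factorial_le_pow s
  rw [mul_pow] at h2
  have h4 : s ^ s * A ^ s ≤ s ^ s * d.choose s := h2.trans (Nat.mul_le_mul_right _ h3)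
  exact Nat.le_of_mul_le_mul_left h4 (by positivity)

theorem two_pow_clog (r : ℕ) (hr : 1 ≤ r) : 2 ^ Nat.clog 2 r ≤ 2 * r := by
  rcases Nat.lt_or_ge 1 r with h | h
  · have h1 := Nat.pow_pred_clog_lt_self (b := 2) (by norm_num) h
    have h2 : 0 < Nat.clog 2 r := Nat.clog_pos (by norm_num) (by omega)
    obtain ⟨m, hm⟩ : ∃ m, Nat.clog 2 r = m + 1 := ⟨Nat.clog 2 r - 1, by omega⟩
    rw [hm] at h1 ⊢
    rw [Nat.pred_succ] at h1
    rw [pow_succ]
    omega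
  · have : r = 1 := by omega
    subst this
    simp

end W_GP_ASYM2

open W_GP_ASYM2 in
theorem GP_ASYM2 (K : ℕ) (hK : 1 ≤ K) : ∃ δ : ℝ, 0 < δ ∧ ∃ n0 : ℕ, ∀ n : ℕ, n0 ≤ n → ∀ r : ℕ, 1 ≤ r → (r : ℝ) ≤ (n : ℝ) ^ δ → ∃ d s : ℕ, 2 ^ (d + 1) * (3 * 2 ^ s) ≤ n ∧ r ≤ N d s ∧ (n : ℝ) / (64 * (r : ℝ) ^ ((1 : ℝ) / K)) ≤ 2 ^ d := by
  obtain ⟨M, hM⟩ : ∃ M : ℕ, M = 2 ^ K + 2 := ⟨_, rfl⟩
  have hM0 : 0 < M := by rw [hM]; positivity
  have hMr : (0:ℝ) < (M:ℝ) := by exact_mod_cast hM0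
  refine ⟨1 / (2 * (M:ℝ)), by positivity, 2 ^ (4 * M + 6), fun n hn r hr hrn => ?_⟩
  have hn0 : n ≠ 0 := by
    have : 0 < 2 ^ (4 * M + 6) := by positivity
    omega
  obtain ⟨L, hL⟩ : ∃ L, L = Nat.log 2 n := ⟨_, rfl⟩
  obtain ⟨l, hl⟩ : ∃ l, l = Nat.clog 2 r := ⟨_, rfl⟩
  have hLn : 2 ^ L ≤ n := by rw [hL]; exact Nat.pow_log_le_self 2 hn0
  have hnL : n < 2 ^ (L + 1) := by rw [hL]; exact Nat.lt_pow_succ_log_self (by norm_num) n
  have hLbig : 4 * M + 6 ≤ L := by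
    rw [hL]
    exact Nat.le_log_of_pow_le (by norm_num) hn
  have hrl : r ≤ 2 ^ l := by rw [hl]; exact Nat.le_pow_clog (by norm_num) r
  have hlr : 2 ^ l ≤ 2 * r := by rw [hl]; exact two_pow_clog r hr
  -- r ^ (2 M) ≤ n
  have hrM : r ^ (2 * M) ≤ n := by
    have h1 : ((r:ℝ)) ^ (2 * M) ≤ ((n:ℝ) ^ (1 / (2 * (M:ℝ)))) ^ (2 * M) :=
      pow_le_pow_left₀ (by positivity) hrn _
    have h2 : ((n:ℝ) ^ (1 / (2 * (M:ℝ)))) ^ (2 * M) = (n:ℝ) := by
      rw [← Real.rpow_natCast, ← Real.rpow_mul (by positivity)]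
      have : 1 / (2 * (M:ℝ)) * ((2 * M : ℕ) : ℝ) = 1 := by
        push_cast
        field_simp
      rw [this, Real.rpow_one]
    rw [h2] at h1
    exact_mod_cast h1
  have hexp : l * (2 * M) < 2 * M + (L + 1) := by
    have h1 : 2 ^ (l * (2 * M)) < 2 ^ (2 * M + (L + 1)) := by
      calc 2 ^ (l * (2 * M)) = (2 ^ l) ^ (2 * M) := by rw [pow_mul]
        _ ≤ (2 * r) ^ (2 * M) := Nat.pow_le_pow_left hlr _
        _ = 2 ^ (2 * M) * r ^ (2 * M) := by rw [mul_pow]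
        _ ≤ 2 ^ (2 * M) * n := Nat.mul_le_mul_left _ hrM
        _ < 2 ^ (2 * M) * 2 ^ (L + 1) := Nat.mul_lt_mul_of_pos_left hnL (by positivity)
        _ = 2 ^ (2 * M + (L + 1)) := by rw [← pow_add]
    exact (Nat.pow_lt_pow_iff_right (by norm_num)).mp h1
  obtain ⟨q, hq⟩ : ∃ q, q = l / K := ⟨_, rfl⟩
  have hql : q ≤ l := by rw [hq]; exact Nat.div_le_self _ _
  have hqK : K * q ≤ l := by rw [hq]; exact Nat.mul_div_le l K
  have hqK2 : l < K * (q + 1) := by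
    rw [hq]
    exact Nat.lt_mul_div_succ l (by omega)
  have hsM : (q + 1) * M + 3 ≤ L := by
    have h1 : q * M ≤ l * M := Nat.mul_le_mul_right _ hql
    have h2 : l * (2 * M) = 2 * (l * M) := by ring
    have h3 : (q + 1) * M = q * M + M := by ring
    rw [h3]
    omega
  obtain ⟨d, hd⟩ : ∃ d, L = d + (q + 1) + 3 := by
    refine ⟨L - (q + 1) - 3, ?_⟩
    have : (q + 1) * 1 ≤ (q + 1) * M := Nat.mul_le_mul_left _ hM0
    omega
  refine ⟨d, q + 1, ?_, ?_, ?_⟩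
  · calc 2 ^ (d + 1) * (3 * 2 ^ (q + 1)) ≤ 2 ^ (d + 1) * (4 * 2 ^ (q + 1)) := by
          apply Nat.mul_le_mul_left
          apply Nat.mul_le_mul_right
          norm_num
      _ = 2 ^ (d + (q + 1) + 3) := by
          rw [show d + (q + 1) + 3 = (d + 1) + 2 + (q + 1) by ring, pow_add, pow_add]
          ring
      _ ≤ n := by rw [← hd]; exact hLn
  · have h1 : (q + 1) * 2 ^ K ≤ d + 1 - (q + 1) := by
      have h3 : (q + 1) * M = (q + 1) * 2 ^ K + 2 * (q + 1) := by rw [hM]; ring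
      rw [h3] at hsM
      omega
    have h2 := pow_le_choose' d (q + 1) (2 ^ K) (by omega) h1
    calc r ≤ 2 ^ l := hrl
      _ ≤ 2 ^ (K * (q + 1)) := Nat.pow_le_pow_right (by norm_num) hqK2.le
      _ = (2 ^ K) ^ (q + 1) := by rw [pow_mul]
      _ ≤ d.choose (q + 1) := h2
      _ ≤ N d (q + 1) := choose_le_N d q
  · have hr0 : (0:ℝ) < (r:ℝ) := by exact_mod_cast hr
    have hrK : 0 < (r:ℝ) ^ ((1:ℝ) / K) := Real.rpow_pos_of_pos hr0 _
    rw [div_le_iff₀ (by positivity)]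
    have hq2 : (2:ℝ) ^ q ≤ 2 * (r:ℝ) ^ ((1:ℝ) / K) := by
      have h1 : ((2:ℝ) ^ q) ^ K ≤ (2 * (r:ℝ) ^ ((1:ℝ) / K)) ^ K := by
        rw [mul_pow, one_div, Real.rpow_inv_natCast_pow hr0.le (by omega), ← pow_mul]
        have h2 : (2:ℝ) ^ (q * K) ≤ 2 * (r:ℝ) := by
          have h3 : 2 ^ (q * K) ≤ 2 * r := by
            refine (Nat.pow_le_pow_right (by norm_num) ?_).trans hlr
            rw [mul_comm]; exact hqK
          exact_mod_cast h3
        refine h2.trans ?_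
        apply mul_le_mul_of_nonneg_right _ hr0.le
        calc (2:ℝ) = 2 ^ 1 := by norm_num
          _ ≤ 2 ^ K := pow_le_pow_right₀ (by norm_num) hK
      exact (pow_le_pow_iff_left₀ (by positivity) (by positivity) (by omega)).mp h1
    have hn2 : (n:ℝ) ≤ 2 ^ (L + 1) := by exact_mod_cast hnL.le
    calc (n:ℝ) ≤ 2 ^ (L + 1) := hn2
      _ = 2 ^ d * (32 * 2 ^ q) := by
          rw [hd, show d + (q + 1) + 3 + 1 = d + 5 + q by ring, pow_add, pow_add]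
          norm_num
          ring
      _ ≤ 2 ^ d * (32 * (2 * (r:ℝ) ^ ((1:ℝ) / K))) := by
          apply mul_le_mul_of_nonneg_left _ (by positivity)
          linarith
      _ = 2 ^ d * (64 * (r:ℝ) ^ ((1:ℝ) / K)) := by ring


end Pool.Agent.H891GAP
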