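import Pool.Agent.H891GAP.Defs

set_option autoImplicit false

namespace Pool.Agent.H891GAP

namespace W_GP_MULT

theorem mem_fam' {D E S : Finset ℕ} : S ∈ fam D E ↔ ∃ I, I ⊆ D ∧ ∃ c ∈ E, S = insert c I := by
  unfold fam
  simp only [Finset.mem_image, Finset.mem_product, Finset.mem_powerset, Prod.exists]
  constructor
  · rintro ⟨I, c, ⟨hI, hc⟩, rfl⟩
    exact ⟨I, hI, c, hc, rfl⟩
  · rintro ⟨I, hI, c, hc, rfl⟩
    exact ⟨I, c, ⟨hI, hc⟩, rfl⟩

theorem ins_inj {D I J : Finset ℕ} {c d : ℕ} (hI : I ⊆ D) (hJ : J ⊆ D) (hc : c ∉ D) (hd : d ∉ D)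
    (h : insert c I = insert d J) : I = J ∧ c = d := by
  have hcd : c = d := by
    have h1 : c ∈ insert d J := by rw [← h]; exact Finset.mem_insert_self _ _
    rcases Finset.mem_insert.1 h1 with h2 | h2
    · exact h2
    · exact absurd (hJ h2) hc
  refine ⟨?_, hcd⟩
  subst hcd
  ext x
  constructor
  · intro hx
    have h1 : x ∈ insert c J := by rw [← h]; exact Finset.mem_insert_of_mem hx
    rcases Finset.mem_insert.1 h1 with h2 | h2
    · exact absurd (hI hx) (h2 ▸ hc)
    · exact h2
  · intro hx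
    have h1 : x ∈ insert c I := by rw [h]; exact Finset.mem_insert_of_mem hx
    rcases Finset.mem_insert.1 h1 with h2 | h2
    · exact absurd (hJ hx) (h2 ▸ hd)
    · exact h2

theorem card_fam (D E : Finset ℕ) (hE : ∀ c ∈ E, c ∉ D) :
    (fam D E).card = 2 ^ D.card * E.card := by
  unfold fam
  rw [Finset.card_image_of_injOn, Finset.card_product, Finset.card_powerset]
  rintro ⟨I, c⟩ h1 ⟨J, d⟩ h2 h
  simp only [Finset.coe_product, Set.mem_prod, Finset.mem_coe, Finset.mem_powerset] at h1 h2
  obtain ⟨e1, e2⟩ := ins_inj h1.1 h2.1 (hE _ h1.2) (hE _ h2.2) h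
  rw [e1, e2]

theorem mult_in (D E : Finset ℕ) (hE : ∀ c ∈ E, c ∉ D) (U V : Finset ℕ) (hU : U ⊆ D) (hV : V ⊆ D)
    (hUV : Disjoint U V) :
    mult (fam D E) U V = E.card * 2 ^ (D \ (U ∪ V)).card := by
  have key : ((fam D E) ×ˢ (fam D E)).filter (fun p => p.1 \ p.2 = U ∧ p.2 \ p.1 = V) =
      (E ×ˢ (D \ (U ∪ V)).powerset).image (fun q => (insert q.1 (U ∪ q.2), insert q.1 (V ∪ q.2))) := by
    ext ⟨S, R⟩
    simp only [Finset.mem_filter, Finset.mem_product, Finset.mem_image, Finset.mem_powerset,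
      Prod.exists, Prod.mk.injEq]
    constructor
    · rintro ⟨⟨hS, hR⟩, h1, h2⟩
      obtain ⟨I, hI, c, hc, rfl⟩ := mem_fam'.1 hS
      obtain ⟨J, hJ, d, hd, rfl⟩ := mem_fam'.1 hR
      have hcd : c = d := by
        by_contra hne
        have h3 : c ∈ insert c I \ insert d J := by
          rw [Finset.mem_sdiff]
          refine ⟨Finset.mem_insert_self _ _, fun h4 => ?_⟩
          rcases Finset.mem_insert.1 h4 with h5 | h5
          · exact hne h5
          · exact hE c hc (hJ h5)
        rw [h1] at h3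
        exact hE c hc (hU h3)
      subst hcd
      have hUmem : ∀ x, x ∈ U ↔ x ∈ I ∧ x ∉ J := by
        intro x
        rw [← h1, Finset.mem_sdiff, Finset.mem_insert, Finset.mem_insert]
        constructor
        · rintro ⟨h3 | h3, h4⟩
          · exact absurd (Or.inl h3) h4
          · exact ⟨h3, fun h5 => h4 (Or.inr h5)⟩
        · rintro ⟨h3, h4⟩
          refine ⟨Or.inr h3, ?_⟩
          rintro (h5 | h5)
          · exact hE c hc (h5 ▸ hI h3)
          · exact h4 h5
      have hVmem : ∀ x, x ∈ V ↔ x ∈ J ∧ x ∉ I := by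
        intro x
        rw [← h2, Finset.mem_sdiff, Finset.mem_insert, Finset.mem_insert]
        constructor
        · rintro ⟨h3 | h3, h4⟩
          · exact absurd (Or.inl h3) h4
          · exact ⟨h3, fun h5 => h4 (Or.inr h5)⟩
        · rintro ⟨h3, h4⟩
          refine ⟨Or.inr h3, ?_⟩
          rintro (h5 | h5)
          · exact hE c hc (h5 ▸ hJ h3)
          · exact h4 h5
      refine ⟨c, I ∩ J, ⟨hc, ?_⟩, ?_, ?_⟩
      · intro x hx
        rw [Finset.mem_inter] at hx
        rw [Finset.mem_sdiff, Finset.mem_union, hUmem, hVmem]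
        exact ⟨hI hx.1, by tauto⟩
      · congr 1
        ext x
        rw [Finset.mem_union, hUmem, Finset.mem_inter]
        tauto
      · congr 1
        ext x
        rw [Finset.mem_union, hVmem, Finset.mem_inter]
        tauto
    · rintro ⟨c, W, ⟨hc, hW⟩, rfl, rfl⟩
      have hWD : ∀ x ∈ W, x ∈ D ∧ x ∉ U ∧ x ∉ V := by
        intro x hx
        have := hW hx
        rw [Finset.mem_sdiff, Finset.mem_union] at this
        tauto
      have hcD := hE c hc
      refine ⟨⟨mem_fam'.2 ⟨U ∪ W, ?_, c, hc, rfl⟩, mem_fam'.2 ⟨V ∪ W, ?_, c, hc, rfl⟩⟩, ?_, ?_⟩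
      · exact Finset.union_subset hU (fun x hx => (hWD x hx).1)
      · exact Finset.union_subset hV (fun x hx => (hWD x hx).1)
      · ext x
        simp only [Finset.mem_sdiff, Finset.mem_insert, Finset.mem_union]
        constructor
        · rintro ⟨h3, h4⟩
          tauto
        · intro hx
          refine ⟨Or.inr (Or.inl hx), ?_⟩
          rintro (h5 | h5 | h5)
          · exact hcD (h5 ▸ hU hx)
          · exact Finset.disjoint_left.1 hUV hx h5
          · exact (hWD x h5).2.1 hx
      · ext x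
        simp only [Finset.mem_sdiff, Finset.mem_insert, Finset.mem_union]
        constructor
        · rintro ⟨h3, h4⟩
          tauto
        · intro hx
          refine ⟨Or.inr (Or.inl hx), ?_⟩
          rintro (h5 | h5 | h5)
          · exact hcD (h5 ▸ hV hx)
          · exact Finset.disjoint_left.1 hUV h5 hx
          · exact (hWD x h5).2.2 hx
  unfold mult
  rw [key, Finset.card_image_of_injOn, Finset.card_product, Finset.card_powerset]
  rintro ⟨c, W⟩ h1 ⟨d, W'⟩ h2 h
  simp only [Finset.coe_product, Set.mem_prod, Finset.mem_coe, Finset.mem_powerset] at h1 h2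
  simp only [Prod.mk.injEq] at h
  have hWD : ∀ x ∈ W, x ∈ D ∧ x ∉ U := by
    intro x hx
    have := h1.2 hx
    rw [Finset.mem_sdiff, Finset.mem_union] at this
    tauto
  have hWD' : ∀ x ∈ W', x ∈ D ∧ x ∉ U := by
    intro x hx
    have := h2.2 hx
    rw [Finset.mem_sdiff, Finset.mem_union] at this
    tauto
  obtain ⟨e1, e2⟩ := ins_inj (D := D) (Finset.union_subset hU (fun x hx => (hWD x hx).1))
    (Finset.union_subset hU (fun x hx => (hWD' x hx).1)) (hE _ h1.1) (hE _ h2.1) h.1
  have e3 : W = W' := by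
    ext x
    constructor
    · intro hx
      have : x ∈ U ∪ W' := by rw [← e1]; exact Finset.mem_union_right _ hx
      rcases Finset.mem_union.1 this with h5 | h5
      · exact absurd h5 (hWD x hx).2
      · exact h5
    · intro hx
      have : x ∈ U ∪ W := by rw [e1]; exact Finset.mem_union_right _ hx
      rcases Finset.mem_union.1 this with h5 | h5
      · exact absurd h5 (hWD' x hx).2
      · exact h5
  rw [e2, e3]

theorem mult_out (D E : Finset ℕ) (hE : ∀ c ∈ E, c ∉ D) (U V : Finset ℕ) (h : ¬ (U ⊆ D ∧ V ⊆ D)) :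
    mult (fam D E) U V ≤ 2 ^ D.card := by
  unfold mult
  rw [← Finset.card_powerset]
  apply Finset.card_le_card_of_injOn (fun p => p.1 ∩ p.2)
  · rintro ⟨S, R⟩ hp
    rw [Finset.mem_coe, Finset.mem_filter, Finset.mem_product] at hp
    obtain ⟨⟨hS, hR⟩, h1, h2⟩ := hp
    obtain ⟨I, hI, c, hc, hSe⟩ := mem_fam'.1 hS
    obtain ⟨J, hJ, d, hd, hRe⟩ := mem_fam'.1 hR
    simp only at h1 h2 hSe hRe
    subst hSe hRe
    rw [Finset.mem_coe, Finset.mem_powerset]
    intro x hx
    simp only [Finset.mem_inter, Finset.mem_insert] at hx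
    by_contra hxD
    have hxc : x = c := by
      rcases hx.1 with h3 | h3
      · exact h3
      · exact absurd (hI h3) hxD
    have hxd : x = d := by
      rcases hx.2 with h3 | h3
      · exact h3
      · exact absurd (hJ h3) hxD
    have hcd : c = d := hxc.symm.trans hxd
    subst hcd
    apply h
    constructor
    · intro z hz
      rw [← h1, Finset.mem_sdiff, Finset.mem_insert, Finset.mem_insert] at hz
      rcases hz.1 with h3 | h3
      · exact absurd (Or.inl h3) hz.2
      · exact hI h3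
    · intro z hz
      rw [← h2, Finset.mem_sdiff, Finset.mem_insert, Finset.mem_insert] at hz
      rcases hz.1 with h3 | h3
      · exact absurd (Or.inl h3) hz.2
      · exact hJ h3
  · rintro ⟨S, R⟩ hp ⟨S', R'⟩ hp' heq
    rw [Finset.mem_coe, Finset.mem_filter] at hp hp'
    obtain ⟨_, h1, h2⟩ := hp
    obtain ⟨_, h1', h2'⟩ := hp'
    simp only at h1 h2 h1' h2' heq
    have e1 : S = U ∪ (S ∩ R) := by
      rw [← h1]; exact (Finset.sdiff_union_inter S R).symm
    have e2 : S' = U ∪ (S' ∩ R') := by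
      rw [← h1']; exact (Finset.sdiff_union_inter S' R').symm
    have e3 : R = V ∪ (S ∩ R) := by
      rw [← h2, Finset.inter_comm S R]; exact (Finset.sdiff_union_inter R S).symm
    have e4 : R' = V ∪ (S' ∩ R') := by
      rw [← h2', Finset.inter_comm S' R']; exact (Finset.sdiff_union_inter R' S').symm
    have e5 : S = S' := by rw [e1, e2, heq]
    have e6 : R = R' := by rw [e3, e4, heq]
    rw [e5, e6]

end W_GP_MULT

open W_GP_MULT in
theorem GP_MULT (D E : Finset ℕ) (hDE : Disjoint D E) : (fam D E).card = 2 ^ D.card * E.card ∧ (∀ U V, U ⊆ D → V ⊆ D → Disjoint U V → mult (fam D E) U V * 2 ^ (U.card + V.card) = E.card * 2 ^ D.card) ∧ (∀ U V, ¬ (U ⊆ D ∧ V ⊆ D) → mult (fam D E) U V ≤ 2 ^ D.card) := by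
  have hE : ∀ c ∈ E, c ∉ D := fun c hc hcD => Finset.disjoint_left.1 hDE hcD hc
  refine ⟨card_fam D E hE, ?_, fun U V h => mult_out D E hE U V h⟩
  intro U V hU hV hUV
  rw [mult_in D E hE U V hU hV hUV, mul_assoc, ← pow_add]
  congr 2
  have h1 := Finset.card_sdiff_add_card_eq_card (Finset.union_subset hU hV)
  rw [Finset.card_union_of_disjoint hUV] at h1
  exact h1


end Pool.Agent.H891GAP
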