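import Pool.Agent.H891GAP.Defs

set_option autoImplicit false

namespace Pool.Agent.H891GAP

namespace W_GP_CNT

/-- the set of pairs to be counted -/
def C (D : Finset ℕ) (s : ℕ) : Finset (Finset ℕ × Finset ℕ) :=
  (D.powerset ×ˢ D.powerset).filter (fun q => Disjoint q.1 q.2 ∧ q.1.card + q.2.card ≤ s)

theorem mem_C (D : Finset ℕ) (s : ℕ) (q : Finset ℕ × Finset ℕ) :
    q ∈ C D s ↔ q.1 ⊆ D ∧ q.2 ⊆ D ∧ Disjoint q.1 q.2 ∧ q.1.card + q.2.card ≤ s := by
  unfold C
  rw [Finset.mem_filter, Finset.mem_product, Finset.mem_powerset, Finset.mem_powerset]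
  tauto

theorem step (D : Finset ℕ) (x : ℕ) (hx : x ∉ D) (s : ℕ) :
    C (insert x D) (s + 1) = C D (s + 1) ∪
      ((C D s).image (fun q => (insert x q.1, q.2)) ∪
        (C D s).image (fun q => (q.1, insert x q.2))) := by
  ext ⟨U, V⟩
  simp only [Finset.mem_union, Finset.mem_image, mem_C, Prod.mk.injEq, Prod.exists]
  constructor
  · rintro ⟨hU, hV, hd, hc⟩
    by_cases h1 : x ∈ U
    · have h2 : x ∉ V := fun h => (Finset.disjoint_left.mp hd h1) h
      right; left
      refine ⟨U.erase x, V, ⟨Finset.subset_insert_iff.mp hU,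
        (Finset.subset_insert_iff_of_notMem h2).mp hV,
        Finset.disjoint_of_subset_left (Finset.erase_subset x U) hd, ?_⟩,
        Finset.insert_erase h1, rfl⟩
      have := Finset.card_erase_add_one h1
      omega
    · by_cases h2 : x ∈ V
      · right; right
        refine ⟨U, V.erase x, ⟨(Finset.subset_insert_iff_of_notMem h1).mp hU,
          Finset.subset_insert_iff.mp hV,
          Finset.disjoint_of_subset_right (Finset.erase_subset x V) hd, ?_⟩,
          rfl, Finset.insert_erase h2⟩
        have := Finset.card_erase_add_one h2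
        omega
      · left
        exact ⟨(Finset.subset_insert_iff_of_notMem h1).mp hU,
          (Finset.subset_insert_iff_of_notMem h2).mp hV, hd, hc⟩
  · rintro (⟨hU, hV, hd, hc⟩ | ⟨U', V', ⟨hU, hV, hd, hc⟩, rfl, rfl⟩ |
      ⟨U', V', ⟨hU, hV, hd, hc⟩, rfl, rfl⟩)
    · exact ⟨hU.trans (Finset.subset_insert x D), hV.trans (Finset.subset_insert x D), hd, hc⟩
    · refine ⟨Finset.insert_subset_insert x hU, hV.trans (Finset.subset_insert x D), ?_, ?_⟩
      · rw [Finset.disjoint_insert_left]
        exact ⟨fun h => hx (hV h), hd⟩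
      · rw [Finset.card_insert_of_notMem (fun h => hx (hU h))]
        omega
    · refine ⟨hU.trans (Finset.subset_insert x D), Finset.insert_subset_insert x hV, ?_, ?_⟩
      · rw [Finset.disjoint_insert_right]
        exact ⟨fun h => hx (hU h), hd⟩
      · rw [Finset.card_insert_of_notMem (fun h => hx (hV h))]
        omega

theorem card_step (D : Finset ℕ) (x : ℕ) (hx : x ∉ D) (s : ℕ) :
    (C (insert x D) (s + 1)).card = (C D (s + 1)).card + 2 * (C D s).card := by
  rw [step D x hx s, Finset.card_union_of_disjoint, Finset.card_union_of_disjoint,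
    Finset.card_image_of_injOn, Finset.card_image_of_injOn]
  · ring
  · rintro ⟨U, V⟩ hp ⟨U', V'⟩ hp' h
    rw [Finset.mem_coe, mem_C] at hp hp'
    simp only [Prod.mk.injEq] at h ⊢
    refine ⟨h.1, ?_⟩
    have h2 : Finset.erase (insert x V) x = Finset.erase (insert x V') x :=
      congrArg (fun t => Finset.erase t x) h.2
    rwa [Finset.erase_insert (fun h => hx (hp.2.1 h)),
      Finset.erase_insert (fun h => hx (hp'.2.1 h))] at h2
  · rintro ⟨U, V⟩ hp ⟨U', V'⟩ hp' h
    rw [Finset.mem_coe, mem_C] at hp hp'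
    simp only [Prod.mk.injEq] at h ⊢
    refine ⟨?_, h.2⟩
    have h2 : Finset.erase (insert x U) x = Finset.erase (insert x U') x :=
      congrArg (fun t => Finset.erase t x) h.1
    rwa [Finset.erase_insert (fun h => hx (hp.1 h)),
      Finset.erase_insert (fun h => hx (hp'.1 h))] at h2
  · rw [Finset.disjoint_left]
    rintro ⟨U, V⟩ h1 h2
    simp only [Finset.mem_image, mem_C, Prod.mk.injEq, Prod.exists] at h1 h2
    obtain ⟨U1, V1, ⟨-, hV1, -, -⟩, -, rfl⟩ := h1
    obtain ⟨U2, V2, -, -, h3⟩ := h2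
    exact hx (hV1 (h3 ▸ Finset.mem_insert_self x V2))
  · rw [Finset.disjoint_left]
    rintro ⟨U, V⟩ h1 h2
    simp only [Finset.mem_union, Finset.mem_image, mem_C, Prod.mk.injEq, Prod.exists] at h1 h2
    rcases h2 with ⟨U2, V2, -, h3, -⟩ | ⟨U2, V2, -, -, h3⟩
    · exact hx (h1.1 (h3 ▸ Finset.mem_insert_self x U2))
    · exact hx (h1.2.1 (h3 ▸ Finset.mem_insert_self x V2))

theorem card_zero (D : Finset ℕ) : (C D 0).card = 1 := by
  have : C D 0 = {(∅, ∅)} := by
    ext ⟨U, V⟩
    rw [mem_C, Finset.mem_singleton, Prod.mk.injEq]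
    constructor
    · rintro ⟨-, -, -, h⟩
      simp only at h
      exact ⟨Finset.card_eq_zero.mp (by omega), Finset.card_eq_zero.mp (by omega)⟩
    · rintro ⟨rfl, rfl⟩
      simp
  rw [this, Finset.card_singleton]

theorem card_empty (s : ℕ) : (C ∅ s).card = 1 := by
  have : C ∅ s = {(∅, ∅)} := by
    ext ⟨U, V⟩
    rw [mem_C, Finset.mem_singleton, Prod.mk.injEq]
    constructor
    · rintro ⟨h1, h2, -, -⟩
      exact ⟨Finset.subset_empty.mp h1, Finset.subset_empty.mp h2⟩
    · rintro ⟨rfl, rfl⟩
      simp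
  rw [this, Finset.card_singleton]

theorem main (D : Finset ℕ) : ∀ s, (C D s).card = 1 + 2 * N D.card s := by
  induction D using Finset.induction_on with
  | empty =>
    intro s
    rw [card_empty, Finset.card_empty]
    simp only [N]
  | insert x D hx ih =>
    intro s
    rw [Finset.card_insert_of_notMem hx]
    cases s with
    | zero =>
      rw [card_zero]
      simp only [N]
    | succ s =>
      rw [card_step D x hx s, ih, ih]
      simp only [N]
      ring

end W_GP_CNT

open W_GP_CNT in
theorem GP_CNT (D : Finset ℕ) (s : ℕ) : ((D.powerset ×ˢ D.powerset).filter (fun q => Disjoint q.1 q.2 ∧ q.1.card + q.2.card ≤ s)).card = 1 + 2 * N D.card s := by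
  exact main D s


end Pool.Agent.H891GAP
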