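import Pool.Agent.H891GAP.Defs
import Pool.Agent.H891GAP.GP_CNT
import Pool.Agent.H891GAP.GP_MULT

set_option autoImplicit false

namespace Pool.Agent.H891GAP

namespace W_GP_PIECE

theorem tmul352 {m T k s : ℕ} (h : m * 2 ^ k = T * 2 ^ s) :
    (k ≤ s → T ≤ m) ∧ (¬ k ≤ s → 2 * m ≤ T) := by
  constructor
  · intro hk
    obtain ⟨t, rfl⟩ := Nat.exists_eq_add_of_le hk
    have h2 : 0 < 2 ^ k := by positivity
    have h4 : m * 2 ^ k = (T * 2 ^ t) * 2 ^ k := by rw [h, pow_add]; ring
    have h3 := Nat.eq_of_mul_eq_mul_right h2 h4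
    rw [h3]
    exact Nat.le_mul_of_pos_right T (by positivity)
  · intro hk
    have hk' : s + 1 ≤ k := by omega
    obtain ⟨t, rfl⟩ := Nat.exists_eq_add_of_le hk'
    have h2 : 0 < 2 ^ s := by positivity
    have h1 : m * 2 ^ (s + 1 + t) = (2 * m * 2 ^ t) * 2 ^ s := by
      rw [pow_add, pow_succ]; ring
    rw [h1] at h
    have h3 := Nat.eq_of_mul_eq_mul_right h2 h
    rw [← h3]
    exact Nat.le_mul_of_pos_right _ (by positivity)

theorem main352 (D E : Finset ℕ) (hDE : Disjoint D E) (T s : ℕ)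
    (hE : E.card * 2 ^ D.card = T * 2 ^ s) (hT : 2 ^ (D.card + 1) ≤ T)
    (hm : ∀ U V, U ⊆ D → V ⊆ D → Disjoint U V →
      mult (fam D E) U V * 2 ^ (U.card + V.card) = E.card * 2 ^ D.card)
    (hm2 : ∀ U V, ¬ (U ⊆ D ∧ V ⊆ D) → mult (fam D E) U V ≤ 2 ^ D.card)
    (hc : ((D.powerset ×ˢ D.powerset).filter
      (fun q => Disjoint q.1 q.2 ∧ q.1.card + q.2.card ≤ s)).card = 1 + 2 * N D.card s) :
    Good (fam D E) T (N D.card s) := by
  have hT0 : 0 < T := lt_of_lt_of_le (by positivity) hT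
  have hEne : E.Nonempty := by
    rw [← Finset.card_pos]
    by_contra h
    have h0 : E.card = 0 := by omega
    rw [h0, Nat.zero_mul] at hE
    have : 0 < T * 2 ^ s := by positivity
    omega
  have key1 : ∀ U V, U ⊆ D → V ⊆ D → Disjoint U V →
      (U.card + V.card ≤ s → T ≤ mult (fam D E) U V) ∧
      (¬ U.card + V.card ≤ s → 2 * mult (fam D E) U V ≤ T) := by
    intro U V hU hV hUV
    exact tmul352 ((hm U V hU hV hUV).trans hE)
  have key2 : ∀ U V, ¬ (U ⊆ D ∧ V ⊆ D) → 2 * mult (fam D E) U V ≤ T := by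
    intro U V h
    have h1 := hm2 U V h
    rw [pow_succ] at hT
    omega
  have typ : ∀ U V, (U, V) ∈ types (fam D E) ↔
      ∃ S ∈ fam D E, ∃ R ∈ fam D E, S ≠ R ∧ S \ R = U ∧ R \ S = V := by
    intro U V
    simp only [types, Finset.mem_image, Finset.mem_filter, Finset.mem_product, Prod.exists,
      Prod.mk.injEq]
    constructor
    · rintro ⟨S, R, ⟨⟨hS, hR⟩, hne⟩, h1, h2⟩
      exact ⟨S, hS, R, hR, hne, h1, h2⟩
    · rintro ⟨S, hS, R, hR, hne, h1, h2⟩
      exact ⟨S, R, ⟨⟨hS, hR⟩, hne⟩, h1, h2⟩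
  have disj : ∀ U V, (U, V) ∈ types (fam D E) → Disjoint U V ∧ (U, V) ≠ (∅, ∅) := by
    intro U V h
    obtain ⟨S, hS, R, hR, hne, rfl, rfl⟩ := (typ U V).1 h
    refine ⟨?_, ?_⟩
    · exact disjoint_sdiff_sdiff
    · intro h
      rw [Prod.mk.injEq] at h
      apply hne
      exact Finset.Subset.antisymm (Finset.sdiff_eq_empty_iff_subset.1 h.1)
        (Finset.sdiff_eq_empty_iff_subset.1 h.2)
  refine ⟨?_, ?_⟩
  · have heq : (types (fam D E)).filter (fun q => T ≤ mult (fam D E) q.1 q.2) =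
        ((D.powerset ×ˢ D.powerset).filter
          (fun q => Disjoint q.1 q.2 ∧ q.1.card + q.2.card ≤ s)).erase (∅, ∅) := by
      ext ⟨U, V⟩
      rw [Finset.mem_filter, Finset.mem_erase, Finset.mem_filter, Finset.mem_product,
        Finset.mem_powerset, Finset.mem_powerset]
      constructor
      · rintro ⟨h1, h2⟩
        obtain ⟨h3, h4⟩ := disj U V h1
        have h5 : U ⊆ D ∧ V ⊆ D := by
          by_contra h
          have h6 := key2 U V h
          simp only at h2
          omega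
        have h6 : U.card + V.card ≤ s := by
          by_contra h
          have h7 := (key1 U V h5.1 h5.2 h3).2 h
          simp only at h2
          omega
        exact ⟨h4, h5, h3, h6⟩
      · rintro ⟨h4, h5, h3, h6⟩
        refine ⟨?_, (key1 U V h5.1 h5.2 h3).1 h6⟩
        rw [typ]
        obtain ⟨c, hcE⟩ := hEne
        have hcD : c ∉ D := fun h => Finset.disjoint_left.1 hDE h hcE
        have hgen : ∀ X Y : Finset ℕ, X ⊆ D → Disjoint X Y → insert c X \ insert c Y = X := by
          intro X Y hX hXY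
          ext x
          simp only [Finset.mem_sdiff, Finset.mem_insert, not_or]
          constructor
          · rintro ⟨h | h, h1, h2⟩
            · exact absurd h h1
            · exact h
          · intro h
            exact ⟨Or.inr h, fun e => hcD (e ▸ hX h), Finset.disjoint_left.1 hXY h⟩
        have hS := hgen U V h5.1 h3
        have hR := hgen V U h5.2 h3.symm
        have hmem : ∀ X : Finset ℕ, X ⊆ D → insert c X ∈ fam D E := by
          intro X hX
          exact Finset.mem_image.2 ⟨(X, c), by simp [hX, hcE], rfl⟩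
        refine ⟨insert c U, hmem U h5.1, insert c V, hmem V h5.2, ?_, hS, hR⟩
        intro he
        rw [he, Finset.sdiff_self] at hS
        rw [he, Finset.sdiff_self] at hR
        apply h4
        rw [← hS, ← hR]
    rw [heq, Finset.card_erase_of_mem, hc]
    · omega
    · simp
  · rintro ⟨U, V⟩ hq
    by_cases h : U ⊆ D ∧ V ⊆ D
    · by_cases hk : U.card + V.card ≤ s
      · exact Or.inl ((key1 U V h.1 h.2 (disj U V hq).1).1 hk)
      · exact Or.inr ((key1 U V h.1 h.2 (disj U V hq).1).2 hk)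
    · exact Or.inr (key2 U V h)

end W_GP_PIECE

open W_GP_PIECE in
theorem GP_PIECE (D E : Finset ℕ) (hDE : Disjoint D E) (T s : ℕ) (hE : E.card * 2 ^ D.card = T * 2 ^ s) (hT : 2 ^ (D.card + 1) ≤ T) : Good (fam D E) T (N D.card s) := by
  obtain ⟨_, h2, h3⟩ := GP_MULT D E hDE
  exact main352 D E hDE T s hE hT h2 h3 (GP_CNT D s)


end Pool.Agent.H891GAP
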