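import Pool.Agent.H891GAP.Defs

set_option autoImplicit false

namespace Pool.Agent.H891GAP

namespace W_GP_UNION

lemma memT {A : Finset (Finset ℕ)} {q : Finset ℕ × Finset ℕ} :
    q ∈ types A ↔ ∃ S ∈ A, ∃ R ∈ A, S ≠ R ∧ S \ R = q.1 ∧ R \ S = q.2 := by
  unfold types
  simp only [Finset.mem_image, Finset.mem_filter, Finset.mem_product, Prod.exists]
  constructor
  · rintro ⟨S, R, ⟨⟨hS, hR⟩, hne⟩, rfl⟩
    exact ⟨S, hS, R, hR, hne, rfl, rfl⟩
  · rintro ⟨S, hS, R, hR, hne, h1, h2⟩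
    exact ⟨S, R, ⟨⟨hS, hR⟩, hne⟩, Prod.ext h1 h2⟩

lemma elt {A : Finset (Finset ℕ)} {q : Finset ℕ × Finset ℕ} (hq : q ∈ types A) :
    ∃ x, x ∈ q.1 ∨ x ∈ q.2 := by
  obtain ⟨S, hS, R, hR, hne, h1, h2⟩ := memT.mp hq
  by_contra hcon
  push Not at hcon
  apply hne
  ext x
  have := hcon x
  rw [← h1, ← h2] at this
  simp only [Finset.mem_sdiff] at this
  tauto

lemma inA {A : Finset (Finset ℕ)} {q : Finset ℕ × Finset ℕ} (hq : q ∈ types A) {x : ℕ}
    (hx : x ∈ q.1 ∨ x ∈ q.2) : ∃ S ∈ A, x ∈ S := by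
  obtain ⟨S, hS, R, hR, hne, h1, h2⟩ := memT.mp hq
  rw [← h1, ← h2] at hx
  simp only [Finset.mem_sdiff] at hx
  rcases hx with hx | hx
  · exact ⟨S, hS, hx.1⟩
  · exact ⟨R, hR, hx.1⟩

lemma multA (A B : Finset (Finset ℕ)) (hAB : ∀ S ∈ A, ∀ R ∈ B, ∀ x, x ∈ S → x ∈ R → False)
    (hB : ∀ S ∈ B, S.Nonempty) (q : Finset ℕ × Finset ℕ) (hq : q ∈ types A) :
    mult (A ∪ B) q.1 q.2 = mult A q.1 q.2 := by
  unfold mult
  congr 1
  ext ⟨S, R⟩
  simp only [Finset.mem_filter, Finset.mem_product, Finset.mem_union]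
  constructor
  · rintro ⟨⟨hS, hR⟩, h1, h2⟩
    have hSA : S ∈ A := by
      rcases hS with h | h
      · exact h
      · exfalso
        rcases hR with h' | h'
        · obtain ⟨x, hx⟩ := hB S h
          have hxR : x ∉ R := fun hxR => hAB R h' S h x hxR hx
          obtain ⟨S0, hS0, hx0⟩ := inA hq (x := x)
            (Or.inl (by rw [← h1]; exact Finset.mem_sdiff.mpr ⟨hx, hxR⟩))
          exact hAB S0 hS0 S h x hx0 hx
        · obtain ⟨x, hx⟩ := elt hq
          obtain ⟨S0, hS0, hx0⟩ := inA hq hx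
          rw [← h1, ← h2] at hx
          simp only [Finset.mem_sdiff] at hx
          rcases hx with hx | hx
          · exact hAB S0 hS0 S h x hx0 hx.1
          · exact hAB S0 hS0 R h' x hx0 hx.1
    have hRA : R ∈ A := by
      rcases hR with h | h
      · exact h
      · exfalso
        obtain ⟨x, hx⟩ := hB R h
        have hxS : x ∉ S := fun hxS => hAB S hSA R h x hxS hx
        obtain ⟨S0, hS0, hx0⟩ := inA hq (x := x)
          (Or.inr (by rw [← h2]; exact Finset.mem_sdiff.mpr ⟨hx, hxS⟩))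
        exact hAB S0 hS0 R h x hx0 hx
    exact ⟨⟨hSA, hRA⟩, h1, h2⟩
  · rintro ⟨⟨hS, hR⟩, h1, h2⟩
    exact ⟨⟨Or.inl hS, Or.inl hR⟩, h1, h2⟩

lemma cross (A B : Finset (Finset ℕ)) (hAB : ∀ S ∈ A, ∀ R ∈ B, ∀ x, x ∈ S → x ∈ R → False)
    (hA : ∀ S ∈ A, S.Nonempty) (hB : ∀ S ∈ B, S.Nonempty) (S R : Finset ℕ) (hS : S ∈ A)
    (hR : R ∈ B) : mult (A ∪ B) S R ≤ 1 := by
  unfold mult
  have key : ∀ p ∈ ((A ∪ B) ×ˢ (A ∪ B)).filter (fun p => p.1 \ p.2 = S ∧ p.2 \ p.1 = R),
      p = (S, R) := by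
    rintro ⟨S', R'⟩ hp
    simp only [Finset.mem_filter, Finset.mem_product, Finset.mem_union] at hp
    obtain ⟨⟨hS', hR'⟩, h1, h2⟩ := hp
    have hSA : S' ∈ A := by
      rcases hS' with h | h
      · exact h
      · exfalso
        obtain ⟨x, hx⟩ := hA S hS
        have hx' : x ∈ S' := by
          rw [← h1] at hx; exact (Finset.mem_sdiff.mp hx).1
        exact hAB S hS S' h x hx hx'
    have hRB : R' ∈ B := by
      rcases hR' with h | h
      · exfalso
        obtain ⟨x, hx⟩ := hB R hR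
        have hx' : x ∈ R' := by
          rw [← h2] at hx; exact (Finset.mem_sdiff.mp hx).1
        exact hAB R' h R hR x hx' hx
      · exact h
    have e1 : S' \ R' = S' := by
      ext x
      simp only [Finset.mem_sdiff]
      exact ⟨fun h => h.1, fun h => ⟨h, fun h' => hAB S' hSA R' hRB x h h'⟩⟩
    have e2 : R' \ S' = R' := by
      ext x
      simp only [Finset.mem_sdiff]
      exact ⟨fun h => h.1, fun h => ⟨h, fun h' => hAB S' hSA R' hRB x h' h⟩⟩
    rw [e1] at h1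
    rw [e2] at h2
    rw [h1, h2]
  rw [Finset.card_le_one]
  intro a ha b hb
  rw [key a ha, key b hb]

end W_GP_UNION

open W_GP_UNION in
theorem GP_UNION (A B : Finset (Finset ℕ)) (T r r' : ℕ) (hAB : ∀ S ∈ A, ∀ R ∈ B, Disjoint S R) (hA : ∀ S ∈ A, S.Nonempty) (hB : ∀ S ∈ B, S.Nonempty) (gA : Good A T r) (gB : Good B T r') (hT : 2 ≤ T) : Good (A ∪ B) T (r + r') ∧ (A ∪ B).card = A.card + B.card := by
  have h0 : ∀ S ∈ A, ∀ R ∈ B, ∀ x, x ∈ S → x ∈ R → False := fun S hS R hR x h1 h2 =>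
    Finset.disjoint_left.mp (hAB S hS R hR) h1 h2
  have h0' : ∀ S ∈ B, ∀ R ∈ A, ∀ x, x ∈ S → x ∈ R → False := fun S hS R hR x h1 h2 =>
    h0 R hR S hS x h2 h1
  have mA : ∀ q ∈ types A, mult (A ∪ B) q.1 q.2 = mult A q.1 q.2 := multA A B h0 hB
  have mB : ∀ q ∈ types B, mult (A ∪ B) q.1 q.2 = mult B q.1 q.2 := by
    intro q hq
    rw [Finset.union_comm]
    exact multA B A h0' hA q hq
  have tsplit : ∀ q ∈ types (A ∪ B), q ∈ types A ∨ q ∈ types B ∨ mult (A ∪ B) q.1 q.2 ≤ 1 := by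
    intro q hq
    obtain ⟨S, hS, R, hR, hne, h1, h2⟩ := memT.mp hq
    rw [Finset.mem_union] at hS hR
    rcases hS with hS | hS <;> rcases hR with hR | hR
    · exact Or.inl (memT.mpr ⟨S, hS, R, hR, hne, h1, h2⟩)
    · right; right
      have e1 : S \ R = S := by
        ext x
        simp only [Finset.mem_sdiff]
        exact ⟨fun h => h.1, fun h => ⟨h, fun h' => h0 S hS R hR x h h'⟩⟩
      have e2 : R \ S = R := by
        ext x
        simp only [Finset.mem_sdiff]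
        exact ⟨fun h => h.1, fun h => ⟨h, fun h' => h0 S hS R hR x h' h⟩⟩
      rw [← h1, ← h2, e1, e2]
      exact cross A B h0 hA hB S R hS hR
    · right; right
      have e1 : S \ R = S := by
        ext x
        simp only [Finset.mem_sdiff]
        exact ⟨fun h => h.1, fun h => ⟨h, fun h' => h0 R hR S hS x h' h⟩⟩
      have e2 : R \ S = R := by
        ext x
        simp only [Finset.mem_sdiff]
        exact ⟨fun h => h.1, fun h => ⟨h, fun h' => h0 R hR S hS x h h'⟩⟩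
      rw [← h1, ← h2, e1, e2, Finset.union_comm]
      exact cross B A h0' hB hA S R hS hR
    · exact Or.inr (Or.inl (memT.mpr ⟨S, hS, R, hR, hne, h1, h2⟩))
  have tA : types A ⊆ types (A ∪ B) := by
    intro q hq
    obtain ⟨S, hS, R, hR, hne, h1, h2⟩ := memT.mp hq
    exact memT.mpr ⟨S, Finset.mem_union_left _ hS, R, Finset.mem_union_left _ hR, hne, h1, h2⟩
  have tB : types B ⊆ types (A ∪ B) := by
    intro q hq
    obtain ⟨S, hS, R, hR, hne, h1, h2⟩ := memT.mp hq
    exact memT.mpr ⟨S, Finset.mem_union_right _ hS, R, Finset.mem_union_right _ hR, hne, h1, h2⟩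
  have tdisj : ∀ q, q ∈ types A → q ∈ types B → False := by
    intro q hqA hqB
    obtain ⟨x, hx⟩ := elt hqA
    obtain ⟨S, hS, hxS⟩ := inA hqA hx
    obtain ⟨R, hR, hxR⟩ := inA hqB hx
    exact h0 S hS R hR x hxS hxR
  refine ⟨⟨?_, ?_⟩, ?_⟩
  · have e : (types (A ∪ B)).filter (fun q => T ≤ mult (A ∪ B) q.1 q.2) =
        (types A).filter (fun q => T ≤ mult A q.1 q.2) ∪
          (types B).filter (fun q => T ≤ mult B q.1 q.2) := by
      ext q
      simp only [Finset.mem_filter, Finset.mem_union]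
      constructor
      · rintro ⟨h1, h2⟩
        rcases tsplit q h1 with h | h | h
        · left; exact ⟨h, by rw [← mA q h]; exact h2⟩
        · right; exact ⟨h, by rw [← mB q h]; exact h2⟩
        · omega
      · rintro (⟨h1, h2⟩ | ⟨h1, h2⟩)
        · exact ⟨tA h1, by rw [mA q h1]; exact h2⟩
        · exact ⟨tB h1, by rw [mB q h1]; exact h2⟩
    rw [e, Finset.card_union_of_disjoint, gA.1, gB.1]
    · ring
    · rw [Finset.disjoint_left]
      intro q h1 h2
      exact tdisj q (Finset.mem_filter.mp h1).1 (Finset.mem_filter.mp h2).1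
  · intro q hq
    rcases tsplit q hq with h | h | h
    · rw [mA q h]; exact gA.2 q h
    · rw [mB q h]; exact gB.2 q h
    · right; omega
  · apply Finset.card_union_of_disjoint
    rw [Finset.disjoint_left]
    intro S h1 h2
    obtain ⟨x, hx⟩ := hA S h1
    exact h0 S h1 S h2 x hx hx


end Pool.Agent.H891GAP
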