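import Pool.Agent.H891GAP.Defs
import Pool.Agent.H891GAP.GP_PIECE
import Pool.Agent.H891GAP.GP_UNION
import Pool.Agent.H891GAP.GP_MULT

set_option autoImplicit false

namespace Pool.Agent.H891GAP

namespace W_GP_BUILD

end W_GP_BUILD

open W_GP_BUILD in
theorem GP_BUILD (d : ℕ) (L : List (ℕ × ℕ)) (hL : ∀ p ∈ L, p.1 ≤ d) : ∃ A : Finset (Finset ℕ), (∀ S ∈ A, S.Nonempty) ∧ Good A (2 ^ (d + 1)) (L.map (fun p => N p.1 p.2)).sum ∧ A.card = 2 ^ (d + 1) * (L.map (fun p => 2 ^ p.2)).sum := by
  induction L with
  | nil =>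
    refine ⟨∅, by simp, ?_, by simp⟩
    constructor
    · simp [types]
    · intro q hq
      simp [types] at hq
  | cons p L ih =>
    obtain ⟨A, hA1, hA2, hA3⟩ := ih (fun q hq => hL q (List.mem_cons_of_mem _ hq))
    have hp := hL p List.mem_cons_self
    obtain ⟨a, s⟩ := p
    simp only at hp
    obtain ⟨M, hM⟩ := Finset.exists_nat_subset_range (A.biUnion id)
    set m : ℕ := 2 ^ (d + 1 - a) * 2 ^ s with hm
    set D : Finset ℕ := Finset.Ico M (M + a) with hD
    set E : Finset ℕ := Finset.Ico (M + a) (M + a + m) with hE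
    have hDc : D.card = a := by simp [hD]
    have hEc : E.card = m := by simp [hE]
    have hDE : Disjoint D E := by
      rw [Finset.disjoint_left]
      intro x hx hx'
      rw [hD, Finset.mem_Ico] at hx
      rw [hE, Finset.mem_Ico] at hx'
      omega
    have hpow : m * 2 ^ a = 2 ^ (d + 1) * 2 ^ s := by
      have : 2 ^ (d + 1) = 2 ^ (d + 1 - a) * 2 ^ a := by
        rw [← pow_add]; congr 1; omega
      rw [hm, this]; ring
    have hT : 2 ≤ 2 ^ (d + 1) := by
      rw [pow_succ]
      have : 1 ≤ 2 ^ d := Nat.one_le_two_pow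
      omega
    have hgood := GP_PIECE D E hDE (2 ^ (d + 1)) s (by rw [hDc, hEc, hpow]) (by
      rw [hDc]; exact Nat.pow_le_pow_right (by norm_num) (by omega))
    rw [hDc] at hgood
    have hfne : ∀ S ∈ fam D E, S.Nonempty := by
      intro S hS
      rw [fam, Finset.mem_image] at hS
      obtain ⟨q, -, rfl⟩ := hS
      exact Finset.insert_nonempty _ _
    have hdis : ∀ S ∈ fam D E, ∀ R ∈ A, Disjoint S R := by
      intro S hS R hR
      rw [fam, Finset.mem_image] at hS
      obtain ⟨q, hq, rfl⟩ := hS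
      rw [Finset.mem_product, Finset.mem_powerset] at hq
      rw [Finset.disjoint_left]
      intro x hx hxR
      have hxM : x < M := by
        have : x ∈ Finset.range M := hM (Finset.mem_biUnion.mpr ⟨R, hR, hxR⟩)
        exact Finset.mem_range.mp this
      rw [Finset.mem_insert] at hx
      rcases hx with hx | hx
      · have := hq.2
        rw [hE, Finset.mem_Ico] at this
        omega
      · have := hq.1 hx
        rw [hD, Finset.mem_Ico] at this
        omega
    obtain ⟨h1, h2⟩ := GP_UNION (fam D E) A (2 ^ (d + 1)) (N a s) _ hdis hfne hA1 hgood hA2 hT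
    refine ⟨fam D E ∪ A, ?_, ?_, ?_⟩
    · intro S hS
      rcases Finset.mem_union.mp hS with h | h
      · exact hfne S h
      · exact hA1 S h
    · simpa using h1
    · rw [h2, (GP_MULT D E hDE).1, hDc, hEc, hA3, mul_comm (2 ^ a) m, hpow, List.map_cons, List.sum_cons]
      ring


end Pool.Agent.H891GAP
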