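import Pool.Agent.H891GAP.Defs

set_option autoImplicit false

namespace Pool.Agent.H891GAP

namespace W_GP_DEC

theorem N_zero_right (d : ℕ) : N d 0 = 0 := by
  cases d <;> rfl

theorem dec_aux (s : ℕ) : ∀ d r : ℕ, r ≤ N d s → ∃ L : List (ℕ × ℕ), (∀ p ∈ L, p.1 ≤ d) ∧
    (L.map (fun p => N p.1 p.2)).sum = r ∧ (L.map (fun p => 2 ^ p.2)).sum + 2 ≤ 3 * 2 ^ s := by
  induction s with
  | zero =>
    intro d r h
    rw [N_zero_right] at h
    refine ⟨[], by simp, by simp; omega, by simp⟩
  | succ s ih =>
    intro d r h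
    have h2 : 1 ≤ 2 ^ s := Nat.one_le_two_pow
    have h0 : N 0 (s + 1) ≤ r := by
      have : N 0 (s + 1) = 0 := rfl
      omega
    have hspec : N (Nat.findGreatest (fun x => N x (s + 1) ≤ r) d) (s + 1) ≤ r :=
      Nat.findGreatest_spec (P := fun x => N x (s + 1) ≤ r) (Nat.zero_le d) h0
    have hle : Nat.findGreatest (fun x => N x (s + 1) ≤ r) d ≤ d := Nat.findGreatest_le d
    have hgr : ∀ k, Nat.findGreatest (fun x => N x (s + 1) ≤ r) d < k → k ≤ d →
        ¬ (N k (s + 1) ≤ r) := fun k hk hkd =>
      Nat.findGreatest_is_greatest (P := fun x => N x (s + 1) ≤ r) hk hkd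
    generalize Nat.findGreatest (fun x => N x (s + 1) ≤ r) d = e at hspec hle hgr
    rcases Nat.lt_or_ge e d with hlt | hge
    · have h3 := hgr (e + 1) (Nat.lt_succ_self e) hlt
      have h4 : N (e + 1) (s + 1) = N e (s + 1) + 1 + 2 * N e s := rfl
      rw [h4] at h3
      rcases Nat.lt_or_ge (N e s) (r - N e (s + 1)) with hc | hc
      · obtain ⟨L, hL1, hL2, hL3⟩ := ih e (r - N e (s + 1) - N e s) (by omega)
        refine ⟨(e, s + 1) :: (e, s) :: L, ?_, ?_, ?_⟩
        · intro p hp
          simp only [List.mem_cons] at hp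
          rcases hp with rfl | rfl | hp
          · exact hle
          · exact hle
          · exact (hL1 p hp).trans hle
        · simp only [List.map_cons, List.sum_cons]
          omega
        · simp only [List.map_cons, List.sum_cons]
          rw [pow_succ]
          omega
      · obtain ⟨L, hL1, hL2, hL3⟩ := ih e (r - N e (s + 1)) hc
        refine ⟨(e, s + 1) :: L, ?_, ?_, ?_⟩
        · intro p hp
          simp only [List.mem_cons] at hp
          rcases hp with rfl | hp
          · exact hle
          · exact (hL1 p hp).trans hle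
        · simp only [List.map_cons, List.sum_cons]
          omega
        · simp only [List.map_cons, List.sum_cons]
          rw [pow_succ]
          omega
    · have he : e = d := le_antisymm hle hge
      subst he
      refine ⟨[(e, s + 1)], by simp, ?_, ?_⟩
      · simp only [List.map_cons, List.map_nil, List.sum_cons, List.sum_nil]
        omega
      · simp only [List.map_cons, List.map_nil, List.sum_cons, List.sum_nil]
        rw [pow_succ]
        omega

end W_GP_DEC

open W_GP_DEC in
theorem GP_DEC (s d r : ℕ) (h : r ≤ N d s) : ∃ L : List (ℕ × ℕ), (∀ p ∈ L, p.1 ≤ d) ∧ (L.map (fun p => N p.1 p.2)).sum = r ∧ (L.map (fun p => 2 ^ p.2)).sum ≤ 3 * 2 ^ s := by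
  obtain ⟨L, h1, h2, h3⟩ := dec_aux s d r h
  exact ⟨L, h1, h2, by omega⟩


end Pool.Agent.H891GAP
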