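import Pool.Agent.H891GAP.Defs

set_option autoImplicit false

namespace Pool.Agent.H891GAP

namespace W_GP_TERN

theorem tern (n : ℕ) : ∀ f g : ℕ → ℤ, (∀ i, -1 ≤ f i ∧ f i ≤ 1) → (∀ i, -1 ≤ g i ∧ g i ≤ 1) →
    ∑ i ∈ Finset.range n, f i * 3 ^ i = ∑ i ∈ Finset.range n, g i * 3 ^ i → ∀ i < n, f i = g i := by
  induction n with
  | zero => intro f g _ _ _ i hi; omega
  | succ n ih =>
    intro f g hf hg h
    rw [Finset.sum_range_succ', Finset.sum_range_succ'] at h
    have e1 : ∀ f : ℕ → ℤ, ∑ k ∈ Finset.range n, f (k + 1) * 3 ^ (k + 1) =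
        3 * ∑ k ∈ Finset.range n, f (k + 1) * 3 ^ k := by
      intro f
      rw [Finset.mul_sum]
      apply Finset.sum_congr rfl
      intros
      ring
    rw [e1, e1] at h
    simp only [pow_zero, mul_one] at h
    have hf0 := hf 0
    have hg0 := hg 0
    have h0 : f 0 = g 0 := by omega
    have h1 : ∑ k ∈ Finset.range n, f (k + 1) * 3 ^ k = ∑ k ∈ Finset.range n, g (k + 1) * 3 ^ k := by
      omega
    have h2 := ih (fun i => f (i + 1)) (fun i => g (i + 1)) (fun i => hf _) (fun i => hg _) h1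
    intro i hi
    cases i with
    | zero => exact h0
    | succ i => exact h2 i (by omega)

theorem code_eq (S : Finset ℕ) (n : ℕ) (h : S ⊆ Finset.range n) :
    code S = ∑ i ∈ Finset.range n, (if i ∈ S then (1 : ℤ) else 0) * 3 ^ i := by
  have h1 : ∑ i ∈ S, ((if i ∈ S then (1 : ℤ) else 0) * 3 ^ i) =
      ∑ i ∈ Finset.range n, ((if i ∈ S then (1 : ℤ) else 0) * 3 ^ i) :=
    Finset.sum_subset h (fun i _ hi => by simp [hi])
  rw [← h1]
  exact Finset.sum_congr rfl (fun i hi => by simp [hi])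

end W_GP_TERN

open W_GP_TERN in
theorem GP_TERN {U V U' V' : Finset ℕ} (h : Disjoint U V) (h' : Disjoint U' V') (he : code U - code V = code U' - code V') : U = U' ∧ V = V' := by
  obtain ⟨n, hn⟩ : ∃ n, U ∪ V ∪ (U' ∪ V') ⊆ Finset.range n :=
    ⟨_, Finset.subset_range_sup_succ _⟩
  have hU : U ⊆ Finset.range n := fun i hi => hn (by simp [hi])
  have hV : V ⊆ Finset.range n := fun i hi => hn (by simp [hi])
  have hU' : U' ⊆ Finset.range n := fun i hi => hn (by simp [hi])
  have hV' : V' ⊆ Finset.range n := fun i hi => hn (by simp [hi])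
  rw [code_eq U n hU, code_eq V n hV, code_eq U' n hU', code_eq V' n hV', ← Finset.sum_sub_distrib,
    ← Finset.sum_sub_distrib] at he
  have key := tern n (fun i => (if i ∈ U then (1 : ℤ) else 0) - (if i ∈ V then (1 : ℤ) else 0))
    (fun i => (if i ∈ U' then (1 : ℤ) else 0) - (if i ∈ V' then (1 : ℤ) else 0))
    (fun i => by by_cases h1 : i ∈ U <;> by_cases h2 : i ∈ V <;> simp [h1, h2])
    (fun i => by by_cases h1 : i ∈ U' <;> by_cases h2 : i ∈ V' <;> simp [h1, h2])
    (by
      refine Eq.trans ?_ (Eq.trans he ?_)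
      · exact Finset.sum_congr rfl (fun i _ => by ring)
      · exact Finset.sum_congr rfl (fun i _ => by ring))
  have hd : ∀ i, i ∈ U → i ∉ V := fun i h1 h2 => Finset.disjoint_left.mp h h1 h2
  have hd' : ∀ i, i ∈ U' → i ∉ V' := fun i h1 h2 => Finset.disjoint_left.mp h' h1 h2
  have all : ∀ i, (i ∈ U ↔ i ∈ U') ∧ (i ∈ V ↔ i ∈ V') := by
    intro i
    by_cases hi : i < n
    · have k := key i hi
      have d1 := hd i
      have d2 := hd' i
      by_cases h1 : i ∈ U <;> by_cases h2 : i ∈ V <;> by_cases h3 : i ∈ U' <;> by_cases h4 : i ∈ V' <;>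
        simp_all
    · have n1 : i ∉ U := fun hh => hi (Finset.mem_range.mp (hU hh))
      have n2 : i ∉ V := fun hh => hi (Finset.mem_range.mp (hV hh))
      have n3 : i ∉ U' := fun hh => hi (Finset.mem_range.mp (hU' hh))
      have n4 : i ∉ V' := fun hh => hi (Finset.mem_range.mp (hV' hh))
      simp [n1, n2, n3, n4]
  exact ⟨Finset.ext fun i => (all i).1, Finset.ext fun i => (all i).2⟩


end Pool.Agent.H891GAP
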