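import Pool.Agent.H891GAP.Defs
import Pool.Agent.H891GAP.GP_TERN

set_option autoImplicit false

namespace Pool.Agent.H891GAP

namespace W_GP_FREQ

theorem digits_zero (n : ℕ) : ∀ c : ℕ → ℤ, (∀ i, |c i| ≤ 2) →
    ∑ i ∈ Finset.range n, c i * (3 : ℤ) ^ i = 0 → ∀ i < n, c i = 0 := by
  induction n with
  | zero => intro c _ _ i hi; omega
  | succ n ih =>
    intro c hc h
    rw [Finset.sum_range_succ'] at h
    have h1 : ∑ i ∈ Finset.range n, c (i + 1) * (3 : ℤ) ^ (i + 1) =
        3 * ∑ i ∈ Finset.range n, c (i + 1) * (3 : ℤ) ^ i := by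
      rw [Finset.mul_sum]
      refine Finset.sum_congr rfl fun i _ => ?_
      rw [pow_succ]
      ring
    rw [h1, pow_zero, mul_one] at h
    have h2 := abs_le.1 (hc 0)
    have h3 : c 0 = 0 := by omega
    have h4 : ∑ i ∈ Finset.range n, c (i + 1) * (3 : ℤ) ^ i = 0 := by omega
    have h5 := ih (fun i => c (i + 1)) (fun i => hc (i + 1)) h4
    intro i hi
    rcases i with _ | i
    · exact h3
    · exact h5 i (by omega)

theorem code_eq (S : Finset ℕ) (n : ℕ) (h : S ⊆ Finset.range n) :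
    code S = ∑ i ∈ Finset.range n, (if i ∈ S then (1 : ℤ) else 0) * (3 : ℤ) ^ i := by
  unfold code
  simp only [ite_mul, one_mul, zero_mul]
  rw [← Finset.sum_filter]
  congr 1
  ext i
  simp only [Finset.mem_filter]
  constructor
  · intro hi
    exact ⟨h hi, hi⟩
  · intro hi
    exact hi.2

theorem tern (U V U' V' : Finset ℕ) (h : Disjoint U V) (h' : Disjoint U' V')
    (e : code U - code V = code U' - code V') : U = U' ∧ V = V' := by
  obtain ⟨n, hn⟩ : ∃ n, U ∪ V ∪ U' ∪ V' ⊆ Finset.range n := by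
    obtain ⟨n, hn⟩ := (U ∪ V ∪ U' ∪ V').exists_nat_subset_range
    exact ⟨n, hn⟩
  have hU : U ⊆ Finset.range n := fun x hx => hn (by simp [hx])
  have hV : V ⊆ Finset.range n := fun x hx => hn (by simp [hx])
  have hU' : U' ⊆ Finset.range n := fun x hx => hn (by simp [hx])
  have hV' : V' ⊆ Finset.range n := fun x hx => hn (by simp [hx])
  rw [code_eq U n hU, code_eq V n hV, code_eq U' n hU', code_eq V' n hV'] at e
  have hsum : ∑ i ∈ Finset.range n, (((if i ∈ U then (1 : ℤ) else 0) - (if i ∈ V then (1 : ℤ) else 0))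
      - ((if i ∈ U' then (1 : ℤ) else 0) - (if i ∈ V' then (1 : ℤ) else 0))) * (3 : ℤ) ^ i = 0 := by
    simp only [sub_mul, Finset.sum_sub_distrib]
    linarith
  have hz := digits_zero n _ (fun i => by
    rw [abs_le]
    constructor <;> split_ifs <;> norm_num) hsum
  have key : ∀ i, (i ∈ U ↔ i ∈ U') ∧ (i ∈ V ↔ i ∈ V') := by
    intro i
    by_cases hi : i < n
    · have h1 := hz i hi
      have d1 : ¬ (i ∈ U ∧ i ∈ V) := fun hh => (Finset.disjoint_left.1 h) hh.1 hh.2
      have d2 : ¬ (i ∈ U' ∧ i ∈ V') := fun hh => (Finset.disjoint_left.1 h') hh.1 hh.2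
      by_cases a1 : i ∈ U <;> by_cases a2 : i ∈ V <;> by_cases a3 : i ∈ U' <;>
        by_cases a4 : i ∈ V' <;> simp_all
    · have e1 : i ∉ U := fun hh => hi (Finset.mem_range.1 (hU hh))
      have e2 : i ∉ V := fun hh => hi (Finset.mem_range.1 (hV hh))
      have e3 : i ∉ U' := fun hh => hi (Finset.mem_range.1 (hU' hh))
      have e4 : i ∉ V' := fun hh => hi (Finset.mem_range.1 (hV' hh))
      simp [e1, e2, e3, e4]
  exact ⟨Finset.ext fun i => (key i).1, Finset.ext fun i => (key i).2⟩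

theorem code_sub (S R : Finset ℕ) : code S - code R = code (S \ R) - code (R \ S) := by
  unfold code
  exact (Finset.sum_sdiff_sub_sum_sdiff).symm

theorem code_inj : Function.Injective code := by
  intro S R h
  have h1 := tern S ∅ R ∅ (Finset.disjoint_empty_right _) (Finset.disjoint_empty_right _) (by rw [h])
  exact h1.1

theorem pt_inj : Function.Injective pt := by
  intro S R h
  have h1 : (pt S) 0 = (pt R) 0 := by rw [h]
  have h2 : (code S : ℝ) = code R := by simpa [pt] using h1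
  exact code_inj (by exact_mod_cast h2)

theorem pt_dist (S R : Finset ℕ) : dist (pt S) (pt R) = |(code S : ℝ) - code R| := by
  rw [EuclideanSpace.dist_eq, Fin.sum_univ_two]
  simp only [pt, Real.dist_eq]
  simp [Real.sqrt_sq_eq_abs]

theorem pt_dist' (S R : Finset ℕ) :
    dist (pt S) (pt R) = |(code (S \ R) : ℝ) - code (R \ S)| := by
  rw [pt_dist]
  have := code_sub S R
  have h : (code S : ℝ) - code R = (code (S \ R) : ℝ) - code (R \ S) := by exact_mod_cast this
  rw [h]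

theorem dist_iff (S R U V : Finset ℕ) (hUV : Disjoint U V) :
    dist (pt S) (pt R) = |(code U : ℝ) - code V| ↔
      (S \ R = U ∧ R \ S = V) ∨ (S \ R = V ∧ R \ S = U) := by
  rw [pt_dist']
  have hd : Disjoint (S \ R) (R \ S) := by
    rw [Finset.disjoint_left]
    intro x hx hy
    exact (Finset.mem_sdiff.1 hx).2 (Finset.mem_sdiff.1 hy).1
  constructor
  · intro h
    rcases abs_eq_abs.1 h with h1 | h1
    · left
      exact tern _ _ _ _ hd hUV (by exact_mod_cast h1)
    · right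
      rw [neg_sub] at h1
      exact tern _ _ _ _ hd hUV.symm (by exact_mod_cast h1)
  · rintro (⟨h1, h2⟩ | ⟨h1, h2⟩)
    · rw [h1, h2]
    · rw [h1, h2, abs_sub_comm]

theorem mult_swap (A : Finset (Finset ℕ)) (U V : Finset ℕ) : mult A V U = mult A U V := by
  unfold mult
  refine Finset.card_bij (fun p _ => (p.2, p.1)) ?_ ?_ ?_
  · rintro ⟨a, b⟩ h
    simp only [Finset.mem_filter, Finset.mem_product] at h ⊢
    exact ⟨⟨h.1.2, h.1.1⟩, h.2.2, h.2.1⟩
  · rintro ⟨a, b⟩ _ ⟨c, d⟩ _ h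
    simp only [Prod.mk.injEq] at h ⊢
    exact ⟨h.2, h.1⟩
  · rintro ⟨a, b⟩ h
    simp only [Finset.mem_filter, Finset.mem_product] at h
    refine ⟨(b, a), ?_, rfl⟩
    simp only [Finset.mem_filter, Finset.mem_product]
    exact ⟨⟨h.1.2, h.1.1⟩, h.2.2, h.2.1⟩

theorem mem_pts (A : Finset (Finset ℕ)) (x : Pt) : x ∈ pts A ↔ ∃ S ∈ A, pt S = x := by
  unfold pts
  exact Finset.mem_image

theorem mem_types (A : Finset (Finset ℕ)) (q : Finset ℕ × Finset ℕ) :
    q ∈ types A ↔ ∃ S ∈ A, ∃ R ∈ A, S ≠ R ∧ S \ R = q.1 ∧ R \ S = q.2 := by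
  unfold types
  rw [Finset.mem_image]
  constructor
  · rintro ⟨⟨S, R⟩, h, rfl⟩
    simp only [Finset.mem_filter, Finset.mem_product] at h
    exact ⟨S, h.1.1, R, h.1.2, h.2, rfl, rfl⟩
  · rintro ⟨S, hS, R, hR, hne, h1, h2⟩
    refine ⟨(S, R), ?_, ?_⟩
    · simp only [Finset.mem_filter, Finset.mem_product]
      exact ⟨⟨hS, hR⟩, hne⟩
    · exact Prod.ext h1 h2

theorem sdiff_disj (S R : Finset ℕ) : Disjoint (S \ R) (R \ S) := by
  rw [Finset.disjoint_left]
  intro x hx hy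
  exact (Finset.mem_sdiff.1 hx).2 (Finset.mem_sdiff.1 hy).1

theorem sdiff_ne (S R : Finset ℕ) (h : S ≠ R) : S \ R ≠ R \ S := by
  intro he
  have hd := sdiff_disj S R
  rw [← he, disjoint_self] at hd
  have h1 : S \ R = ∅ := hd
  have h2 : R \ S = ∅ := by rw [← he]; exact h1
  exact h (Finset.Subset.antisymm (Finset.sdiff_eq_empty_iff_subset.1 h1)
    (Finset.sdiff_eq_empty_iff_subset.1 h2))

theorem freq_eq (A : Finset (Finset ℕ)) (S R : Finset ℕ) (hne : S ≠ R) :
    freq (pts A) |(code (S \ R) : ℝ) - code (R \ S)| = mult A (S \ R) (R \ S) := by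
  classical
  have hd := sdiff_disj S R
  have hn := sdiff_ne S R hne
  generalize S \ R = U at hd hn ⊢
  generalize R \ S = V at hd hn ⊢
  unfold freq
  have h1 : ((A ×ˢ A).filter (fun p => (p.1 \ p.2 = U ∧ p.2 \ p.1 = V) ∨
      (p.1 \ p.2 = V ∧ p.2 \ p.1 = U))).card = 2 * mult A U V := by
    rw [Finset.filter_or, Finset.card_union_of_disjoint]
    · have h2 : ((A ×ˢ A).filter (fun p => p.1 \ p.2 = V ∧ p.2 \ p.1 = U)).card =
          mult A V U := rfl
      have h3 : ((A ×ˢ A).filter (fun p => p.1 \ p.2 = U ∧ p.2 \ p.1 = V)).card =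
          mult A U V := rfl
      rw [h2, h3, mult_swap]
      ring
    · rw [Finset.disjoint_left]
      intro p hp hq
      rw [Finset.mem_filter] at hp hq
      exact hn (hp.2.1.symm.trans hq.2.1)
  have h2 : ((A ×ˢ A).filter (fun p => (p.1 \ p.2 = U ∧ p.2 \ p.1 = V) ∨
      (p.1 \ p.2 = V ∧ p.2 \ p.1 = U))).card =
      (((pts A) ×ˢ (pts A)).filter (fun p => p.1 ≠ p.2 ∧
        dist p.1 p.2 = |(code U : ℝ) - code V|)).card := by
    refine Finset.card_bij (fun p _ => (pt p.1, pt p.2)) ?_ ?_ ?_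
    · rintro ⟨a, b⟩ h
      simp only [Finset.mem_filter, Finset.mem_product] at h ⊢
      refine ⟨⟨(mem_pts A _).2 ⟨a, h.1.1, rfl⟩, (mem_pts A _).2 ⟨b, h.1.2, rfl⟩⟩, ?_,
        (dist_iff a b U V hd).2 h.2⟩
      intro hab
      have hab' := pt_inj hab
      subst hab'
      rcases h.2 with h3 | h3
      · exact hn (h3.1.symm.trans h3.2)
      · exact hn (h3.2.symm.trans h3.1)
    · rintro ⟨a, b⟩ _ ⟨c, d⟩ _ h
      simp only [Prod.mk.injEq] at h ⊢
      exact ⟨pt_inj h.1, pt_inj h.2⟩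
    · rintro ⟨x, y⟩ h
      simp only [Finset.mem_filter, Finset.mem_product] at h
      obtain ⟨⟨hx, hy⟩, _, hdist⟩ := h
      obtain ⟨a, ha, rfl⟩ := (mem_pts A x).1 hx
      obtain ⟨b, hb, rfl⟩ := (mem_pts A y).1 hy
      refine ⟨(a, b), ?_, rfl⟩
      simp only [Finset.mem_filter, Finset.mem_product]
      exact ⟨⟨ha, hb⟩, (dist_iff a b U V hd).1 hdist⟩
  have h3 : (((pts A) ×ˢ (pts A)).filter (fun p => p.1 ≠ p.2 ∧
        dist p.1 p.2 = |(code U : ℝ) - code V|)).card = 2 * mult A U V := by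
    rw [← h2, h1]
  have h4 : ∀ inst : DecidablePred (fun p : Pt × Pt => p.1 ≠ p.2 ∧
        dist p.1 p.2 = |(code U : ℝ) - code V|),
      (@Finset.filter _ (fun p : Pt × Pt => p.1 ≠ p.2 ∧
        dist p.1 p.2 = |(code U : ℝ) - code V|) inst ((pts A) ×ˢ (pts A))).card =
        2 * mult A U V := by
    intro inst
    rw [← h3]
    congr!
  rw [h4]
  omega

end W_GP_FREQ

open W_GP_FREQ in
theorem GP_FREQ (A : Finset (Finset ℕ)) : (pts A).card = A.card ∧ (∀ d, d ∈ dists (pts A) ↔ ∃ q ∈ types A, d = |(code q.1 : ℝ) - code q.2|) ∧ (∀ q ∈ types A, freq (pts A) |(code q.1 : ℝ) - code q.2| = mult A q.1 q.2) := by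
  classical
  refine ⟨?_, ?_, ?_⟩
  · unfold pts
    exact Finset.card_image_of_injective A pt_inj
  · intro d
    unfold dists
    rw [Finset.mem_image]
    constructor
    · rintro ⟨⟨x, y⟩, h, rfl⟩
      simp only [Finset.mem_filter, Finset.mem_product] at h
      obtain ⟨⟨hx, hy⟩, hne⟩ := h
      obtain ⟨a, ha, rfl⟩ := (mem_pts A x).1 hx
      obtain ⟨b, hb, rfl⟩ := (mem_pts A y).1 hy
      refine ⟨(a \ b, b \ a), (mem_types A _).2 ⟨a, ha, b, hb, ?_, rfl, rfl⟩, pt_dist' a b⟩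
      rintro rfl
      exact hne rfl
    · rintro ⟨⟨U, V⟩, hq, rfl⟩
      obtain ⟨a, ha, b, hb, hne, h1, h2⟩ := (mem_types A _).1 hq
      simp only at h1 h2
      refine ⟨(pt a, pt b), ?_, ?_⟩
      · simp only [Finset.mem_filter, Finset.mem_product]
        exact ⟨⟨(mem_pts A _).2 ⟨a, ha, rfl⟩, (mem_pts A _).2 ⟨b, hb, rfl⟩⟩,
          fun h => hne (pt_inj h)⟩
      · rw [← h1, ← h2]
        exact pt_dist' a b
  · rintro ⟨U, V⟩ hq
    obtain ⟨a, ha, b, hb, hne, h1, h2⟩ := (mem_types A _).1 hq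
    simp only at h1 h2
    rw [← h1, ← h2]
    exact freq_eq A a b hne


end Pool.Agent.H891GAP
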