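import Pool.Agent.H891GAP.Defs

set_option autoImplicit false

namespace Pool.Agent.H891GAP

namespace W_GP_SORT

theorem list_aux (T : ℕ) (hT : 0 < T) : ∀ (l : List ℕ) (r : ℕ), l.Pairwise (· ≥ ·) →
    l.countP (fun x => decide (T ≤ x)) = r →
    (∀ i, i < r → T ≤ l.getD i 0) ∧ (∀ i, r ≤ i → l.getD i 0 < T) := by
  intro l
  induction l with
  | nil =>
    intro r _ hr
    simp only [List.countP_nil] at hr
    refine ⟨fun i hi => by omega, fun i _ => by simpa using hT⟩
  | cons x l ih =>
    intro r hl hr
    rw [List.pairwise_cons] at hl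
    by_cases hx : T ≤ x
    · rw [List.countP_cons_of_pos (by simpa using hx)] at hr
      obtain ⟨g1, g2⟩ := ih (l.countP (fun x => decide (T ≤ x))) hl.2 rfl
      refine ⟨?_, ?_⟩
      · intro i hi
        cases i with
        | zero => simpa using hx
        | succ i =>
          have := g1 i (by omega)
          simpa using this
      · intro i hi
        cases i with
        | zero => omega
        | succ i =>
          have := g2 i (by omega)
          simpa using this
    · have h0 : l.countP (fun x => decide (T ≤ x)) = 0 := by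
        rw [List.countP_eq_zero]
        intro y hy
        have := hl.1 y hy
        simp only [decide_eq_true_eq]
        omega
      rw [List.countP_cons_of_neg (by simpa using hx), h0] at hr
      obtain ⟨g1, g2⟩ := ih 0 hl.2 h0
      refine ⟨fun i hi => by omega, ?_⟩
      intro i hi
      cases i with
      | zero => simp; omega
      | succ i =>
        have := g2 i (by omega)
        simpa using this

end W_GP_SORT

open W_GP_SORT in
theorem GP_SORT (P : Finset Pt) (T b r : ℕ) (hr : 1 ≤ r) (hb : b < T) (h1 : ((dists P).filter (fun d => T ≤ freq P d)).card = r) (h2 : ∀ d ∈ dists P, T ≤ freq P d ∨ freq P d ≤ b) : T ≤ F P r ∧ F P (r + 1) ≤ b := by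
  classical
  have hs : (freqs P).Pairwise (· ≥ ·) := by
    unfold freqs
    exact Multiset.pairwise_sort _ _
  have he : ((freqs P : List ℕ) : Multiset ℕ) = (dists P).val.map (freq P) := by
    unfold freqs
    exact Multiset.sort_eq _ _
  have hc : (freqs P).countP (fun x => decide (T ≤ x)) = r := by
    have e1 : (freqs P).countP (fun x => decide (T ≤ x)) =
        Multiset.countP (fun x => T ≤ x) ((freqs P : List ℕ) : Multiset ℕ) := by
      rw [Multiset.coe_countP]
    rw [e1, he, Multiset.countP_map, ← h1]
    rfl
  obtain ⟨g1, g2⟩ := list_aux T (by omega) (freqs P) r hs hc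
  refine ⟨g1 (r - 1) (by omega), ?_⟩
  have g3 := g2 r le_rfl
  show (freqs P).getD (r + 1 - 1) 0 ≤ b
  rw [Nat.add_sub_cancel]
  by_cases hlen : r < (freqs P).length
  · rw [List.getD_eq_getElem _ _ hlen] at g3 ⊢
    have hmem : (freqs P)[r] ∈ ((freqs P : List ℕ) : Multiset ℕ) := by
      rw [Multiset.mem_coe]
      exact List.getElem_mem hlen
    rw [he, Multiset.mem_map] at hmem
    obtain ⟨d, hd, hdf⟩ := hmem
    rw [← hdf] at g3 ⊢
    rcases h2 d hd with h | h
    · omega
    · exact h
  · rw [List.getD_eq_default _ _ (by omega)]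
    omega


end Pool.Agent.H891GAP
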