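import Pool.Agent.H891GAP.Defs
import Pool.Agent.H891GAP.GP_FREQ
import Pool.Agent.H891GAP.GP_SORT
import Pool.Agent.H891GAP.GP_TERN

set_option autoImplicit false

namespace Pool.Agent.H891GAP

namespace W_GP_GAP

theorem tdisj (A : Finset (Finset ℕ)) (q : Finset ℕ × Finset ℕ) (hq : q ∈ types A) :
    Disjoint q.1 q.2 := by
  unfold types at hq
  rw [Finset.mem_image] at hq
  obtain ⟨p, hp, rfl⟩ := hq
  exact disjoint_sdiff_sdiff

theorem tne (A : Finset (Finset ℕ)) (q : Finset ℕ × Finset ℕ) (hq : q ∈ types A) :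
    q ≠ q.swap := by
  intro h
  have hd := tdisj A q hq
  unfold types at hq
  rw [Finset.mem_image] at hq
  obtain ⟨p, hp, rfl⟩ := hq
  rw [Finset.mem_filter] at hp
  have h1 : p.1 \ p.2 = p.2 \ p.1 := congrArg Prod.fst h
  simp only at hd
  rw [← h1, disjoint_self, Finset.bot_eq_empty] at hd
  apply hp.2
  apply Finset.Subset.antisymm
  · exact Finset.sdiff_eq_empty_iff_subset.1 hd
  · rw [h1] at hd
    exact Finset.sdiff_eq_empty_iff_subset.1 hd

theorem tswap (A : Finset (Finset ℕ)) (q : Finset ℕ × Finset ℕ) (hq : q ∈ types A) :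
    q.swap ∈ types A := by
  unfold types at hq ⊢
  rw [Finset.mem_image] at hq ⊢
  obtain ⟨p, hp, rfl⟩ := hq
  rw [Finset.mem_filter, Finset.mem_product] at hp
  refine ⟨p.swap, ?_, rfl⟩
  rw [Finset.mem_filter, Finset.mem_product]
  exact ⟨⟨hp.1.2, hp.1.1⟩, fun h => hp.2 h.symm⟩

theorem mswap (A : Finset (Finset ℕ)) (U V : Finset ℕ) : mult A V U = mult A U V := by
  unfold mult
  refine Finset.card_bij (fun p _ => p.swap) ?_ ?_ ?_
  · intro p hp
    rw [Finset.mem_filter, Finset.mem_product] at hp ⊢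
    exact ⟨⟨hp.1.2, hp.1.1⟩, hp.2.2, hp.2.1⟩
  · intro p _ p' _ h
    exact Prod.swap_injective h
  · intro p hp
    rw [Finset.mem_filter, Finset.mem_product] at hp
    refine ⟨p.swap, ?_, Prod.swap_swap p⟩
    rw [Finset.mem_filter, Finset.mem_product]
    exact ⟨⟨hp.1.2, hp.1.1⟩, hp.2.2, hp.2.1⟩

theorem cnt (A : Finset (Finset ℕ)) (T r : ℕ) (g : Good A T r) :
    ((dists (pts A)).filter (fun d => T ≤ freq (pts A) d)).card = r := by
  obtain ⟨f1, f2, f3⟩ := GP_FREQ A
  obtain ⟨φ, hφ⟩ : ∃ φ : Finset ℕ × Finset ℕ → ℝ, φ = fun q => |(code q.1 : ℝ) - code q.2| :=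
    ⟨_, rfl⟩
  obtain ⟨Pop, hPop⟩ : ∃ Pop, Pop = (types A).filter (fun q => T ≤ mult A q.1 q.2) := ⟨_, rfl⟩
  have himg : (dists (pts A)).filter (fun d => T ≤ freq (pts A) d) = Pop.image φ := by
    ext d
    rw [Finset.mem_filter, Finset.mem_image]
    constructor
    · rintro ⟨hd, hT⟩
      obtain ⟨q, hq, rfl⟩ := (f2 d).1 hd
      rw [f3 q hq] at hT
      refine ⟨q, ?_, ?_⟩
      · rw [hPop, Finset.mem_filter]
        exact ⟨hq, hT⟩
      · rw [hφ]
    · rintro ⟨q, hq, rfl⟩
      rw [hPop, Finset.mem_filter] at hq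
      have e : φ q = |(code q.1 : ℝ) - code q.2| := by rw [hφ]
      rw [e, f3 q hq.1]
      exact ⟨(f2 _).2 ⟨q, hq.1, rfl⟩, hq.2⟩
  have hfib : ∀ d ∈ Pop.image φ, (Pop.filter (fun q => φ q = d)).card = 2 := by
    intro d hd
    rw [Finset.mem_image] at hd
    obtain ⟨q, hq, rfl⟩ := hd
    have hq' := hq
    rw [hPop, Finset.mem_filter] at hq'
    have e : Pop.filter (fun q' => φ q' = φ q) = {q, q.swap} := by
      ext q'
      rw [Finset.mem_filter, Finset.mem_insert, Finset.mem_singleton]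
      constructor
      · rintro ⟨hq1, h2⟩
        rw [hPop, Finset.mem_filter] at hq1
        rw [hφ] at h2
        simp only at h2
        rcases abs_eq_abs.1 h2 with h3 | h3
        · left
          have h4 : code q'.1 - code q'.2 = code q.1 - code q.2 := by exact_mod_cast h3
          obtain ⟨h5, h6⟩ := GP_TERN (tdisj A q' hq1.1) (tdisj A q hq'.1) h4
          exact Prod.ext h5 h6
        · right
          have h4 : code q'.1 - code q'.2 = -(code q.1 - code q.2) := by exact_mod_cast h3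
          have h4' : code q'.1 - code q'.2 = code q.2 - code q.1 := by rw [h4]; ring
          obtain ⟨h5, h6⟩ := GP_TERN (tdisj A q' hq1.1) (tdisj A q hq'.1).symm h4'
          exact Prod.ext h5 h6
      · rintro (rfl | rfl)
        · exact ⟨hq, rfl⟩
        · refine ⟨?_, ?_⟩
          · rw [hPop, Finset.mem_filter]
            refine ⟨tswap A q hq'.1, ?_⟩
            show T ≤ mult A q.2 q.1
            rw [mswap]
            exact hq'.2
          · rw [hφ]
            exact abs_sub_comm _ _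
    rw [e]
    exact Finset.card_pair (tne A q hq'.1)
  have h1 := Finset.card_eq_sum_card_image φ Pop
  rw [Finset.sum_congr rfl hfib, Finset.sum_const, smul_eq_mul] at h1
  rw [himg]
  have h2 : Pop.card = 2 * r := by rw [hPop]; exact g.1
  omega

end W_GP_GAP

open W_GP_GAP in
theorem GP_GAP (A : Finset (Finset ℕ)) (T r : ℕ) (hr : 1 ≤ r) (hT : 2 ≤ T) (g : Good A T r) : (pts A).card = A.card ∧ T ≤ F (pts A) r ∧ 2 * F (pts A) (r + 1) ≤ T := by
  obtain ⟨f1, f2, f3⟩ := GP_FREQ A
  refine ⟨f1, ?_⟩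
  have key := GP_SORT (pts A) T (T/2) r hr (by omega) (cnt A T r g) (by
    intro d hd
    obtain ⟨q, hq, rfl⟩ := (f2 d).1 hd
    rw [f3 q hq]
    rcases g.2 q hq with h | h
    · exact Or.inl h
    · right
      omega)
  exact ⟨key.1, by omega⟩


end Pool.Agent.H891GAP
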