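import Pool.Agent.H891GAP.Defs
import Pool.Agent.H891GAP.GP_UNION

set_option autoImplicit false

namespace Pool.Agent.H891GAP

namespace W_GP_SING

theorem mem_types {A : Finset (Finset ℕ)} {q : Finset ℕ × Finset ℕ} :
    q ∈ types A ↔ ∃ S ∈ A, ∃ R ∈ A, S ≠ R ∧ (S \ R, R \ S) = q := by
  simp only [types, Finset.mem_image, Finset.mem_filter, Finset.mem_product]
  constructor
  · rintro ⟨⟨S, R⟩, ⟨⟨hS, hR⟩, hne⟩, h⟩
    exact ⟨S, hS, R, hR, hne, h⟩
  · rintro ⟨S, hS, R, hR, hne, h⟩
    exact ⟨(S, R), ⟨⟨hS, hR⟩, hne⟩, h⟩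

theorem mult_old (A : Finset (Finset ℕ)) (x : ℕ) (hx : ∀ S ∈ A, x ∉ S) (U V : Finset ℕ)
    (hxU : x ∉ U) (hxV : x ∉ V) (hUV : ¬ (U = ∅ ∧ V = ∅)) :
    mult (insert {x} A) U V = mult A U V := by
  unfold mult
  congr 1
  ext ⟨P, R⟩
  simp only [Finset.mem_filter, Finset.mem_product, Finset.mem_insert]
  constructor
  · rintro ⟨⟨hP, hR⟩, h1, h2⟩
    have hxP : x ∉ P := by
      intro hxP
      by_cases hxR : x ∈ R
      · have e1 : P = {x} := by
          rcases hP with h | h
          · exact h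
          · exact absurd hxP (hx P h)
        have e2 : R = {x} := by
          rcases hR with h | h
          · exact h
          · exact absurd hxR (hx R h)
        apply hUV
        rw [e1, e2] at h1 h2
        rw [Finset.sdiff_self] at h1 h2
        exact ⟨h1.symm, h2.symm⟩
      · apply hxU
        rw [← h1]
        exact Finset.mem_sdiff.2 ⟨hxP, hxR⟩
    have hxR : x ∉ R := by
      intro hxR
      apply hxV
      rw [← h2]
      exact Finset.mem_sdiff.2 ⟨hxR, hxP⟩
    refine ⟨⟨?_, ?_⟩, h1, h2⟩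
    · rcases hP with h | h
      · exact absurd (by rw [h]; exact Finset.mem_singleton_self x) hxP
      · exact h
    · rcases hR with h | h
      · exact absurd (by rw [h]; exact Finset.mem_singleton_self x) hxR
      · exact h
  · rintro ⟨⟨hP, hR⟩, h⟩
    exact ⟨⟨Or.inr hP, Or.inr hR⟩, h⟩

theorem mult_new1 (A : Finset (Finset ℕ)) (x : ℕ) (hx : ∀ S ∈ A, x ∉ S) (S : Finset ℕ) :
    mult (insert {x} A) {x} S ≤ 1 := by
  unfold mult
  have key : ∀ p ∈ (((insert {x} A) ×ˢ (insert {x} A)).filter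
      (fun p : Finset ℕ × Finset ℕ => p.1 \ p.2 = {x} ∧ p.2 \ p.1 = S)), p = ({x}, S) := by
    rintro ⟨P, R⟩ h
    simp only [Finset.mem_filter, Finset.mem_product, Finset.mem_insert] at h
    obtain ⟨⟨hP, hR⟩, h1, h2⟩ := h
    have hm : x ∈ P \ R := by rw [h1]; exact Finset.mem_singleton_self x
    obtain ⟨hxP, hxR⟩ := Finset.mem_sdiff.1 hm
    have hPx : P = {x} := by
      rcases hP with h | h
      · exact h
      · exact absurd hxP (hx P h)
    rw [hPx, Finset.sdiff_singleton_eq_erase, Finset.erase_eq_of_notMem hxR] at h2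
    rw [hPx, h2]
  rw [Finset.card_le_one]
  intro p hp q hq
  rw [key p hp, key q hq]

theorem mult_new2 (A : Finset (Finset ℕ)) (x : ℕ) (hx : ∀ S ∈ A, x ∉ S) (S : Finset ℕ) :
    mult (insert {x} A) S {x} ≤ 1 := by
  unfold mult
  have key : ∀ p ∈ (((insert {x} A) ×ˢ (insert {x} A)).filter
      (fun p : Finset ℕ × Finset ℕ => p.1 \ p.2 = S ∧ p.2 \ p.1 = {x})), p = (S, {x}) := by
    rintro ⟨P, R⟩ h
    simp only [Finset.mem_filter, Finset.mem_product, Finset.mem_insert] at h
    obtain ⟨⟨hP, hR⟩, h1, h2⟩ := h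
    have hm : x ∈ R \ P := by rw [h2]; exact Finset.mem_singleton_self x
    obtain ⟨hxR, hxP⟩ := Finset.mem_sdiff.1 hm
    have hRx : R = {x} := by
      rcases hR with h | h
      · exact h
      · exact absurd hxR (hx R h)
    rw [hRx, Finset.sdiff_singleton_eq_erase, Finset.erase_eq_of_notMem hxP] at h1
    rw [hRx, h1]
  rw [Finset.card_le_one]
  intro p hp q hq
  rw [key p hp, key q hq]

theorem sdiff_sing {x : ℕ} {S : Finset ℕ} (h : x ∉ S) : ({x} : Finset ℕ) \ S = {x} := by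
  ext y
  simp only [Finset.mem_sdiff, Finset.mem_singleton]
  constructor
  · exact fun h => h.1
  · rintro rfl
    exact ⟨rfl, h⟩

theorem sdiff_sing' {x : ℕ} {S : Finset ℕ} (h : x ∉ S) : S \ ({x} : Finset ℕ) = S := by
  rw [Finset.sdiff_singleton_eq_erase, Finset.erase_eq_of_notMem h]

theorem step (A : Finset (Finset ℕ)) (T r : ℕ) (hA : ∀ S ∈ A, S.Nonempty) (g : Good A T r)
    (hT : 2 ≤ T) : ∃ B : Finset (Finset ℕ), B.card = A.card + 1 ∧ Good B T r ∧
      ∀ S ∈ B, S.Nonempty := by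
  obtain ⟨x, hx⟩ := Infinite.exists_notMem_finset (A.biUnion id)
  have hx' : ∀ S ∈ A, x ∉ S := fun S hS h => hx (Finset.mem_biUnion.2 ⟨S, hS, h⟩)
  have hxA : ({x} : Finset ℕ) ∉ A := fun h => hx' _ h (Finset.mem_singleton_self x)
  have hold : ∀ q ∈ types A, mult (insert {x} A) q.1 q.2 = mult A q.1 q.2 := by
    intro q hq
    obtain ⟨S, hS, R, hR, hne, rfl⟩ := mem_types.1 hq
    apply mult_old A x hx'
    · intro h; exact hx' S hS (Finset.mem_sdiff.1 h).1
    · intro h; exact hx' R hR (Finset.mem_sdiff.1 h).1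
    · rintro ⟨h1, h2⟩
      apply hne
      simp only at h1 h2
      exact Finset.Subset.antisymm (Finset.sdiff_eq_empty_iff_subset.1 h1)
        (Finset.sdiff_eq_empty_iff_subset.1 h2)
  have hsub : ∀ q ∈ types A, q ∈ types (insert {x} A) := by
    intro q hq
    obtain ⟨S, hS, R, hR, hne, rfl⟩ := mem_types.1 hq
    exact mem_types.2 ⟨S, Finset.mem_insert_of_mem hS, R, Finset.mem_insert_of_mem hR, hne, rfl⟩
  have hnew : ∀ q ∈ types (insert {x} A), q ∈ types A ∨ mult (insert {x} A) q.1 q.2 ≤ 1 := by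
    intro q hq
    obtain ⟨S, hS, R, hR, hne, rfl⟩ := mem_types.1 hq
    rw [Finset.mem_insert] at hS hR
    rcases hS with rfl | hS
    · rcases hR with rfl | hR
      · exact absurd rfl hne
      · right
        simp only
        rw [sdiff_sing (hx' R hR)]
        exact mult_new1 A x hx' _
    · rcases hR with rfl | hR
      · right
        simp only
        rw [sdiff_sing (hx' S hS)]
        exact mult_new2 A x hx' _
      · left
        exact mem_types.2 ⟨S, hS, R, hR, hne, rfl⟩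
  refine ⟨insert {x} A, Finset.card_insert_of_notMem hxA, ⟨?_, ?_⟩, ?_⟩
  · rw [← g.1]
    congr 1
    ext q
    rw [Finset.mem_filter, Finset.mem_filter]
    constructor
    · rintro ⟨h1, h2⟩
      rcases hnew q h1 with h | h
      · exact ⟨h, by rw [← hold q h]; exact h2⟩
      · omega
    · rintro ⟨h1, h2⟩
      exact ⟨hsub q h1, by rw [hold q h1]; exact h2⟩
  · intro q hq
    rcases hnew q hq with h | h
    · rw [hold q h]; exact g.2 q h
    · right; omega
  · intro S hS
    rw [Finset.mem_insert] at hS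
    rcases hS with rfl | hS
    · exact Finset.singleton_nonempty x
    · exact hA S hS

theorem many (A : Finset (Finset ℕ)) (T r : ℕ) (hA : ∀ S ∈ A, S.Nonempty) (g : Good A T r)
    (hT : 2 ≤ T) (k : ℕ) : ∃ B : Finset (Finset ℕ), B.card = A.card + k ∧ Good B T r ∧
      ∀ S ∈ B, S.Nonempty := by
  induction k with
  | zero => exact ⟨A, rfl, g, hA⟩
  | succ k ih =>
    obtain ⟨B, h1, h2, h3⟩ := ih
    obtain ⟨C, h4, h5, h6⟩ := step B T r h3 h2 hT
    exact ⟨C, by omega, h5, h6⟩

end W_GP_SING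

open W_GP_SING in
theorem GP_SING (A : Finset (Finset ℕ)) (T r n : ℕ) (hA : ∀ S ∈ A, S.Nonempty) (g : Good A T r) (hT : 2 ≤ T) (hn : A.card ≤ n) : ∃ B : Finset (Finset ℕ), B.card = n ∧ Good B T r := by
  obtain ⟨B, h1, h2, _⟩ := many A T r hA g hT (n - A.card)
  exact ⟨B, by omega, h2⟩


end Pool.Agent.H891GAP
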