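import Pool.Agent.H891GAP.Defs
import Pool.Agent.H891GAP.GP_GAP
import Pool.Agent.H891GAP.GP_SING
import Pool.Agent.H891GAP.GP_BUILD
import Pool.Agent.H891GAP.GP_DEC

set_option autoImplicit false

namespace Pool.Agent.H891GAP

theorem GP_GEN (n d s r : ℕ) (hr : 1 ≤ r) (hN : r ≤ N d s) (hn : 2 ^ (d + 1) * (3 * 2 ^ s) ≤ n) : ∃ P : Finset Pt, P.card = n ∧ 2 ^ (d + 1) ≤ F P r ∧ F P (r + 1) ≤ 2 ^ d := by
  obtain ⟨L, hL1, hL2, hL3⟩ := GP_DEC s d r hN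
  obtain ⟨A, hA1, hA2, hA3⟩ := GP_BUILD d L hL1
  rw [hL2] at hA2
  have hcard : A.card ≤ n := by
    rw [hA3]
    exact le_trans (Nat.mul_le_mul_left _ hL3) hn
  have hT : 2 ≤ 2 ^ (d + 1) := by
    have := Nat.one_le_two_pow (n := d)
    rw [pow_succ]
    omega
  obtain ⟨B, hB1, hB2⟩ := GP_SING A (2 ^ (d + 1)) r n hA1 hA2 hT hcard
  obtain ⟨g1, g2, g3⟩ := GP_GAP B (2 ^ (d + 1)) r hr hT hB2
  refine ⟨pts B, g1.trans hB1, g2, ?_⟩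
  rw [pow_succ] at g3
  omega

end Pool.Agent.H891GAP
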