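import Pool.Agent.H891GAP.Defs
import Pool.Agent.H891GAP.GP_GAP
import Pool.Agent.H891GAP.GP_SING
import Pool.Agent.H891GAP.GP_BUILD
import Pool.Agent.H891GAP.GP_DEC
import Pool.Agent.H891GAP.GP_ASYM

set_option autoImplicit false

namespace Pool.Agent.H891GAP

namespace W_GP_MAIN

end W_GP_MAIN

open W_GP_MAIN in
theorem GP_MAIN (s : ℕ) : ∃ n0 : ℕ, ∀ n : ℕ, n0 ≤ n → ∀ r : ℕ, 1 ≤ r → (r : ℝ) ≤ (Real.log n) ^ s → ∃ P : Finset Pt, P.card = n ∧ (n : ℝ) / (24 * 2 ^ s) ≤ (F P r : ℝ) - F P (r + 1) := by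
  obtain ⟨n0, hn0⟩ := GP_ASYM s
  refine ⟨n0, fun n hn r hr hrl => ?_⟩
  obtain ⟨d, hd1, hd2, hd3⟩ := hn0 n hn
  obtain ⟨L, hL1, hL2, hL3⟩ := GP_DEC (s + 1) d r (hd3 r hrl)
  obtain ⟨A, hA1, hA2, hA3⟩ := GP_BUILD d L hL1
  rw [hL2] at hA2
  have hcard : A.card ≤ n := by
    rw [hA3]
    exact le_trans (Nat.mul_le_mul_left _ hL3) hd1
  have hT : 2 ≤ 2 ^ (d + 1) := by
    have := Nat.one_le_two_pow (n := d)
    rw [pow_succ]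
    omega
  obtain ⟨B, hB1, hB2⟩ := GP_SING A (2 ^ (d + 1)) r n hA1 hA2 hT hcard
  obtain ⟨g1, g2, g3⟩ := GP_GAP B (2 ^ (d + 1)) r hr hT hB2
  refine ⟨pts B, g1.trans hB1, ?_⟩
  have e1 : ((2 : ℝ) ^ (d + 1)) ≤ F (pts B) r := by exact_mod_cast g2
  have e2 : 2 * (F (pts B) (r + 1) : ℝ) ≤ 2 ^ (d + 1) := by exact_mod_cast g3
  have e3 : (n : ℝ) < 2 ^ (d + 2) * (3 * 2 ^ (s + 1)) := by exact_mod_cast hd2
  have e4 : (2 : ℝ) ^ (d + 1) = 2 * 2 ^ d := by rw [pow_succ]; ring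
  have e5 : (n : ℝ) / (24 * 2 ^ s) ≤ 2 ^ d := by
    rw [div_le_iff₀ (by positivity)]
    have : (2 : ℝ) ^ d * (24 * 2 ^ s) = 2 ^ (d + 2) * (3 * 2 ^ (s + 1)) := by
      rw [pow_succ, pow_succ, pow_succ]; ring
    linarith
  rw [e4] at e1 e2
  linarith


end Pool.Agent.H891GAP
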