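import Pool.Agent.H891GAP.Defs
import Pool.Agent.H891GAP.GP_GEN
import Pool.Agent.H891GAP.GP_ASYM2

set_option autoImplicit false

namespace Pool.Agent.H891GAP

namespace W_GP_MAIN2

end W_GP_MAIN2

open W_GP_MAIN2 in
theorem GP_MAIN2 (K : ℕ) (hK : 1 ≤ K) : ∃ δ : ℝ, 0 < δ ∧ ∃ n0 : ℕ, ∀ n : ℕ, n0 ≤ n → ∀ r : ℕ, 1 ≤ r → (r : ℝ) ≤ (n : ℝ) ^ δ → ∃ P : Finset Pt, P.card = n ∧ (n : ℝ) / (64 * (r : ℝ) ^ ((1 : ℝ) / K)) ≤ (F P r : ℝ) - F P (r + 1) := by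
  obtain ⟨δ, hδ, n0, h⟩ := GP_ASYM2 K hK
  refine ⟨δ, hδ, n0, fun n hn r hr1 hr => ?_⟩
  obtain ⟨d, s, h1, h2, h3⟩ := h n hn r hr1 hr
  obtain ⟨P, hP, h4, h5⟩ := GP_GEN n d s r hr1 h2 h1
  refine ⟨P, hP, h3.trans ?_⟩
  have h4' : ((2 : ℝ) ^ (d + 1)) ≤ F P r := by exact_mod_cast h4
  have h5' : (F P (r + 1) : ℝ) ≤ 2 ^ d := by exact_mod_cast h5
  rw [pow_succ] at h4'
  linarith


end Pool.Agent.H891GAP
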