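import Pool.Agent.H891GAP.Defs
import Pool.Agent.H891GAP.DefsX

set_option autoImplicit false

namespace Pool.Agent.H891GAP

namespace W_GX_DNLOW

theorem z (D : ℕ) : DN D 0 = 0 := by cases D <;> simp [DN]

theorem rec' (D s : ℕ) : DN (D+1) (s+1) = DN D (s + 1) + DN (D + 1) s + DN D s + 1 := by
  simp [DN]

theorem mono_s1 (D s : ℕ) : DN D s ≤ DN D (s+1) := by
  cases D with
  | zero => simp [DN]
  | succ D => rw [rec']; omega

theorem mono_s (D s t : ℕ) : DN D s ≤ DN D (s+t) := by
  induction t with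
  | zero => exact le_refl _
  | succ t ih => exact ih.trans (mono_s1 D (s+t))

theorem mono_D (D s : ℕ) : DN D s ≤ DN (D+1) s := by
  cases s with
  | zero => rw [z, z]
  | succ s => rw [rec']; omega

theorem step (D s t : ℕ) : (t+1) * (DN D s + 1) ≤ DN (D+1) (s+t) + 1 := by
  induction t with
  | zero => simpa using mono_D D s
  | succ t ih =>
    have h1 : DN (D+1) (s+(t+1)) = DN D (s + t + 1) + DN (D + 1) (s+t) + DN D (s+t) + 1 := rec' D (s+t)
    have h2 : DN D s ≤ DN D (s+t+1) := mono_s D s (t+1)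
    have h3 : (t+1+1) * (DN D s + 1) = (t+1) * (DN D s + 1) + (DN D s + 1) := by ring
    rw [h1, h3]
    omega

end W_GX_DNLOW

open W_GX_DNLOW in
theorem GX_DNLOW (D s t : ℕ) (h : D * t ≤ s) : (t + 1) ^ D ≤ DN D s + 1 := by
  induction D generalizing s with
  | zero => simp
  | succ D ih =>
    have hts : t ≤ s := by
      have : (D+1) * t = D * t + t := by ring
      omega
    obtain ⟨s0, rfl⟩ := Nat.exists_eq_add_of_le' hts
    have h0 : D * t ≤ s0 := by
      have : (D+1) * t = D * t + t := by ring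
      omega
    calc (t+1)^(D+1) = (t+1) * (t+1)^D := by ring
      _ ≤ (t+1) * (DN D s0 + 1) := Nat.mul_le_mul_left _ (ih s0 h0)
      _ ≤ DN (D+1) (s0+t) + 1 := W_GX_DNLOW.step D s0 t


end Pool.Agent.H891GAP
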