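import Pool.Agent.H891GAP.Defs
import Pool.Agent.H891GAP.DefsX
import Pool.Agent.H891GAP.GX_DNLOW

set_option autoImplicit false

namespace Pool.Agent.H891GAP

namespace W_GX_ASYM

theorem DN_ge : ∀ D s : ℕ, (s + D).choose D ≤ DN D s + 1
  | 0, s => by simp [DN]
  | D + 1, 0 => by simp [DN]
  | D + 1, s + 1 => by
    have h1 := DN_ge D (s + 1)
    have h2 := DN_ge (D + 1) s
    have h3 : (s + 1 + (D + 1)).choose (D + 1) =
        (s + 1 + D).choose D + (s + (D + 1)).choose (D + 1) := by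
      have h4 : s + 1 + (D + 1) = (s + 1 + D) + 1 := by omega
      have h5 : s + (D + 1) = s + 1 + D := by omega
      rw [h4, h5, Nat.choose_succ_succ]
    rw [h3, DN]
    omega

theorem DN_low (D s : ℕ) (hD : 1 ≤ D) (hs : 1 ≤ s) :
    (s + 1) ^ D ≤ 2 * D.factorial * DN D s := by
  have h1 := DN_ge D s
  have h2 : (s + D + 1 - D) ^ D ≤ D.factorial * (s + D).choose D := by
    have h0 := Nat.pow_le_choose D (s + D) (α := ℝ)
    have hfp : (0 : ℝ) < (D.factorial : ℝ) := by exact_mod_cast D.factorial_pos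
    rw [div_le_iff₀ hfp, mul_comm] at h0
    exact_mod_cast h0
  have h3 : s + D + 1 - D = s + 1 := by omega
  rw [h3] at h2
  have h4 : 2 ≤ (s + D).choose D := by
    have h5 : (D + 1).choose D ≤ (s + D).choose D := Nat.choose_le_choose D (by omega)
    rw [Nat.choose_succ_self_right] at h5
    omega
  have h6 : (s + D).choose D ≤ 2 * DN D s := by omega
  calc (s + 1) ^ D ≤ D.factorial * (s + D).choose D := h2
    _ ≤ D.factorial * (2 * DN D s) := Nat.mul_le_mul_left _ h6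
    _ = 2 * D.factorial * DN D s := by ring

theorem core (D : ℕ) (hD : 1 ≤ D) (ε : ℝ) (hDε : 7 ≤ ε * (2 * (D : ℝ) + 6)) (n r : ℕ)
    (Q : ℝ) (hQ : 64 * (D.factorial : ℝ) * 4 ^ D + 32 * (1 + 2 * (D : ℝ)) ≤ Q)
    (h1 : Q ^ (2 * D + 6) ≤ (n : ℝ)) (h2 : (r : ℝ) * Q ^ (D + 3) ≤ (n : ℝ)) :
    ∃ k s m M : ℕ, r ≤ k * DN D s ∧ 2 * s * (s + 1) ≤ m ∧ 1 ≤ m ∧ m ^ D ≤ M ∧
      (k + 2 * D) * (16 * m * M) ≤ n ∧ (Q ^ (2 * D + 6)) ^ (1 - ε) ≤ (M : ℝ) := by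
  have hf : (1 : ℝ) ≤ (D.factorial : ℝ) := by exact_mod_cast D.factorial_pos
  have h4 : (1 : ℝ) ≤ (4 : ℝ) ^ D := one_le_pow₀ (by norm_num)
  have hD' : (1 : ℝ) ≤ (D : ℝ) := by exact_mod_cast hD
  have hf4 : (1 : ℝ) ≤ (D.factorial : ℝ) * 4 ^ D := by nlinarith
  have hQ96 : (96 : ℝ) ≤ Q := by nlinarith
  have hQ1 : (1 : ℝ) ≤ Q := by linarith
  have hQ0 : (0 : ℝ) < Q := by linarith
  have hQ4 : (4 : ℝ) ^ D ≤ Q := by nlinarith
  have hQD : 32 * (1 + 2 * (D : ℝ)) ≤ Q := by nlinarith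
  have hQf : 64 * (D.factorial : ℝ) * 2 ^ D ≤ Q := by
    have h24 : (2 : ℝ) ^ D ≤ 4 ^ D := pow_le_pow_left₀ (by norm_num) (by norm_num) D
    nlinarith
  obtain ⟨q, hq⟩ : ∃ q : ℕ, q = ⌊Q / 2⌋₊ := ⟨_, rfl⟩
  have hqa : (q : ℝ) ≤ Q / 2 := by rw [hq]; exact Nat.floor_le (by positivity)
  have hqb : Q / 2 < (q : ℝ) + 1 := by rw [hq]; exact Nat.lt_floor_add_one _
  have hq1 : 1 ≤ q := by
    rw [hq]
    apply Nat.le_floor
    push_cast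
    linarith
  have hq1' : (1 : ℝ) ≤ (q : ℝ) := by exact_mod_cast hq1
  have hN := DN_low D q hD hq1
  have hNpos : 0 < DN D q := by
    rcases Nat.eq_zero_or_pos (DN D q) with h | h
    · rw [h, mul_zero] at hN
      have : 0 < (q + 1) ^ D := by positivity
      omega
    · exact h
  have hNpos' : (0 : ℝ) < (DN D q : ℝ) := by exact_mod_cast hNpos
  have hN' : ((q : ℝ) + 1) ^ D ≤ 2 * (D.factorial : ℝ) * (DN D q : ℝ) := by exact_mod_cast hN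
  refine ⟨r / DN D q + 1, q, 4 * q ^ 2, (4 * q ^ 2) ^ D, ?_, ?_, ?_, le_refl _, ?_, ?_⟩
  · have h5 := Nat.div_add_mod r (DN D q)
    have h6 := Nat.mod_lt r hNpos
    have h7 : (r / DN D q + 1) * DN D q = DN D q * (r / DN D q) + DN D q := by ring
    omega
  · nlinarith
  · nlinarith
  · have hk : ((r / DN D q : ℕ) : ℝ) ≤ (r : ℝ) / (DN D q : ℝ) := Nat.cast_div_le
    have hmM : (16 : ℝ) * (4 * (q : ℝ) ^ 2) * (4 * (q : ℝ) ^ 2) ^ D ≤ 16 * Q ^ (2 * D + 2) := by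
      have h8 : (16 : ℝ) * (4 * (q : ℝ) ^ 2) * (4 * (q : ℝ) ^ 2) ^ D =
          16 * (2 * (q : ℝ)) ^ (2 * D + 2) := by
        have h9 : (4 : ℝ) * (q : ℝ) ^ 2 = (2 * (q : ℝ)) ^ 2 := by ring
        rw [h9, ← pow_mul]
        ring
      rw [h8]
      have h10 : (2 * (q : ℝ)) ^ (2 * D + 2) ≤ Q ^ (2 * D + 2) :=
        pow_le_pow_left₀ (by positivity) (by linarith) _
      linarith
    have hrN : (r : ℝ) / (DN D q : ℝ) * Q ^ D ≤ 2 * (D.factorial : ℝ) * 2 ^ D * r := by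
      rw [div_mul_eq_mul_div, div_le_iff₀ hNpos']
      have h11 : Q ^ D ≤ (2 : ℝ) ^ D * ((q : ℝ) + 1) ^ D := by
        rw [← mul_pow]
        exact pow_le_pow_left₀ hQ0.le (by linarith) _
      have h12 : (2 : ℝ) ^ D * ((q : ℝ) + 1) ^ D ≤
          (2 : ℝ) ^ D * (2 * (D.factorial : ℝ) * (DN D q : ℝ)) :=
        mul_le_mul_of_nonneg_left hN' (by positivity)
      calc (r : ℝ) * Q ^ D ≤ (r : ℝ) * ((2 : ℝ) ^ D * (2 * (D.factorial : ℝ) * (DN D q : ℝ))) :=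
            mul_le_mul_of_nonneg_left (h11.trans h12) (by positivity)
        _ = 2 * (D.factorial : ℝ) * 2 ^ D * r * (DN D q : ℝ) := by ring
    have key : (((r / DN D q : ℕ) : ℝ) + 1 + 2 * (D : ℝ)) *
        (16 * (4 * (q : ℝ) ^ 2) * (4 * (q : ℝ) ^ 2) ^ D) ≤ (n : ℝ) := by
      calc (((r / DN D q : ℕ) : ℝ) + 1 + 2 * (D : ℝ)) *
          (16 * (4 * (q : ℝ) ^ 2) * (4 * (q : ℝ) ^ 2) ^ D)
          ≤ ((r : ℝ) / (DN D q : ℝ) + 1 + 2 * (D : ℝ)) * (16 * Q ^ (2 * D + 2)) := by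
            apply mul_le_mul (by linarith) hmM (by positivity) (by positivity)
        _ = 16 * ((r : ℝ) / (DN D q : ℝ) * Q ^ D) * Q ^ (D + 2) +
            16 * (1 + 2 * (D : ℝ)) * Q ^ (2 * D + 2) := by
            rw [show 2 * D + 2 = D + (D + 2) by ring, pow_add]
            ring
        _ ≤ 16 * (2 * (D.factorial : ℝ) * 2 ^ D * r) * Q ^ (D + 2) +
            16 * (1 + 2 * (D : ℝ)) * Q ^ (2 * D + 2) := by
            have h13 : 16 * ((r : ℝ) / (DN D q : ℝ) * Q ^ D) * Q ^ (D + 2) ≤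
                16 * (2 * (D.factorial : ℝ) * 2 ^ D * r) * Q ^ (D + 2) :=
              mul_le_mul_of_nonneg_right (by linarith) (by positivity)
            linarith
        _ = (64 * (D.factorial : ℝ) * 2 ^ D) * (r * Q ^ (D + 2)) / 2 +
            (32 * (1 + 2 * (D : ℝ))) * Q ^ (2 * D + 2) / 2 := by ring
        _ ≤ Q * (r * Q ^ (D + 2)) / 2 + Q ^ 4 * Q ^ (2 * D + 2) / 2 := by
            have h14 : (64 * (D.factorial : ℝ) * 2 ^ D) * (r * Q ^ (D + 2)) ≤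
                Q * (r * Q ^ (D + 2)) := mul_le_mul_of_nonneg_right hQf (by positivity)
            have h15 : Q ≤ Q ^ 4 := le_self_pow₀ hQ1 (by norm_num)
            have h16 : (32 * (1 + 2 * (D : ℝ))) * Q ^ (2 * D + 2) ≤ Q ^ 4 * Q ^ (2 * D + 2) :=
              mul_le_mul_of_nonneg_right (by linarith) (by positivity)
            linarith
        _ = (r * Q ^ (D + 3)) / 2 + Q ^ (2 * D + 6) / 2 := by ring
        _ ≤ (n : ℝ) := by linarith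
    exact_mod_cast key
  · have h17 : (Q ^ (2 * D + 6)) ^ (1 - ε) = Q ^ ((2 * (D : ℝ) + 6) * (1 - ε)) := by
      rw [Real.rpow_mul hQ0.le]
      congr 1
      rw [← Real.rpow_natCast]
      push_cast
      rfl
    rw [h17]
    have h18 : (2 * (D : ℝ) + 6) * (1 - ε) ≤ ((2 * D : ℕ) : ℝ) - 1 := by
      push_cast
      nlinarith
    have h19 : Q ^ ((2 * (D : ℝ) + 6) * (1 - ε)) ≤ Q ^ (((2 * D : ℕ) : ℝ) - 1) :=
      Real.rpow_le_rpow_of_exponent_le hQ1 h18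
    refine h19.trans ?_
    rw [Real.rpow_sub hQ0, Real.rpow_one, Real.rpow_natCast]
    have h20 : (((4 * q ^ 2) ^ D : ℕ) : ℝ) = (2 * (q : ℝ)) ^ (2 * D) := by
      push_cast
      rw [pow_mul]
      congr 1
      ring
    rw [h20, div_le_iff₀ hQ0]
    have h21 : Q ≤ 2 * (2 * (q : ℝ)) := by linarith
    calc Q ^ (2 * D) ≤ (2 * (2 * (q : ℝ))) ^ (2 * D) := pow_le_pow_left₀ hQ0.le h21 _
      _ = (2 * (q : ℝ)) ^ (2 * D) * 4 ^ D := by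
          rw [mul_pow, pow_mul (2 : ℝ) 2 D]
          norm_num
          ring
      _ ≤ (2 * (q : ℝ)) ^ (2 * D) * Q := mul_le_mul_of_nonneg_left hQ4 (by positivity)

end W_GX_ASYM

open W_GX_ASYM in
theorem GX_ASYM (ε : ℝ) (hε : 0 < ε) (hε1 : ε < 1) : ∃ n0 : ℕ, ∀ n : ℕ, n0 ≤ n → ∀ r : ℕ, 1 ≤ r → (r : ℝ) ≤ (n : ℝ) ^ (1 - ε) → ∃ k D s m M : ℕ, r ≤ k * DN D s ∧ 2 * s * (s + 1) ≤ m ∧ 1 ≤ m ∧ m ^ D ≤ M ∧ (k + 2 * D) * (16 * m * M) ≤ n ∧ (min (n : ℝ) (((n : ℝ) / r) ^ 2)) ^ (1 - ε) ≤ M := by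
  obtain ⟨D, hDdef⟩ : ∃ D : ℕ, D = ⌈7 / ε⌉₊ := ⟨_, rfl⟩
  have hDr : 7 / ε ≤ (D : ℝ) := by rw [hDdef]; exact Nat.le_ceil _
  have hD7 : 7 ≤ ε * (D : ℝ) := by
    rw [div_le_iff₀ hε] at hDr
    linarith
  have hD1' : (1 : ℝ) ≤ (D : ℝ) := by nlinarith [Nat.cast_nonneg (α := ℝ) D]
  have hD1 : 1 ≤ D := by exact_mod_cast hD1'
  have hDε : 7 ≤ ε * (2 * (D : ℝ) + 6) := by nlinarith
  obtain ⟨Q0, hQ0def⟩ : ∃ Q0 : ℝ, Q0 = 64 * (D.factorial : ℝ) * 4 ^ D + 32 * (1 + 2 * (D : ℝ)) :=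
    ⟨_, rfl⟩
  have hQ0pos : 0 < Q0 := by rw [hQ0def]; positivity
  refine ⟨⌈max (Q0 ^ (2 * D + 6)) ((Q0 ^ (D + 3)) ^ (1 / ε))⌉₊ + 1, ?_⟩
  intro n hn r hr hrn
  have hn1 : max (Q0 ^ (2 * D + 6)) ((Q0 ^ (D + 3)) ^ (1 / ε)) ≤ (n : ℝ) := by
    refine (Nat.le_ceil _).trans ?_
    exact_mod_cast (by omega : ⌈max (Q0 ^ (2 * D + 6)) ((Q0 ^ (D + 3)) ^ (1 / ε))⌉₊ ≤ n)
  have hnpos : (0 : ℝ) < (n : ℝ) := by
    have : 0 < n := by omega
    exact_mod_cast this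
  have hna : Q0 ^ (2 * D + 6) ≤ (n : ℝ) := (le_max_left _ _).trans hn1
  have hnb : (Q0 ^ (D + 3)) ^ (1 / ε) ≤ (n : ℝ) := (le_max_right _ _).trans hn1
  have hnc : Q0 ^ (D + 3) ≤ (n : ℝ) ^ ε := by
    have h1 : ((Q0 ^ (D + 3)) ^ (1 / ε)) ^ ε ≤ (n : ℝ) ^ ε :=
      Real.rpow_le_rpow (by positivity) hnb hε.le
    rwa [← Real.rpow_mul (by positivity), one_div, inv_mul_cancel₀ hε.ne', Real.rpow_one] at h1
  have hrpos : (0 : ℝ) < (r : ℝ) := by exact_mod_cast hr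
  have hnr : (n : ℝ) ^ ε ≤ (n : ℝ) / r := by
    rw [le_div_iff₀ hrpos]
    calc (n : ℝ) ^ ε * r ≤ (n : ℝ) ^ ε * (n : ℝ) ^ (1 - ε) :=
          mul_le_mul_of_nonneg_left hrn (by positivity)
      _ = (n : ℝ) := by
          rw [← Real.rpow_add hnpos]
          have : ε + (1 - ε) = 1 := by ring
          rw [this, Real.rpow_one]
  obtain ⟨Y, hYdef⟩ : ∃ Y : ℝ, Y = min (n : ℝ) (((n : ℝ) / r) ^ 2) := ⟨_, rfl⟩
  have hYQ0 : Q0 ^ (2 * D + 6) ≤ Y := by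
    rw [hYdef]
    refine le_min hna ?_
    have h2 : Q0 ^ (2 * D + 6) = (Q0 ^ (D + 3)) ^ 2 := by ring
    rw [h2]
    exact pow_le_pow_left₀ (by positivity) (hnc.trans hnr) 2
  have hY0 : 0 ≤ Y := le_trans (by positivity) hYQ0
  obtain ⟨Q, hQdef⟩ : ∃ Q : ℝ, Q = Y ^ (((2 * D + 6 : ℕ) : ℝ)⁻¹) := ⟨_, rfl⟩
  have hQY : Q ^ (2 * D + 6) = Y := by
    rw [hQdef]
    exact Real.rpow_inv_natCast_pow hY0 (by omega)
  have hQnn : 0 ≤ Q := by rw [hQdef]; positivity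
  have hQQ0 : Q0 ≤ Q := by
    rw [← hQY] at hYQ0
    exact (pow_le_pow_iff_left₀ hQ0pos.le hQnn (by omega)).1 hYQ0
  have hQn : Q ^ (2 * D + 6) ≤ (n : ℝ) := by
    rw [hQY, hYdef]
    exact min_le_left _ _
  have hQr : (r : ℝ) * Q ^ (D + 3) ≤ (n : ℝ) := by
    have h3 : (Q ^ (D + 3)) ^ 2 ≤ ((n : ℝ) / r) ^ 2 := by
      have h4 : (Q ^ (D + 3)) ^ 2 = Q ^ (2 * D + 6) := by ring
      rw [h4, hQY, hYdef]
      exact min_le_right _ _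
    have h5 : Q ^ (D + 3) ≤ (n : ℝ) / r :=
      (pow_le_pow_iff_left₀ (by positivity) (by positivity) (by norm_num)).1 h3
    rw [le_div_iff₀ hrpos] at h5
    linarith
  obtain ⟨k, s, m, M, c1, c2, c3, c4, c5, c6⟩ :=
    core D hD1 ε hDε n r Q (by rw [← hQ0def]; exact hQQ0) hQn hQr
  refine ⟨k, D, s, m, M, c1, c2, c3, c4, c5, ?_⟩
  rw [hQY, hYdef] at c6
  exact c6


end Pool.Agent.H891GAP
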