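import Pool.Agent.H891GAP.Defs
import Pool.Agent.H891GAP.DefsX

set_option autoImplicit false

namespace Pool.Agent.H891GAP

namespace W_GX_BOXB

theorem step1 (m w W : ℕ) (hw : w ≤ m) : m * (m - (w + W)) ≤ (m - w) * (m - W) := by
  rcases Nat.le_total m (w + W) with h | h
  · rw [Nat.sub_eq_zero_of_le h, mul_zero]
    exact Nat.zero_le _
  · obtain ⟨c, rfl⟩ := Nat.exists_eq_add_of_le h
    have e1 : w + W + c - (w + W) = c := by omega
    have e2 : w + W + c - w = W + c := by omega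
    have e3 : w + W + c - W = w + c := by omega
    rw [e1, e2, e3]
    nlinarith [Nat.zero_le (W * w)]

theorem step2 (m w W : ℕ) (hw : w ≤ m) : (m - w) * (m + (w + W)) ≤ m * (m + W) := by
  obtain ⟨c, rfl⟩ := Nat.exists_eq_add_of_le hw
  have e2 : w + c - w = c := by omega
  rw [e2]
  nlinarith [Nat.zero_le (W * w), Nat.zero_le (w * w), Nat.zero_le (W * c), Nat.zero_le (w * c)]

theorem L1 {ι : Type} [DecidableEq ι] (S : Finset ι) (w : ι → ℕ) (m : ℕ) (hw : ∀ i, w i ≤ m) :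
    m ^ S.card * (m - ∑ i ∈ S, w i) ≤ (∏ i ∈ S, (m - w i)) * m := by
  induction S using Finset.induction_on with
  | empty => simp
  | insert a S ha ih =>
    rw [Finset.card_insert_of_notMem ha, Finset.sum_insert ha, Finset.prod_insert ha]
    calc m ^ (S.card + 1) * (m - (w a + ∑ i ∈ S, w i))
        = m ^ S.card * (m * (m - (w a + ∑ i ∈ S, w i))) := by ring
      _ ≤ m ^ S.card * ((m - w a) * (m - ∑ i ∈ S, w i)) :=
          Nat.mul_le_mul_left _ (step1 m (w a) _ (hw a))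
      _ = (m - w a) * (m ^ S.card * (m - ∑ i ∈ S, w i)) := by ring
      _ ≤ (m - w a) * ((∏ i ∈ S, (m - w i)) * m) := Nat.mul_le_mul_left _ ih
      _ = (m - w a) * (∏ i ∈ S, (m - w i)) * m := by ring

theorem L2 {ι : Type} [DecidableEq ι] (S : Finset ι) (w : ι → ℕ) (m : ℕ) (hw : ∀ i, w i ≤ m) :
    (∏ i ∈ S, (m - w i)) * (m + ∑ i ∈ S, w i) ≤ m ^ S.card * m := by
  induction S using Finset.induction_on with
  | empty => simp
  | insert a S ha ih =>
    rw [Finset.card_insert_of_notMem ha, Finset.sum_insert ha, Finset.prod_insert ha]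
    calc (m - w a) * (∏ i ∈ S, (m - w i)) * (m + (w a + ∑ i ∈ S, w i))
        = (∏ i ∈ S, (m - w i)) * ((m - w a) * (m + (w a + ∑ i ∈ S, w i))) := by ring
      _ ≤ (∏ i ∈ S, (m - w i)) * (m * (m + ∑ i ∈ S, w i)) :=
          Nat.mul_le_mul_left _ (step2 m (w a) _ (hw a))
      _ = m * ((∏ i ∈ S, (m - w i)) * (m + ∑ i ∈ S, w i)) := by ring
      _ ≤ m * (m ^ S.card * m) := Nat.mul_le_mul_left _ ih
      _ = m ^ (S.card + 1) * m := by ring

end W_GX_BOXB

open W_GX_BOXB in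
theorem GX_BOXB (D m s : ℕ) (u : Fin D → ℤ) (hu : ∀ i, (u i).natAbs ≤ m) : ((∑ i, (u i).natAbs ≤ s) → m ^ D * (m - s) ≤ (∏ i, (m - (u i).natAbs)) * m) ∧ ((s + 1 ≤ ∑ i, (u i).natAbs) → (∏ i, (m - (u i).natAbs)) * (m + s + 1) ≤ m ^ D * m) := by
  have h1 := L1 (Finset.univ : Finset (Fin D)) (fun i => (u i).natAbs) m hu
  have h2 := L2 (Finset.univ : Finset (Fin D)) (fun i => (u i).natAbs) m hu
  rw [Finset.card_univ, Fintype.card_fin] at h1 h2
  refine ⟨fun h => ?_, fun h => ?_⟩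
  · refine le_trans (Nat.mul_le_mul_left _ ?_) h1
    exact Nat.sub_le_sub_left h m
  · refine le_trans (Nat.mul_le_mul_left _ ?_) h2
    have : m + s + 1 = m + (s + 1) := by ring
    rw [this]
    exact Nat.add_le_add_left h m


end Pool.Agent.H891GAP
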