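import Pool.Agent.H891GAP.Defs
import Pool.Agent.H891GAP.DefsX

set_option autoImplicit false

namespace Pool.Agent.H891GAP

namespace W_GX_BOXC

/-- the vectors of l1-norm at most `s` -/
noncomputable def S (D s : ℕ) : Finset (Fin D → ℤ) :=
  (Fintype.piFinset (fun _ : Fin D => Finset.Icc (-(s : ℤ)) s)).filter
    (fun u => ∑ i, (u i).natAbs ≤ s)

theorem mem_S {D s : ℕ} (u : Fin D → ℤ) : u ∈ S D s ↔ ∑ i, (u i).natAbs ≤ s := by
  unfold S
  rw [Finset.mem_filter, Fintype.mem_piFinset]
  constructor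
  · exact fun h => h.2
  · intro h
    refine ⟨?_, h⟩
    intro i
    have h1 : (u i).natAbs ≤ ∑ j, (u j).natAbs :=
      Finset.single_le_sum (f := fun j => (u j).natAbs) (fun j _ => Nat.zero_le _)
        (Finset.mem_univ i)
    rw [Finset.mem_Icc]
    omega

theorem sum_succ {D : ℕ} (u : Fin (D + 1) → ℤ) :
    ∑ i, (u i).natAbs = (u 0).natAbs + ∑ i : Fin D, (u i.succ).natAbs :=
  Fin.sum_univ_succ _

theorem card_zero (D s : ℕ) : ((S (D + 1) s).filter (fun u => u 0 = 0)).card = (S D s).card := by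
  apply Finset.card_nbij' (fun u => fun k : Fin D => u k.succ)
    (fun v => (Fin.cons (0 : ℤ) v : Fin (D + 1) → ℤ))
  · intro u hu
    have h1 := (mem_S _).1 (Finset.mem_filter.1 hu).1
    have h2 := (Finset.mem_filter.1 hu).2
    rw [sum_succ] at h1
    have h3 : ∑ i : Fin D, (u i.succ).natAbs ≤ s := by omega
    exact (mem_S _).2 h3
  · intro v hv
    have h1 := (mem_S _).1 hv
    refine Finset.mem_filter.2 ⟨(mem_S _).2 ?_, ?_⟩
    · rw [sum_succ]
      simpa using h1
    · simp
  · intro u hu
    have h2 := (Finset.mem_filter.1 hu).2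
    funext i
    refine Fin.cases ?_ (fun j => ?_) i
    · simp [h2]
    · simp
  · intro v hv
    funext i
    simp

theorem single_sum {D : ℕ} (u : Fin (D + 1) → ℤ) (t : ℤ) :
    ∑ i, ((u + (Pi.single 0 t : Fin (D + 1) → ℤ)) i).natAbs =
      (u 0 + t).natAbs + ∑ i : Fin D, (u i.succ).natAbs := by
  rw [sum_succ]
  have h1 : (u + (Pi.single 0 t : Fin (D + 1) → ℤ)) 0 = u 0 + t := by simp
  have h2 : ∀ i : Fin D, (u + (Pi.single 0 t : Fin (D + 1) → ℤ)) i.succ = u i.succ := by
    intro i; simp
  rw [h1]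
  simp only [h2]

theorem card_pos (D s : ℕ) : ((S (D + 1) (s + 1)).filter (fun u => 0 < u 0)).card =
    ((S (D + 1) s).filter (fun u => 0 ≤ u 0)).card := by
  apply Finset.card_nbij' (fun u => u + Pi.single 0 (-1 : ℤ)) (fun v => v + Pi.single 0 (1 : ℤ))
  · intro u hu
    have h1 := (mem_S _).1 (Finset.mem_filter.1 hu).1
    have h2 := (Finset.mem_filter.1 hu).2
    rw [sum_succ] at h1
    refine Finset.mem_filter.2 ⟨(mem_S _).2 ?_, ?_⟩
    · rw [single_sum]
      omega
    · simp only [Pi.add_apply, Pi.single_eq_same]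
      omega
  · intro v hv
    have h1 := (mem_S _).1 (Finset.mem_filter.1 hv).1
    have h2 := (Finset.mem_filter.1 hv).2
    rw [sum_succ] at h1
    refine Finset.mem_filter.2 ⟨(mem_S _).2 ?_, ?_⟩
    · rw [single_sum]
      omega
    · simp only [Pi.add_apply, Pi.single_eq_same]
      omega
  · intro u hu
    simp only
    rw [add_assoc, ← Pi.single_add]
    simp
  · intro v hv
    simp only
    rw [add_assoc, ← Pi.single_add]
    simp

theorem card_neg (D s : ℕ) : ((S (D + 1) (s + 1)).filter (fun u => u 0 < 0)).card =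
    ((S (D + 1) s).filter (fun u => u 0 ≤ 0)).card := by
  apply Finset.card_nbij' (fun u => u + Pi.single 0 (1 : ℤ)) (fun v => v + Pi.single 0 (-1 : ℤ))
  · intro u hu
    have h1 := (mem_S _).1 (Finset.mem_filter.1 hu).1
    have h2 := (Finset.mem_filter.1 hu).2
    rw [sum_succ] at h1
    refine Finset.mem_filter.2 ⟨(mem_S _).2 ?_, ?_⟩
    · rw [single_sum]
      omega
    · simp only [Pi.add_apply, Pi.single_eq_same]
      omega
  · intro v hv
    have h1 := (mem_S _).1 (Finset.mem_filter.1 hv).1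
    have h2 := (Finset.mem_filter.1 hv).2
    rw [sum_succ] at h1
    refine Finset.mem_filter.2 ⟨(mem_S _).2 ?_, ?_⟩
    · rw [single_sum]
      omega
    · simp only [Pi.add_apply, Pi.single_eq_same]
      omega
  · intro u hu
    simp only
    rw [add_assoc, ← Pi.single_add]
    simp
  · intro v hv
    simp only
    rw [add_assoc, ← Pi.single_add]
    simp

theorem split3 {D : ℕ} (T : Finset (Fin (D + 1) → ℤ)) : T.card =
    (T.filter (fun u => u 0 = 0)).card + (T.filter (fun u => 0 < u 0)).card +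
      (T.filter (fun u => u 0 < 0)).card := by
  simp only [Finset.card_filter, ← Finset.sum_add_distrib]
  rw [Finset.card_eq_sum_ones]
  apply Finset.sum_congr rfl
  intro u _
  rcases lt_trichotomy (u 0) 0 with h | h | h
  · simp [h, h.ne, h.le, not_lt.2 h.le]
  · simp [h]
  · simp [h, h.ne', not_lt.2 h.le]

theorem split2 {D : ℕ} (T : Finset (Fin (D + 1) → ℤ)) :
    (T.filter (fun u => 0 ≤ u 0)).card + (T.filter (fun u => u 0 ≤ 0)).card =
    T.card + (T.filter (fun u => u 0 = 0)).card := by
  simp only [Finset.card_filter, ← Finset.sum_add_distrib]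
  rw [Finset.card_eq_sum_ones, ← Finset.sum_add_distrib]
  apply Finset.sum_congr rfl
  intro u _
  rcases lt_trichotomy (u 0) 0 with h | h | h
  · simp [h, h.ne, h.le, not_le.2 h]
  · simp [h]
  · simp [h, h.ne', h.le, not_le.2 h]

theorem rec_S (D s : ℕ) : (S (D + 1) (s + 1)).card =
    (S D (s + 1)).card + (S (D + 1) s).card + (S D s).card := by
  have h1 := split3 (S (D + 1) (s + 1))
  have h2 := split2 (S (D + 1) s)
  rw [card_zero, card_pos, card_neg] at h1
  rw [card_zero] at h2
  omega

theorem base_S0 (s : ℕ) : (S 0 s).card = 1 := by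
  rw [Finset.card_eq_one]
  refine ⟨Fin.elim0, ?_⟩
  ext u
  rw [mem_S, Finset.mem_singleton]
  constructor
  · intro _
    exact Subsingleton.elim _ _
  · intro _
    simp

theorem base_0 (D : ℕ) : (S D 0).card = 1 := by
  rw [Finset.card_eq_one]
  refine ⟨fun _ => 0, ?_⟩
  ext u
  rw [mem_S, Finset.mem_singleton]
  constructor
  · intro h
    have h1 : ∑ i, (u i).natAbs = 0 := Nat.le_zero.1 h
    rw [Finset.sum_eq_zero_iff] at h1
    funext i
    have := h1 i (Finset.mem_univ i)
    omega
  · rintro rfl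
    simp

theorem main_S : ∀ D s : ℕ, (S D s).card = 1 + 2 * DN D s := by
  intro D
  induction D with
  | zero => intro s; rw [base_S0]; simp [DN]
  | succ D ihD =>
    intro s
    induction s with
    | zero => rw [base_0]; simp [DN]
    | succ s ihs =>
      rw [rec_S, ihD, ihs, ihD]
      simp only [DN]
      ring

end W_GX_BOXC

open W_GX_BOXC in
theorem GX_BOXC (D s : ℕ) : ((Fintype.piFinset (fun _ : Fin D => Finset.Icc (-(s : ℤ)) s)).filter (fun u => ∑ i, (u i).natAbs ≤ s)).card = 1 + 2 * DN D s := by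
  exact main_S D s


end Pool.Agent.H891GAP
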