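import Pool.Agent.H891GAP.Defs
import Pool.Agent.H891GAP.DefsX

set_option autoImplicit false

namespace Pool.Agent.H891GAP

namespace W_GX_BOXM

end W_GX_BOXM

open W_GX_BOXM in
theorem GX_BOXM (D m : ℕ) (u : Fin D → ℤ) (hu : ∀ i, (u i).natAbs ≤ m) : multG (box D m) u = ∏ i, (m - (u i).natAbs) := by
  unfold multG
  have h1 : ((box D m ×ˢ box D m).filter (fun p => p.1 - p.2 = u)).card
      = (Fintype.piFinset
          (fun i => Finset.Ico (max 0 (-u i)) (min (m : ℤ) (m - u i)))).card := by
    refine Finset.card_bij' (fun p _ => p.2) (fun y _ => (y + u, y)) ?_ ?_ ?_ ?_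
    · intro p hp
      simp only [Finset.mem_filter, Finset.mem_product, box, Fintype.mem_piFinset,
        Finset.mem_Ico] at hp ⊢
      obtain ⟨⟨h1, h2⟩, h3⟩ := hp
      intro i
      have h4 : p.1 i - p.2 i = u i := congrFun h3 i
      have h5 := h1 i
      have h6 := h2 i
      constructor
      · exact max_le (by omega) (by omega)
      · exact lt_min (by omega) (by omega)
    · intro y hy
      simp only [Finset.mem_filter, Finset.mem_product, box, Fintype.mem_piFinset,
        Finset.mem_Ico, max_le_iff, lt_min_iff, Pi.add_apply] at hy ⊢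
      refine ⟨⟨fun i => ?_, fun i => ?_⟩, by simp⟩
      · have h5 := hy i
        omega
      · have h5 := hy i
        omega
    · intro p hp
      simp only [Finset.mem_filter] at hp
      refine Prod.ext ?_ rfl
      simp [← hp.2]
    · intro y hy
      rfl
  rw [h1, Fintype.card_piFinset]
  refine Finset.prod_congr rfl fun i _ => ?_
  rw [Int.card_Ico]
  have h2 := hu i
  omega


end Pool.Agent.H891GAP
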