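import Pool.Agent.H891GAP.Defs
import Pool.Agent.H891GAP.DefsX

set_option autoImplicit false

namespace Pool.Agent.H891GAP

namespace W_GX_CODE

noncomputable def pol {ι : Type} [Fintype ι] (e : ι ≃ Fin (Fintype.card ι)) (u : ι → ℤ) : Polynomial ℤ :=
  ∑ i, Polynomial.C (u i) * Polynomial.X ^ (e i : ℕ)

lemma pol_ne {ι : Type} [Fintype ι] (e : ι ≃ Fin (Fintype.card ι)) (u : ι → ℤ) (hu : u ≠ 0) :
    pol e u ≠ 0 := by
  classical
  intro h
  apply hu
  funext i
  have h1 : (pol e u).coeff (e i : ℕ) = u i := by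
    unfold pol
    rw [Polynomial.finsetSum_coeff]
    rw [Finset.sum_eq_single i]
    · simp
    · intro j _ hj
      rw [Polynomial.coeff_C_mul_X_pow]
      rw [if_neg]
      intro h2
      apply hj
      have h3 : e i = e j := Fin.ext h2
      exact (e.injective h3).symm
    · intro h; exact absurd (Finset.mem_univ _) h
  rw [h] at h1
  simpa using h1.symm

end W_GX_CODE

open W_GX_CODE in
theorem GX_CODE {ι : Type} [Fintype ι] (A : Finset (ι → ℤ)) : ∃ φ : (ι → ℤ) →+ ℤ, ∀ x ∈ A, ∀ y ∈ A, ∀ x' ∈ A, ∀ y' ∈ A, φ (x - y) = φ (x' - y') → x - y = x' - y' := by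
  classical
  let e : ι ≃ Fin (Fintype.card ι) := Fintype.equivFin ι
  let U : Finset (ι → ℤ) := ((A ×ˢ A) ×ˢ (A ×ˢ A)).image (fun p => (p.1.1 - p.1.2) - (p.2.1 - p.2.2))
  let P : Polynomial ℤ := ∏ u ∈ U.filter (fun u => u ≠ 0), pol e u
  have hP : P ≠ 0 := by
    apply Finset.prod_ne_zero_iff.mpr
    intro u hu
    exact pol_ne e u (Finset.mem_filter.mp hu).2
  have hB : ∃ B : ℤ, Polynomial.eval B P ≠ 0 := by
    by_contra hcon
    push Not at hcon
    apply hP
    apply Polynomial.funext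
    intro r
    rw [hcon r]
    simp
  obtain ⟨B, hB⟩ := hB
  let φ : (ι → ℤ) →+ ℤ :=
    { toFun := fun x => ∑ i, x i * B ^ (e i : ℕ)
      map_zero' := by simp
      map_add' := by
        intro x y
        simp [add_mul, Finset.sum_add_distrib] }
  refine ⟨φ, ?_⟩
  intro x hx y hy x' hx' y' hy' h
  by_contra hne
  have hu0 : (x - y) - (x' - y') ≠ 0 := sub_ne_zero.mpr hne
  have hmem : (x - y) - (x' - y') ∈ U.filter (fun u => u ≠ 0) := by
    refine Finset.mem_filter.mpr ⟨?_, hu0⟩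
    refine Finset.mem_image.mpr ⟨((x, y), (x', y')), ?_, rfl⟩
    exact Finset.mem_product.mpr ⟨Finset.mem_product.mpr ⟨hx, hy⟩, Finset.mem_product.mpr ⟨hx', hy'⟩⟩
  have hev : Polynomial.eval B P = ∏ u ∈ U.filter (fun u => u ≠ 0), Polynomial.eval B (pol e u) :=
    Polynomial.eval_prod _ _ _
  rw [hev] at hB
  have h1 := Finset.prod_ne_zero_iff.mp hB _ hmem
  apply h1
  have h2 : φ ((x - y) - (x' - y')) = 0 := by rw [map_sub, h, sub_self]
  have h3 : Polynomial.eval B (pol e ((x - y) - (x' - y'))) = φ ((x - y) - (x' - y')) := by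
    unfold pol
    rw [Polynomial.eval_finsetSum]
    change _ = ∑ i, ((x - y) - (x' - y')) i * B ^ (e i : ℕ)
    apply Finset.sum_congr rfl
    intro i _
    simp
  rw [h3, h2]


end Pool.Agent.H891GAP
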