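import Pool.Agent.H891GAP.Defs
import Pool.Agent.H891GAP.DefsX

set_option autoImplicit false

namespace Pool.Agent.H891GAP

namespace W_GX_DEC

theorem claim (D : ℕ) : ∀ s R : ℕ, R ≤ DN D s → ∃ L : List (ℕ × ℕ),
    (∀ p ∈ L, p.1 ≤ D ∧ p.2 ≤ s) ∧ (L.map (fun p => DN p.1 p.2)).sum = R ∧ L.length ≤ 2 * D := by
  induction D with
  | zero =>
    intro s R h
    have h0 : DN 0 s = 0 := by rw [DN]
    have hR : R = 0 := by omega
    exact ⟨[], by simp, by simp [hR], by simp⟩
  | succ D ihD =>
    intro s
    induction s with
    | zero =>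
      intro R h
      have h0 : DN (D + 1) 0 = 0 := by rw [DN]
      have hR : R = 0 := by omega
      exact ⟨[], by simp, by simp [hR], by simp⟩
    | succ s ihs =>
      intro R h
      have hrec : DN (D + 1) (s + 1) = DN D (s + 1) + DN (D + 1) s + DN D s + 1 := by rw [DN]
      rcases Nat.lt_or_ge (DN (D + 1) s) R with h1 | h1
      · rcases Nat.lt_or_ge R (DN (D + 1) (s + 1)) with h2 | h2
        · rcases Nat.lt_or_ge (DN D (s + 1)) (R - DN (D + 1) s) with h3 | h3
          · obtain ⟨L, hL1, hL2, hL3⟩ := ihD s (R - DN (D + 1) s - DN D (s + 1)) (by omega)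
            refine ⟨(D + 1, s) :: (D, s + 1) :: L, ?_, ?_, ?_⟩
            · intro p hp
              rcases List.mem_cons.1 hp with rfl | hp
              · exact ⟨le_rfl, Nat.le_succ s⟩
              · rcases List.mem_cons.1 hp with rfl | hp
                · exact ⟨Nat.le_succ D, le_rfl⟩
                · have := hL1 p hp
                  exact ⟨by omega, by omega⟩
            · simp only [List.map_cons, List.sum_cons, hL2]
              omega
            · simp only [List.length_cons]
              omega
          · obtain ⟨L, hL1, hL2, hL3⟩ := ihD (s + 1) (R - DN (D + 1) s) h3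
            refine ⟨(D + 1, s) :: L, ?_, ?_, ?_⟩
            · intro p hp
              rcases List.mem_cons.1 hp with rfl | hp
              · exact ⟨le_rfl, Nat.le_succ s⟩
              · have := hL1 p hp
                exact ⟨by omega, by omega⟩
            · simp only [List.map_cons, List.sum_cons, hL2]
              omega
            · simp only [List.length_cons]
              omega
        · have hR : R = DN (D + 1) (s + 1) := le_antisymm h h2
          refine ⟨[(D + 1, s + 1)], ?_, ?_, ?_⟩
          · intro p hp
            rw [List.mem_singleton] at hp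
            subst hp
            exact ⟨le_rfl, le_rfl⟩
          · simp [hR]
          · simp only [List.length_singleton]
            omega
      · obtain ⟨L, hL1, hL2, hL3⟩ := ihs R h1
        exact ⟨L, fun p hp => ⟨(hL1 p hp).1, (hL1 p hp).2.trans (Nat.le_succ s)⟩, hL2, hL3⟩

end W_GX_DEC

open W_GX_DEC in
theorem GX_DEC (k D s r : ℕ) (h : r ≤ k * DN D s) : ∃ L : List (ℕ × ℕ), (∀ p ∈ L, p.1 ≤ D ∧ p.2 ≤ s) ∧ (L.map (fun p => DN p.1 p.2)).sum = r ∧ L.length ≤ k + 2 * D := by
  induction k generalizing r with
  | zero =>
    have hr : r = 0 := by omega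
    exact ⟨[], by simp, by simp [hr], by simp⟩
  | succ k ih =>
    rcases Nat.lt_or_ge (DN D s) r with h1 | h1
    · have h2 : (k + 1) * DN D s = k * DN D s + DN D s := by ring
      obtain ⟨L, hL1, hL2, hL3⟩ := ih (r - DN D s) (by omega)
      refine ⟨(D, s) :: L, ?_, ?_, ?_⟩
      · intro p hp
        rcases List.mem_cons.1 hp with rfl | hp
        · exact ⟨le_rfl, le_rfl⟩
        · exact hL1 p hp
      · simp only [List.map_cons, List.sum_cons, hL2]
        omega
      · simp only [List.length_cons]
        omega
    · obtain ⟨L, hL1, hL2, hL3⟩ := claim D s r h1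
      exact ⟨L, hL1, hL2, by omega⟩


end Pool.Agent.H891GAP
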