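import Pool.Agent.H891GAP.Defs
import Pool.Agent.H891GAP.DefsX
import Pool.Agent.H891GAP.GX_BOXM
import Pool.Agent.H891GAP.GX_BOXB
import Pool.Agent.H891GAP.GX_BOXC

set_option autoImplicit false

namespace Pool.Agent.H891GAP

namespace W_GX_PIECE

def Phi (D e : ℕ) (p : (Fin D → ℤ) × Fin e) : (Fin D ⊕ Fin e) → ℤ :=
  Sum.elim p.1 (Pi.single p.2 1)

theorem Phi_inj (D e : ℕ) : Function.Injective (Phi D e) := by
  intro p q h
  have h1 : p.1 = q.1 := by
    funext i
    exact congrFun h (Sum.inl i)
  have h2 : p.2 = q.2 := by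
    have := congrFun h (Sum.inr p.2)
    simp only [Phi, Sum.elim_inr, Pi.single_eq_same] at this
    by_contra hne
    rw [Pi.single_eq_of_ne hne] at this
    exact one_ne_zero this
  exact Prod.ext h1 h2

noncomputable def AA (D m e : ℕ) : Finset ((Fin D ⊕ Fin e) → ℤ) :=
  (box D m ×ˢ (Finset.univ : Finset (Fin e))).image (Phi D e)

theorem card_box (D m : ℕ) : (box D m).card = m ^ D := by
  simp [box, Fintype.card_piFinset]

theorem card_AA (D m e : ℕ) : (AA D m e).card = e * m ^ D := by
  unfold AA
  rw [Finset.card_image_of_injective _ (Phi_inj D e), Finset.card_product, card_box]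
  simp [mul_comm]

theorem zero_notMem (D m e : ℕ) : (0 : (Fin D ⊕ Fin e) → ℤ) ∉ AA D m e := by
  intro h
  unfold AA at h
  rw [Finset.mem_image] at h
  obtain ⟨p, _, hp⟩ := h
  have := congrFun hp (Sum.inr p.2)
  simp [Phi] at this

theorem mult_AA (D m e : ℕ) (v : (Fin D ⊕ Fin e) → ℤ) :
    multG (AA D m e) v = (((box D m ×ˢ (Finset.univ : Finset (Fin e))) ×ˢ
      (box D m ×ˢ (Finset.univ : Finset (Fin e)))).filter
        (fun p => Phi D e p.1 - Phi D e p.2 = v)).card := by
  unfold multG AA
  rw [← Finset.card_image_of_injective _ ((Phi_inj D e).prodMap (Phi_inj D e))]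
  congr 1
  ext q
  simp only [Finset.mem_filter, Finset.mem_product, Finset.mem_image, Finset.mem_univ, and_true]
  constructor
  · rintro ⟨⟨⟨p, hp, hp'⟩, ⟨r, hr, hr'⟩⟩, h⟩
    refine ⟨(p, r), ⟨⟨hp, hr⟩, ?_⟩, ?_⟩
    · rw [hp', hr']; exact h
    · exact Prod.ext hp' hr'
  · rintro ⟨⟨p, r⟩, ⟨⟨hp, hr⟩, h⟩, rfl⟩
    exact ⟨⟨⟨p, hp, rfl⟩, ⟨r, hr, rfl⟩⟩, h⟩

theorem diff_same (D e : ℕ) (p q : (Fin D → ℤ) × Fin e) (u : Fin D → ℤ) :
    Phi D e p - Phi D e q = Sum.elim u 0 ↔ p.1 - q.1 = u ∧ p.2 = q.2 := by
  constructor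
  · intro h
    constructor
    · funext i
      exact congrFun h (Sum.inl i)
    · have := congrFun h (Sum.inr p.2)
      simp only [Phi, Pi.sub_apply, Sum.elim_inr, Pi.single_eq_same, Pi.zero_apply] at this
      by_contra hne
      rw [Pi.single_eq_of_ne hne] at this
      simp at this
  · rintro ⟨h1, h2⟩
    funext i
    rcases i with i | i
    · simp only [Phi, Pi.sub_apply, Sum.elim_inl]
      rw [← h1]; rfl
    · simp only [Phi, Pi.sub_apply, Sum.elim_inr, h2]
      simp

theorem mult_same (D m e : ℕ) (u : Fin D → ℤ) :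
    multG (AA D m e) (Sum.elim u 0) = e * multG (box D m) u := by
  rw [mult_AA]
  have he : e * multG (box D m) u = ((Finset.univ : Finset (Fin e)) ×ˢ
      ((box D m ×ˢ box D m).filter (fun p => p.1 - p.2 = u))).card := by
    rw [Finset.card_product]
    simp [multG]
  rw [he]
  apply Finset.card_nbij' (fun p => (p.1.2, (p.1.1, p.2.1))) (fun q => ((q.2.1, q.1), (q.2.2, q.1)))
  · intro p hp
    simp only [Finset.coe_filter, Finset.mem_product, Finset.mem_univ, and_true, Set.mem_setOf_eq, diff_same] at hp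
    simp only [Finset.coe_product, Set.mem_prod, Finset.mem_coe, Finset.mem_univ, true_and, Finset.mem_filter, Finset.mem_product]
    exact ⟨hp.1, hp.2.1⟩
  · intro q hq
    simp only [Finset.coe_product, Set.mem_prod, Finset.mem_coe, Finset.mem_univ, true_and, Finset.mem_filter, Finset.mem_product] at hq
    simp only [Finset.coe_filter, Finset.mem_product, Finset.mem_univ, and_true, Set.mem_setOf_eq, diff_same]
    exact ⟨hq.1, hq.2⟩
  · intro p hp
    simp only [Finset.coe_filter, Finset.mem_product, Finset.mem_univ, and_true, Set.mem_setOf_eq, diff_same] at hp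
    obtain ⟨⟨x, c⟩, ⟨y, c'⟩⟩ := p
    simp only at hp ⊢
    rw [hp.2.2]
  · intro q hq
    rfl

theorem single_sub (e : ℕ) (c c' d d' : Fin e) (hc : c ≠ c')
    (h : (Pi.single c 1 - Pi.single c' 1 : Fin e → ℤ) = Pi.single d 1 - Pi.single d' 1) :
    d = c ∧ d' = c' := by
  have h1 := congrFun h c
  have h2 := congrFun h c'
  simp only [Pi.sub_apply, Pi.single_apply, if_true, if_neg hc, if_neg hc.symm] at h1 h2
  constructor
  · by_contra hne
    have : ¬ c = d := fun h => hne h.symm
    rw [if_neg this] at h1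
    split_ifs at h1 <;> omega
  · by_contra hne
    have : ¬ c' = d' := fun h => hne h.symm
    rw [if_neg this] at h2
    split_ifs at h2 <;> omega

theorem mult_diff (D m e : ℕ) (p q : (Fin D → ℤ) × Fin e) (hpq : p.2 ≠ q.2) :
    multG (AA D m e) (Phi D e p - Phi D e q) ≤ m ^ D := by
  rw [mult_AA, ← card_box D m]
  apply Finset.card_le_card_of_injOn (fun r => r.1.1)
  · intro r hr
    simp only [Finset.coe_filter, Finset.mem_product, Finset.mem_univ, and_true, Set.mem_setOf_eq] at hr
    exact hr.1.1
  · intro r hr r' hr' hrr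
    simp only [Finset.coe_filter, Finset.mem_product, Finset.mem_univ, and_true, Set.mem_setOf_eq] at hr hr'
    have key : ∀ t : ((Fin D → ℤ) × Fin e) × ((Fin D → ℤ) × Fin e),
        Phi D e t.1 - Phi D e t.2 = Phi D e p - Phi D e q →
        t.1.1 - t.2.1 = p.1 - q.1 ∧ t.1.2 = p.2 ∧ t.2.2 = q.2 := by
      intro t ht
      constructor
      · funext i
        exact congrFun ht (Sum.inl i)
      · apply single_sub e p.2 q.2 t.1.2 t.2.2 hpq
        funext i
        exact (congrFun ht (Sum.inr i)).symm
    obtain ⟨k1, k2, k3⟩ := key r hr.2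
    obtain ⟨l1, l2, l3⟩ := key r' hr'.2
    have hrr' : r.1.1 = r'.1.1 := hrr
    have e1 : r.2.1 = r'.2.1 := by
      have : r.1.1 - r.2.1 = r'.1.1 - r'.2.1 := by rw [k1, l1]
      rw [hrr'] at this
      exact sub_right_injective this
    exact Prod.ext (Prod.ext hrr' (k2.trans l2.symm)) (Prod.ext e1 (k3.trans l3.symm))

end W_GX_PIECE

open W_GX_PIECE in
theorem GX_PIECE (D s m e a b : ℕ) (hb : 1 ≤ b) (hab : b < a) (h1 : a * m ≤ e * m ^ D * (m - s)) (h2 : e * m ^ D * m ≤ b * (m + s + 1)) (h3 : m ^ D ≤ b) (hm : 1 ≤ m) : Rz (e * m ^ D) a b (DN D s) := by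
  classical
  have hmpos : 0 < m := hm
  have hpos : 0 < e * m ^ D * (m - s) := lt_of_lt_of_le (Nat.mul_pos (by omega) hmpos) h1
  have hsm : s < m := by
    by_contra hcon
    have : m - s = 0 := by omega
    rw [this] at hpos
    simp at hpos
  have he : 0 < e := by
    rcases Nat.eq_zero_or_pos e with h | h
    · rw [h] at hpos; simp at hpos
    · exact h
  have small : ∀ u : Fin D → ℤ, (∀ i, (u i).natAbs ≤ m) → ∑ i, (u i).natAbs ≤ s →
      a ≤ multG (AA D m e) (Sum.elim u 0) := by
    intro u hu hs
    rw [mult_same, GX_BOXM D m u hu]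
    have h4 := (GX_BOXB D m s u hu).1 hs
    have h5 : a * m ≤ (e * ∏ i, (m - (u i).natAbs)) * m := by
      calc a * m ≤ e * m ^ D * (m - s) := h1
        _ = e * (m ^ D * (m - s)) := by ring
        _ ≤ e * ((∏ i, (m - (u i).natAbs)) * m) := Nat.mul_le_mul_left _ h4
        _ = (e * ∏ i, (m - (u i).natAbs)) * m := by ring
    exact Nat.le_of_mul_le_mul_right h5 hmpos
  have large : ∀ u : Fin D → ℤ, (∀ i, (u i).natAbs ≤ m) → s + 1 ≤ ∑ i, (u i).natAbs →
      multG (AA D m e) (Sum.elim u 0) ≤ b := by
    intro u hu hs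
    rw [mult_same, GX_BOXM D m u hu]
    have h4 := (GX_BOXB D m s u hu).2 hs
    have h5 : (e * ∏ i, (m - (u i).natAbs)) * (m + s + 1) ≤ b * (m + s + 1) := by
      calc (e * ∏ i, (m - (u i).natAbs)) * (m + s + 1) = e * ((∏ i, (m - (u i).natAbs)) * (m + s + 1)) := by ring
        _ ≤ e * (m ^ D * m) := Nat.mul_le_mul_left _ h4
        _ = e * m ^ D * m := by ring
        _ ≤ b * (m + s + 1) := h2
    exact Nat.le_of_mul_le_mul_right h5 (by omega)
  have hbnd : ∀ x ∈ box D m, ∀ y ∈ box D m, ∀ i, ((x - y) i).natAbs ≤ m := by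
    intro x hx y hy i
    simp only [box, Fintype.mem_piFinset, Finset.mem_Ico] at hx hy
    have := hx i
    have := hy i
    simp only [Pi.sub_apply]
    omega
  have elim_of : ∀ p q : (Fin D → ℤ) × Fin e, p.2 = q.2 → Phi D e p - Phi D e q = Sum.elim (p.1 - q.1) 0 := by
    intro p q h
    exact (diff_same D e p q _).2 ⟨rfl, h⟩
  refine ⟨Fin D ⊕ Fin e, inferInstance, AA D m e, zero_notMem D m e, card_AA D m e, ?_, ?_⟩
  · have hset : (typesG (AA D m e)).filter (fun v => a ≤ multG (AA D m e) v)
        = (((Fintype.piFinset (fun _ : Fin D => Finset.Icc (-(s : ℤ)) s)).filter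
            (fun u => ∑ i, (u i).natAbs ≤ s)).erase 0).image (fun u => (Sum.elim u 0 : (Fin D ⊕ Fin e) → ℤ)) := by
      ext v
      simp only [Finset.mem_filter, Finset.mem_image, Finset.mem_erase, typesG, Finset.mem_product,
        Fintype.mem_piFinset, Finset.mem_Icc]
      constructor
      · rintro ⟨⟨⟨y, z⟩, ⟨⟨hy, hz⟩, hyz⟩, rfl⟩, hv⟩
        simp only [AA, Finset.mem_image, Finset.mem_product, Finset.mem_univ, and_true] at hy hz
        obtain ⟨p, hp, rfl⟩ := hy
        obtain ⟨q, hq, rfl⟩ := hz
        simp only at hyz hv ⊢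
        by_cases hc : p.2 = q.2
        · rw [elim_of p q hc] at hv ⊢
          have hb' := hbnd p.1 hp q.1 hq
          have hl : ∑ i, ((p.1 - q.1) i).natAbs ≤ s := by
            by_contra hcon
            have := large (p.1 - q.1) hb' (by omega)
            omega
          refine ⟨p.1 - q.1, ⟨?_, ?_, hl⟩, rfl⟩
          · intro h0
            apply hyz
            have : p.1 = q.1 := sub_eq_zero.1 h0
            rw [Prod.ext this hc]
          · intro i
            have h6 : ((p.1 - q.1) i).natAbs ≤ s :=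
              le_trans (Finset.single_le_sum (f := fun i => ((p.1 - q.1) i).natAbs) (fun _ _ => Nat.zero_le _) (Finset.mem_univ i)) hl
            omega
        · have := mult_diff D m e p q hc
          omega
      · rintro ⟨u, ⟨hu0, hu1, hu2⟩, rfl⟩
        have hu3 : ∀ i, (u i).natAbs ≤ s := by
          intro i
          have := hu1 i
          omega
        refine ⟨?_, small u (fun i => by have := hu3 i; omega) hu2⟩
        refine ⟨(Phi D e (fun i => max (u i) 0, ⟨0, he⟩), Phi D e (fun i => max (- u i) 0, ⟨0, he⟩)), ⟨⟨?_, ?_⟩, ?_⟩, ?_⟩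
        · simp only [AA, Finset.mem_image, Finset.mem_product, Finset.mem_univ, and_true]
          refine ⟨_, ?_, rfl⟩
          simp only [box, Fintype.mem_piFinset, Finset.mem_Ico]
          intro i
          have := hu3 i
          omega
        · simp only [AA, Finset.mem_image, Finset.mem_product, Finset.mem_univ, and_true]
          refine ⟨_, ?_, rfl⟩
          simp only [box, Fintype.mem_piFinset, Finset.mem_Ico]
          intro i
          have := hu3 i
          omega
        · intro heq
          have := Phi_inj D e heq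
          apply hu0
          funext i
          have h7 := congrFun (congrArg Prod.fst this) i
          simp only at h7
          simp only [Pi.zero_apply]
          omega
        · simp only
          rw [diff_same]
          refine ⟨?_, rfl⟩
          funext i
          simp only [Pi.sub_apply]
          omega
    rw [hset, Finset.card_image_of_injective, Finset.card_erase_of_mem, GX_BOXC]
    · omega
    · simp
    · intro u v huv
      funext i
      exact congrFun huv (Sum.inl i)
  · intro v hv
    simp only [typesG, Finset.mem_image, Finset.mem_filter, Finset.mem_product] at hv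
    obtain ⟨⟨y, z⟩, ⟨⟨hy, hz⟩, hyz⟩, rfl⟩ := hv
    simp only [AA, Finset.mem_image, Finset.mem_product, Finset.mem_univ, and_true] at hy hz
    obtain ⟨p, hp, rfl⟩ := hy
    obtain ⟨q, hq, rfl⟩ := hz
    simp only
    by_cases hc : p.2 = q.2
    · rw [elim_of p q hc]
      have hb' := hbnd p.1 hp q.1 hq
      by_cases hl : ∑ i, ((p.1 - q.1) i).natAbs ≤ s
      · left
        exact small _ hb' hl
      · right
        exact large _ hb' (by omega)
    · right
      exact le_trans (mult_diff D m e p q hc) h3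


end Pool.Agent.H891GAP
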