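import Pool.Agent.H891GAP.Defs
import Pool.Agent.H891GAP.DefsX
import Pool.Agent.H891GAP.GX_PIECE

set_option autoImplicit false

namespace Pool.Agent.H891GAP

namespace W_GX_FIT

theorem rz_zero (a b : ℕ) : Rz 0 a b 0 := by
  refine ⟨Fin 0, inferInstance, ∅, by simp, by simp, ?_, ?_⟩
  · simp [typesG]
  · intro v hv
    simp [typesG] at hv

theorem DN_zero (D : ℕ) : DN D 0 = 0 := by
  cases D <;> simp [DN]

theorem arith (s m M K e : ℤ) (hs : 1 ≤ s) (hm : 2 * s * (s + 1) ≤ m) (hK : 1 ≤ K) (hKM : K ≤ M)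
    (he : 8 * m * M * (m + s + 1) < (e + 1) * (K * m)) :
    (8 * m * M + M) * m ≤ e * K * (m - s) := by
  have hm1 : 4 * s ≤ m := by nlinarith
  have hm0 : 0 < m := by linarith
  have hM0 : 0 < M := by linarith
  have hms : 0 < m - s := by linarith
  have L1 : 8 * m * M * (m + s + 1) - M * m ≤ e * K * m := by
    have : K * m ≤ M * m := by nlinarith
    nlinarith
  have L2 : (8 * m * M * (m + s + 1) - M * m) * (m - s) ≤ e * K * m * (m - s) :=
    mul_le_mul_of_nonneg_right L1 hms.le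
  have L3 : (8 * m * M + M) * m * m ≤ (8 * m * M * (m + s + 1) - M * m) * (m - s) := by
    have e1 : (8 * m * M * (m + s + 1) - M * m) * (m - s) - (8 * m * M + M) * m * m
        = M * m * (8 * (m - s * (s + 1)) - (m - s) - m) := by ring
    have e2 : 0 ≤ M * m * (8 * (m - s * (s + 1)) - (m - s) - m) := by
      apply mul_nonneg (mul_nonneg hM0.le hm0.le)
      nlinarith
    linarith
  have L4 : (8 * m * M + M) * m * m ≤ (e * K * (m - s)) * m := by
    calc (8 * m * M + M) * m * m ≤ e * K * m * (m - s) := L3.trans L2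
      _ = (e * K * (m - s)) * m := by ring
  exact le_of_mul_le_mul_right L4 hm0

end W_GX_FIT

open W_GX_FIT in
theorem GX_FIT (D s m M D' s' : ℕ) (hD : D' ≤ D) (hs : s' ≤ s) (hm : 2 * s * (s + 1) ≤ m) (hm1 : 1 ≤ m) (hM : m ^ D ≤ M) : ∃ X ≤ 16 * m * M, Rz X (8 * m * M + M) (8 * m * M) (DN D' s') := by
  rcases Nat.eq_zero_or_pos s' with h0 | h0
  · subst h0
    exact ⟨0, Nat.zero_le _, by rw [DN_zero]; exact rz_zero _ _⟩
  · have hKpos : 1 ≤ m ^ D' := Nat.one_le_pow _ _ hm1
    have hKM : m ^ D' ≤ M := (Nat.pow_le_pow_right hm1 hD).trans hM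
    have hM1 : 1 ≤ M := hKpos.trans hKM
    have hm' : 2 * s' * (s' + 1) ≤ m := by
      refine le_trans ?_ hm
      gcongr
    have hsm : 4 * s' ≤ m := by nlinarith
    have hT : 1 ≤ 8 * m * M := by nlinarith [Nat.mul_le_mul hm1 hM1]
    have hMT : M ≤ 8 * m * M := by nlinarith
    have hKm : 0 < m ^ D' * m := by positivity
    obtain ⟨e, hedef⟩ : ∃ e, e = 8 * m * M * (m + s' + 1) / (m ^ D' * m) := ⟨_, rfl⟩
    have he1 : e * (m ^ D' * m) ≤ 8 * m * M * (m + s' + 1) := by
      rw [hedef]; exact Nat.div_mul_le_self _ _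
    have he2 : 8 * m * M * (m + s' + 1) < (e + 1) * (m ^ D' * m) := by
      rw [hedef, mul_comm (_ + 1) (m ^ D' * m)]; exact Nat.lt_mul_div_succ _ hKm
    refine ⟨e * m ^ D', ?_, ?_⟩
    · have : e * m ^ D' * m ≤ 16 * m * M * m := by
        calc e * m ^ D' * m = e * (m ^ D' * m) := by ring
          _ ≤ 8 * m * M * (m + s' + 1) := he1
          _ ≤ 8 * m * M * (2 * m) := by
              apply Nat.mul_le_mul_left; omega
          _ = 16 * m * M * m := by ring
      exact Nat.le_of_mul_le_mul_right this hm1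
    · apply GX_PIECE D' s' m e (8 * m * M + M) (8 * m * M) hT (by omega) ?_ ?_ (hKM.trans hMT) hm1
      · have key := W_GX_FIT.arith (s' : ℤ) (m : ℤ) (M : ℤ) ((m ^ D' : ℕ) : ℤ) (e : ℤ) (by exact_mod_cast h0)
          (by exact_mod_cast hm') (by exact_mod_cast hKpos) (by exact_mod_cast hKM) (by exact_mod_cast he2)
        have hsub : ((m - s' : ℕ) : ℤ) = (m : ℤ) - s' := by
          rw [Nat.cast_sub (by omega)]
        zify [show s' ≤ m by omega]
        push_cast at key
        exact key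
      · calc e * m ^ D' * m = e * (m ^ D' * m) := by ring
          _ ≤ _ := he1


end Pool.Agent.H891GAP
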