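import Pool.Agent.H891GAP.Defs
import Pool.Agent.H891GAP.DefsX
import Pool.Agent.H891GAP.GX_CODE
import Pool.Agent.H891GAP.GP_SORT

set_option autoImplicit false

namespace Pool.Agent.H891GAP

namespace W_GX_GAP

theorem mult_neg {G : Type} [AddGroup G] [DecidableEq G] (A : Finset G) (v : G) :
    multG A (-v) = multG A v := by
  unfold multG
  apply Finset.card_bij (fun p _ => (p.2, p.1))
  · intro p hp
    simp only [Finset.mem_filter, Finset.mem_product] at hp ⊢
    refine ⟨⟨hp.1.2, hp.1.1⟩, ?_⟩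
    rw [← neg_sub, hp.2, neg_neg]
  · intro p _ q _ h
    simp only [Prod.mk.injEq] at h
    exact Prod.ext h.2 h.1
  · intro q hq
    simp only [Finset.mem_filter, Finset.mem_product] at hq
    refine ⟨(q.2, q.1), ?_, rfl⟩
    simp only [Finset.mem_filter, Finset.mem_product]
    refine ⟨⟨hq.1.2, hq.1.1⟩, ?_⟩
    rw [← neg_sub, hq.2]

theorem mem_types {G : Type} [AddGroup G] [DecidableEq G] (A : Finset G) (v : G) :
    v ∈ typesG A ↔ ∃ x ∈ A, ∃ y ∈ A, x ≠ y ∧ x - y = v := by
  unfold typesG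
  simp only [Finset.mem_image, Finset.mem_filter, Finset.mem_product, Prod.exists]
  constructor
  · rintro ⟨x, y, ⟨⟨hx, hy⟩, hne⟩, h⟩
    exact ⟨x, hx, y, hy, hne, h⟩
  · rintro ⟨x, hx, y, hy, hne, h⟩
    exact ⟨x, y, ⟨⟨hx, hy⟩, hne⟩, h⟩

theorem types_neg {G : Type} [AddGroup G] [DecidableEq G] (A : Finset G) (v : G) (h : v ∈ typesG A) :
    -v ∈ typesG A := by
  rw [mem_types] at h ⊢
  obtain ⟨x, hx, y, hy, hne, h⟩ := h
  exact ⟨y, hy, x, hx, hne.symm, by rw [← h, neg_sub]⟩

theorem types_ne {G : Type} [AddGroup G] [DecidableEq G] (A : Finset G) (v : G) (h : v ∈ typesG A) :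
    v ≠ 0 := by
  rw [mem_types] at h
  obtain ⟨x, hx, y, hy, hne, h⟩ := h
  rw [← h]
  exact sub_ne_zero.mpr hne

theorem ne_neg {ι : Type} (v : ι → ℤ) (h : v ≠ 0) : v ≠ -v := by
  intro h2
  apply h
  funext i
  have := congrFun h2 i
  simp only [Pi.neg_apply] at this
  simp only [Pi.zero_apply]
  omega

noncomputable def fp {ι : Type} (φ : (ι → ℤ) →+ ℤ) (x : ι → ℤ) : Pt := !₂[((φ x : ℤ) : ℝ), 0]

noncomputable def gd {ι : Type} (φ : (ι → ℤ) →+ ℤ) (v : ι → ℤ) : ℝ := |((φ v : ℤ) : ℝ)|

theorem dist_fp {ι : Type} (φ : (ι → ℤ) →+ ℤ) (x y : ι → ℤ) : dist (fp φ x) (fp φ y) = gd φ (x - y) := by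
  unfold fp gd
  rw [EuclideanSpace.dist_eq, Fin.sum_univ_two]
  simp only [Real.dist_eq, sq_abs, map_sub, Int.cast_sub]
  simp [Real.sqrt_sq_eq_abs]

theorem gd_eq {ι : Type} (φ : (ι → ℤ) →+ ℤ) (v w : ι → ℤ) (h : gd φ v = gd φ w) :
    φ v = φ w ∨ φ v = φ (-w) := by
  unfold gd at h
  rcases abs_eq_abs.mp h with h1 | h1
  · left; exact_mod_cast h1
  · right
    rw [map_neg]
    exact_mod_cast h1

theorem gd_neg {ι : Type} (φ : (ι → ℤ) →+ ℤ) (v : ι → ℤ) : gd φ (-v) = gd φ v := by
  unfold gd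
  rw [map_neg, Int.cast_neg, abs_neg]

end W_GX_GAP

open W_GX_GAP in
theorem GX_GAP {ι : Type} [Fintype ι] (A : Finset (ι → ℤ)) (a b r : ℕ) (hr : 1 ≤ r) (hb : b < a) (g : GoodG A a b r) : ∃ P : Finset Pt, P.card = A.card ∧ a ≤ F P r ∧ F P (r + 1) ≤ b := by
  classical
  obtain ⟨φ, hφ⟩ := GX_CODE A
  have hinj : ∀ x ∈ A, ∀ y ∈ A, fp φ x = fp φ y → x = y := by
    intro x hx y hy h
    have h0 : φ x = φ y := by
      have h1 := congrFun (congrArg (fun q : Pt => (q : Fin 2 → ℝ)) h) 0
      simp only [fp] at h1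
      have h2 : ((φ x : ℤ) : ℝ) = ((φ y : ℤ) : ℝ) := by simpa using h1
      exact_mod_cast h2
    have h3 := hφ x hx y hy x hx x hx (by rw [map_sub, map_sub, h0])
    rw [sub_self] at h3
    exact sub_eq_zero.mp h3
  have hval : ∀ v ∈ typesG A, ∀ w ∈ typesG A, gd φ v = gd φ w → w = v ∨ w = -v := by
    intro v hv w hw h
    rw [mem_types] at hv hw
    obtain ⟨x, hx, y, hy, _, rfl⟩ := hv
    obtain ⟨x', hx', y', hy', _, rfl⟩ := hw
    rcases gd_eq φ _ _ h with h1 | h1
    · left
      exact (hφ x hx y hy x' hx' y' hy' h1).symm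
    · right
      rw [neg_sub] at h1
      have := hφ x hx y hy y' hy' x' hx' h1
      rw [this, neg_sub]
  set P : Finset Pt := A.image (fp φ) with hP
  have hPc : P.card = A.card := Finset.card_image_of_injOn (fun x hx y hy h => hinj x hx y hy h)
  have hdists : ∀ d, d ∈ dists P ↔ ∃ v ∈ typesG A, gd φ v = d := by
    intro d
    unfold dists
    simp only [Finset.mem_image, Finset.mem_filter, Finset.mem_product, Prod.exists, hP]
    constructor
    · rintro ⟨p, q, ⟨⟨⟨x, hx, rfl⟩, ⟨y, hy, rfl⟩⟩, hne⟩, rfl⟩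
      refine ⟨x - y, ?_, (dist_fp φ x y).symm⟩
      rw [mem_types]
      exact ⟨x, hx, y, hy, fun h => hne (by rw [h]), rfl⟩
    · rintro ⟨v, hv, rfl⟩
      rw [mem_types] at hv
      obtain ⟨x, hx, y, hy, hne, rfl⟩ := hv
      exact ⟨fp φ x, fp φ y, ⟨⟨⟨x, hx, rfl⟩, ⟨y, hy, rfl⟩⟩, fun h => hne (hinj x hx y hy h)⟩, dist_fp φ x y⟩
  have hfreq : ∀ v ∈ typesG A, freq P (gd φ v) = multG A v := by
    intro v hv
    have hv0 := types_ne A v hv
    have hcard : ((P ×ˢ P).filter (fun p => p.1 ≠ p.2 ∧ dist p.1 p.2 = gd φ v)).card =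
        multG A v + multG A (-v) := by
      unfold multG
      rw [← Finset.card_union_of_disjoint]
      · symm
        apply Finset.card_bij (fun p _ => (fp φ p.1, fp φ p.2))
        · intro p hp
          simp only [Finset.mem_union, Finset.mem_filter, Finset.mem_product] at hp
          have hp1 : p.1 ∈ A ∧ p.2 ∈ A := by rcases hp with h | h <;> exact h.1
          have hp2 : p.1 - p.2 = v ∨ p.1 - p.2 = -v := by rcases hp with h | h; exact Or.inl h.2; exact Or.inr h.2
          simp only [Finset.mem_filter, Finset.mem_product, hP]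
          refine ⟨⟨Finset.mem_image_of_mem _ hp1.1, Finset.mem_image_of_mem _ hp1.2⟩, ?_, ?_⟩
          · intro h
            have := hinj _ hp1.1 _ hp1.2 h
            rw [this, sub_self] at hp2
            rcases hp2 with h | h
            · exact hv0 h.symm
            · exact hv0 (by rw [← neg_neg v, ← h, neg_zero])
          · rw [dist_fp]
            rcases hp2 with h | h
            · rw [h]
            · rw [h, gd_neg]
        · intro p hp q hq h
          simp only [Finset.mem_union, Finset.mem_filter, Finset.mem_product] at hp hq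
          have hp1 : p.1 ∈ A ∧ p.2 ∈ A := by rcases hp with h | h <;> exact h.1
          have hq1 : q.1 ∈ A ∧ q.2 ∈ A := by rcases hq with h | h <;> exact h.1
          simp only [Prod.mk.injEq] at h
          exact Prod.ext (hinj _ hp1.1 _ hq1.1 h.1) (hinj _ hp1.2 _ hq1.2 h.2)
        · rintro ⟨p, q⟩ hpq
          simp only [Finset.mem_filter, Finset.mem_product, hP, Finset.mem_image] at hpq
          obtain ⟨⟨⟨x, hx, rfl⟩, ⟨y, hy, rfl⟩⟩, hne, hd⟩ := hpq
          refine ⟨(x, y), ?_, rfl⟩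
          simp only [Finset.mem_union, Finset.mem_filter, Finset.mem_product]
          rw [dist_fp] at hd
          have hxy : x - y ∈ typesG A := by
            rw [mem_types]
            exact ⟨x, hx, y, hy, fun h => hne (by rw [h]), rfl⟩
          rcases hval v hv (x - y) hxy hd.symm with h | h
          · exact Or.inl ⟨⟨hx, hy⟩, h⟩
          · exact Or.inr ⟨⟨hx, hy⟩, h⟩
      · rw [Finset.disjoint_left]
        intro p hp hq
        simp only [Finset.mem_filter] at hp hq
        exact ne_neg v hv0 (hp.2.symm.trans hq.2)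
    unfold freq
    have hcard' : ((P ×ˢ P).filter (fun p => p.1 ≠ p.2 ∧ dist p.1 p.2 = gd φ v)).card / 2 = multG A v := by
      rw [hcard, mult_neg]; omega
    convert hcard' using 3
  refine ⟨P, hPc, ?_⟩
  apply GP_SORT P a b r hr hb
  · -- count
    set Pop := (typesG A).filter (fun v => a ≤ multG A v) with hPop
    have himg : (dists P).filter (fun d => a ≤ freq P d) = Pop.image (gd φ) := by
      ext d
      simp only [Finset.mem_filter, Finset.mem_image, hPop]
      constructor
      · rintro ⟨h1, h2⟩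
        obtain ⟨v, hv, rfl⟩ := (hdists d).mp h1
        rw [hfreq v hv] at h2
        exact ⟨v, ⟨hv, h2⟩, rfl⟩
      · rintro ⟨v, ⟨hv, h2⟩, rfl⟩
        refine ⟨(hdists _).mpr ⟨v, hv, rfl⟩, ?_⟩
        rw [hfreq v hv]
        exact h2
    have hfib : ∀ d ∈ Pop.image (gd φ), (Pop.filter (fun v => gd φ v = d)).card = 2 := by
      intro d hd
      rw [Finset.mem_image] at hd
      obtain ⟨v, hv, rfl⟩ := hd
      rw [hPop, Finset.mem_filter] at hv
      have : Pop.filter (fun w => gd φ w = gd φ v) = {v, -v} := by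
        ext w
        simp only [Finset.mem_filter, Finset.mem_insert, Finset.mem_singleton, hPop]
        constructor
        · rintro ⟨⟨hw, _⟩, h⟩
          exact hval v hv.1 w hw h.symm
        · rintro (rfl | rfl)
          · exact ⟨hv, rfl⟩
          · exact ⟨⟨types_neg A v hv.1, by rw [mult_neg]; exact hv.2⟩, gd_neg φ v⟩
      rw [this, Finset.card_pair (ne_neg v (types_ne A v hv.1))]
    have h1 := Finset.card_eq_sum_card_image (gd φ) Pop
    rw [Finset.sum_congr rfl hfib, Finset.sum_const, smul_eq_mul] at h1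
    have h2 : Pop.card = 2 * r := g.1
    have h3 : ((dists P).filter (fun d => a ≤ freq P d)).card = r := by
      rw [himg]; omega
    convert h3 using 2
  · intro d hd
    obtain ⟨v, hv, rfl⟩ := (hdists d).mp hd
    rw [hfreq v hv]
    exact g.2 v hv


end Pool.Agent.H891GAP
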