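import Pool.Agent.H891GAP.Defs
import Pool.Agent.H891GAP.DefsX

set_option autoImplicit false

namespace Pool.Agent.H891GAP

namespace W_GX_UNION

theorem mem_typesG352 {G : Type} [AddGroup G] [DecidableEq G] (A : Finset G) (v : G) :
    v ∈ typesG A ↔ ∃ x ∈ A, ∃ y ∈ A, x ≠ y ∧ x - y = v := by
  simp only [typesG, Finset.mem_image, Finset.mem_filter, Finset.mem_product, Prod.exists]
  constructor
  · rintro ⟨x, y, ⟨⟨hx, hy⟩, hne⟩, h⟩
    exact ⟨x, hx, y, hy, hne, h⟩
  · rintro ⟨x, hx, y, hy, hne, h⟩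
    exact ⟨x, y, ⟨⟨hx, hy⟩, hne⟩, h⟩

theorem ne_zero352 {G : Type} [AddGroup G] [DecidableEq G] (A : Finset G) (v : G)
    (h : v ∈ typesG A) : v ≠ 0 := by
  obtain ⟨x, _, y, _, hne, rfl⟩ := (mem_typesG352 A v).1 h
  exact sub_ne_zero.2 hne

theorem trans352 {G : Type} [AddCommGroup G] [DecidableEq G] (A : Finset G) (t : G) (a b r : ℕ)
    (h : GoodG A a b r) : GoodG (A.image (· + t)) a b r := by
  have hm : ∀ v, multG (A.image (· + t)) v = multG A v := by
    intro v
    unfold multG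
    have h1 : ((A.image (· + t) ×ˢ A.image (· + t)).filter (fun p => p.1 - p.2 = v)) =
        ((A ×ˢ A).filter (fun p => p.1 - p.2 = v)).image (fun p => (p.1 + t, p.2 + t)) := by
      ext ⟨s, u⟩
      simp only [Finset.mem_filter, Finset.mem_product, Finset.mem_image, Prod.exists,
        Prod.mk.injEq]
      constructor
      · rintro ⟨⟨⟨x, hx, rfl⟩, ⟨y, hy, rfl⟩⟩, h⟩
        exact ⟨x, y, ⟨⟨hx, hy⟩, by rw [← h]; abel⟩, rfl, rfl⟩
      · rintro ⟨x, y, ⟨⟨hx, hy⟩, h⟩, rfl, rfl⟩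
        exact ⟨⟨⟨x, hx, rfl⟩, ⟨y, hy, rfl⟩⟩, by rw [← h]; abel⟩
    rw [h1, Finset.card_image_of_injective]
    intro p q hpq
    simp only [Prod.mk.injEq, add_left_inj] at hpq
    exact Prod.ext hpq.1 hpq.2
  have ht : typesG (A.image (· + t)) = typesG A := by
    ext v
    rw [mem_typesG352, mem_typesG352]
    constructor
    · rintro ⟨x', hx', y', hy', hne, h⟩
      obtain ⟨x, hx, rfl⟩ := Finset.mem_image.1 hx'
      obtain ⟨y, hy, rfl⟩ := Finset.mem_image.1 hy'
      exact ⟨x, hx, y, hy, fun e => hne (by rw [e]), by rw [← h]; abel⟩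
    · rintro ⟨x, hx, y, hy, hne, h⟩
      exact ⟨x + t, Finset.mem_image_of_mem _ hx, y + t, Finset.mem_image_of_mem _ hy,
        fun e => hne (add_right_cancel e), by rw [← h]; abel⟩
  unfold GoodG at h ⊢
  rw [ht]
  simp only [hm]
  exact h

theorem wlog352 (n a b r : ℕ) (h : Rz n a b r) :
    ∃ (ι : Type) (_ : Fintype ι) (A : Finset (ι → ℤ)), (∀ x ∈ A, -x ∉ A) ∧ A.card = n ∧
      GoodG A a b r := by
  obtain ⟨ι, hι, A, h0, hn, hg⟩ := h
  rcases isEmpty_or_nonempty ι with he | ⟨⟨i0⟩⟩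
  · refine ⟨ι, hι, A, ?_, hn, hg⟩
    intro x hx
    have h1 : x = 0 := Subsingleton.elim _ _
    exact absurd (h1 ▸ hx) h0
  · refine ⟨ι, hι, A.image (· + (fun _ => (∑ x ∈ A, |x i0|) + 1 : ι → ℤ)), ?_, ?_,
      trans352 A _ a b r hg⟩
    · intro z hz hz'
      obtain ⟨x, hx, rfl⟩ := Finset.mem_image.1 hz
      obtain ⟨y, hy, h1⟩ := Finset.mem_image.1 hz'
      have hb : ∀ w ∈ A, |w i0| ≤ ∑ x ∈ A, |x i0| := fun w hw =>
        Finset.single_le_sum (f := fun x : ι → ℤ => |x i0|) (fun _ _ => abs_nonneg _) hw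
      have h2 := congrFun h1 i0
      simp only [Pi.add_apply, Pi.neg_apply] at h2
      have h3 := hb x hx
      have h4 := hb y hy
      have h5 := neg_abs_le (x i0)
      have h6 := neg_abs_le (y i0)
      omega
    · rw [Finset.card_image_of_injective _ (add_left_injective _), hn]

section gen
variable {G H K : Type} [AddCommGroup G] [AddCommGroup H] [AddCommGroup K]
  [DecidableEq G] [DecidableEq H] [DecidableEq K]

theorem inj352 (f : G →+ K) (g : H →+ K) (hfg : ∀ x y, f x = g y → x = 0 ∧ y = 0) :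
    Function.Injective f := by
  intro x y h
  have h1 := (hfg (x - y) 0 (by rw [map_sub, h, sub_self, map_zero])).1
  exact sub_eq_zero.1 h1

theorem multL352 (f : G →+ K) (g : H →+ K) (hfg : ∀ x y, f x = g y → x = 0 ∧ y = 0)
    (A : Finset G) (B : Finset H) (hB : (0:H) ∉ B) (v : G) (hv : v ≠ 0) :
    multG (A.image f ∪ B.image g) (f v) = multG A v := by
  have finj := inj352 f g hfg
  unfold multG
  have h1 : (((A.image f ∪ B.image g) ×ˢ (A.image f ∪ B.image g)).filter
      (fun p => p.1 - p.2 = f v)) =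
      ((A ×ˢ A).filter (fun p => p.1 - p.2 = v)).image (fun p => (f p.1, f p.2)) := by
    ext ⟨s, t⟩
    simp only [Finset.mem_filter, Finset.mem_product, Finset.mem_union, Finset.mem_image,
      Prod.exists, Prod.mk.injEq]
    constructor
    · rintro ⟨⟨⟨x, hx, rfl⟩ | ⟨x, hx, rfl⟩, ⟨y, hy, rfl⟩ | ⟨y, hy, rfl⟩⟩, h⟩
      · exact ⟨x, y, ⟨⟨hx, hy⟩, finj (by rw [map_sub]; exact h)⟩, rfl, rfl⟩
      · exfalso
        have h2 := (hfg (x - v) y (by rw [map_sub, ← h]; abel)).2
        exact hB (h2 ▸ hy)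
      · exfalso
        have h2 := (hfg (v + y) x (by rw [map_add, ← h]; abel)).2
        exact hB (h2 ▸ hx)
      · exfalso
        have h2 := (hfg v (x - y) (by rw [map_sub, ← h])).1
        exact hv h2
    · rintro ⟨x, y, ⟨⟨hx, hy⟩, h⟩, rfl, rfl⟩
      exact ⟨⟨Or.inl ⟨x, hx, rfl⟩, Or.inl ⟨y, hy, rfl⟩⟩, by rw [← map_sub, h]⟩
  rw [h1, Finset.card_image_of_injective]
  intro p q hpq
  simp only [Prod.mk.injEq] at hpq
  exact Prod.ext (finj hpq.1) (finj hpq.2)

theorem cross352 (f : G →+ K) (g : H →+ K) (hfg : ∀ x y, f x = g y → x = 0 ∧ y = 0)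
    (A : Finset G) (B : Finset H) (hA : ∀ x ∈ A, -x ∉ A) (hB : (0:H) ∉ B) (x : G) (hx : x ∈ A)
    (y : H) (hy : y ∈ B) :
    multG (A.image f ∪ B.image g) (f x - g y) ≤ 1 ∧
    multG (A.image f ∪ B.image g) (g y - f x) ≤ 1 := by
  have hA0 : (0:G) ∉ A := fun h => hA 0 h (by rwa [neg_zero])
  have hx0 : x ≠ 0 := fun h => hA0 (h ▸ hx)
  have hy0 : y ≠ 0 := fun h => hB (h ▸ hy)
  unfold multG
  constructor
  · rw [← Finset.card_singleton (f x, g y)]
    apply Finset.card_le_card
    rintro ⟨s, t⟩ hst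
    simp only [Finset.mem_filter, Finset.mem_product, Finset.mem_union, Finset.mem_image] at hst
    rw [Finset.mem_singleton, Prod.mk.injEq]
    obtain ⟨⟨⟨x', hx', rfl⟩ | ⟨x', hx', rfl⟩, ⟨y', hy', rfl⟩ | ⟨y', hy', rfl⟩⟩, h⟩ := hst
    · exfalso
      have h2 := (hfg (x - x' + y') y (by
        rw [map_add, map_sub]
        have h3 : f x = f x' - f y' + g y := by rw [h]; abel
        rw [h3]; abel)).2
      exact hy0 h2
    · have h2 := hfg (x' - x) (y' - y) (by
        rw [map_sub, map_sub]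
        have h3 : f x' = f x - g y + g y' := by rw [← h]; abel
        rw [h3]; abel)
      rw [sub_eq_zero.1 h2.1, sub_eq_zero.1 h2.2]
      exact ⟨rfl, rfl⟩
    · exfalso
      have h2 := (hfg (x + y') (x' + y) (by
        rw [map_add, map_add]
        have h3 : f x = g x' - f y' + g y := by rw [h]; abel
        rw [h3]; abel)).1
      have h4 : y' = -x := by rw [← sub_eq_zero, sub_neg_eq_add, add_comm]; exact h2
      exact hA x hx (h4 ▸ hy')
    · exfalso
      have h2 := (hfg x (x' - y' + y) (by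
        rw [map_add, map_sub, h]; abel)).1
      exact hx0 h2
  · rw [← Finset.card_singleton (g y, f x)]
    apply Finset.card_le_card
    rintro ⟨s, t⟩ hst
    simp only [Finset.mem_filter, Finset.mem_product, Finset.mem_union, Finset.mem_image] at hst
    rw [Finset.mem_singleton, Prod.mk.injEq]
    obtain ⟨⟨⟨x', hx', rfl⟩ | ⟨x', hx', rfl⟩, ⟨y', hy', rfl⟩ | ⟨y', hy', rfl⟩⟩, h⟩ := hst
    · exfalso
      have h2 := (hfg (x' - y' + x) y (by
        rw [map_add, map_sub, h]; abel)).2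
      exact hy0 h2
    · exfalso
      have h2 := (hfg (x' + x) (y + y') (by
        rw [map_add, map_add]
        have h3 : f x' = g y - f x + g y' := by rw [← h]; abel
        rw [h3]; abel)).1
      have h4 : x' = -x := by rw [← sub_eq_zero, sub_neg_eq_add]; exact h2
      exact hA x hx (h4 ▸ hx')
    · have h2 := hfg (y' - x) (x' - y) (by
        rw [map_sub, map_sub]
        have h3 : g x' = g y - f x + f y' := by rw [← h]; abel
        rw [h3]; abel)
      rw [sub_eq_zero.1 h2.1, sub_eq_zero.1 h2.2]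
      exact ⟨rfl, rfl⟩
    · exfalso
      have h2 := (hfg x (y - x' + y') (by
        rw [map_add, map_sub]
        have h3 : g x' = g y - f x + g y' := by rw [← h]; abel
        rw [h3]; abel)).1
      exact hx0 h2

theorem good352 (f : G →+ K) (g : H →+ K) (hfg : ∀ x y, f x = g y → x = 0 ∧ y = 0)
    (A : Finset G) (B : Finset H) (hA : ∀ x ∈ A, -x ∉ A) (hB : (0:H) ∉ B) (a b r r' : ℕ)
    (hb : 1 ≤ b) (hab : b < a) (h : GoodG A a b r) (h' : GoodG B a b r') :
    GoodG (A.image f ∪ B.image g) a b (r + r') := by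
  have hA0 : (0:G) ∉ A := fun h => hA 0 h (by rwa [neg_zero])
  have hgf : ∀ x y, g x = f y → x = 0 ∧ y = 0 := fun x y e => ⟨(hfg y x e.symm).2, (hfg y x e.symm).1⟩
  have finj := inj352 f g hfg
  have ginj := inj352 g f hgf
  have mL : ∀ v, v ≠ 0 → multG (A.image f ∪ B.image g) (f v) = multG A v :=
    fun v hv => multL352 f g hfg A B hB v hv
  have mR : ∀ v, v ≠ 0 → multG (A.image f ∪ B.image g) (g v) = multG B v := by
    intro v hv
    rw [Finset.union_comm]
    exact multL352 g f hgf B A hA0 v hv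
  have tL : ∀ v ∈ typesG A, f v ∈ typesG (A.image f ∪ B.image g) := by
    intro v hv
    obtain ⟨x, hx, y, hy, hne, rfl⟩ := (mem_typesG352 A v).1 hv
    rw [mem_typesG352]
    exact ⟨f x, Finset.mem_union_left _ (Finset.mem_image_of_mem _ hx), f y,
      Finset.mem_union_left _ (Finset.mem_image_of_mem _ hy), fun e => hne (finj e),
      (map_sub f x y).symm⟩
  have tR : ∀ v ∈ typesG B, g v ∈ typesG (A.image f ∪ B.image g) := by
    intro v hv
    obtain ⟨x, hx, y, hy, hne, rfl⟩ := (mem_typesG352 B v).1 hv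
    rw [mem_typesG352]
    exact ⟨g x, Finset.mem_union_right _ (Finset.mem_image_of_mem _ hx), g y,
      Finset.mem_union_right _ (Finset.mem_image_of_mem _ hy), fun e => hne (ginj e),
      (map_sub g x y).symm⟩
  have cs : ∀ d ∈ typesG (A.image f ∪ B.image g), (∃ v ∈ typesG A, d = f v) ∨
      (∃ w ∈ typesG B, d = g w) ∨ multG (A.image f ∪ B.image g) d ≤ 1 := by
    intro d hd
    obtain ⟨s, hs, t, ht, hne, rfl⟩ := (mem_typesG352 _ d).1 hd
    rcases Finset.mem_union.1 hs with hs | hs <;> rcases Finset.mem_union.1 ht with ht | ht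
    · obtain ⟨x, hx, rfl⟩ := Finset.mem_image.1 hs
      obtain ⟨y, hy, rfl⟩ := Finset.mem_image.1 ht
      exact Or.inl ⟨x - y, (mem_typesG352 A _).2 ⟨x, hx, y, hy, fun e => hne (by rw [e]), rfl⟩,
        (map_sub f x y).symm⟩
    · obtain ⟨x, hx, rfl⟩ := Finset.mem_image.1 hs
      obtain ⟨y, hy, rfl⟩ := Finset.mem_image.1 ht
      exact Or.inr (Or.inr (cross352 f g hfg A B hA hB x hx y hy).1)
    · obtain ⟨x, hx, rfl⟩ := Finset.mem_image.1 hs
      obtain ⟨y, hy, rfl⟩ := Finset.mem_image.1 ht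
      exact Or.inr (Or.inr (cross352 f g hfg A B hA hB y hy x hx).2)
    · obtain ⟨x, hx, rfl⟩ := Finset.mem_image.1 hs
      obtain ⟨y, hy, rfl⟩ := Finset.mem_image.1 ht
      exact Or.inr (Or.inl ⟨x - y, (mem_typesG352 B _).2
        ⟨x, hx, y, hy, fun e => hne (by rw [e]), rfl⟩, (map_sub g x y).symm⟩)
  constructor
  · have heq : (typesG (A.image f ∪ B.image g)).filter
        (fun v => a ≤ multG (A.image f ∪ B.image g) v) =
        ((typesG A).filter (fun v => a ≤ multG A v)).image f ∪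
        ((typesG B).filter (fun v => a ≤ multG B v)).image g := by
      ext d
      rw [Finset.mem_filter, Finset.mem_union, Finset.mem_image, Finset.mem_image]
      constructor
      · rintro ⟨h1, h2⟩
        rcases cs d h1 with ⟨v, hv, rfl⟩ | ⟨v, hv, rfl⟩ | h3
        · rw [mL v (ne_zero352 A v hv)] at h2
          exact Or.inl ⟨v, Finset.mem_filter.2 ⟨hv, h2⟩, rfl⟩
        · rw [mR v (ne_zero352 B v hv)] at h2
          exact Or.inr ⟨v, Finset.mem_filter.2 ⟨hv, h2⟩, rfl⟩
        · omega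
      · rintro (⟨v, hv, rfl⟩ | ⟨v, hv, rfl⟩)
        · obtain ⟨h1, h2⟩ := Finset.mem_filter.1 hv
          exact ⟨tL v h1, by rw [mL v (ne_zero352 A v h1)]; exact h2⟩
        · obtain ⟨h1, h2⟩ := Finset.mem_filter.1 hv
          exact ⟨tR v h1, by rw [mR v (ne_zero352 B v h1)]; exact h2⟩
    rw [heq, Finset.card_union_of_disjoint, Finset.card_image_of_injective _ finj,
      Finset.card_image_of_injective _ ginj, h.1, h'.1]
    · ring
    · rw [Finset.disjoint_left]
      intro d h1 h2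
      obtain ⟨v, hv, rfl⟩ := Finset.mem_image.1 h1
      obtain ⟨w, hw, h3⟩ := Finset.mem_image.1 h2
      exact ne_zero352 A v (Finset.mem_filter.1 hv).1 (hfg v w h3.symm).1
  · intro d hd
    rcases cs d hd with ⟨v, hv, rfl⟩ | ⟨v, hv, rfl⟩ | h3
    · rw [mL v (ne_zero352 A v hv)]
      exact h.2 v hv
    · rw [mR v (ne_zero352 B v hv)]
      exact h'.2 v hv
    · exact Or.inr (h3.trans hb)

end gen

end W_GX_UNION

open W_GX_UNION in
theorem GX_UNION (n n' a b r r' : ℕ) (hb : 1 ≤ b) (hab : b < a) (h : Rz n a b r) (h' : Rz n' a b r') : Rz (n + n') a b (r + r') := by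
  obtain ⟨ι, hι, A, hA, hn, hg⟩ := wlog352 n a b r h
  obtain ⟨κ, hκ, B, hB, hn', hg'⟩ := h'
  have hA0 : (0:ι → ℤ) ∉ A := fun h => hA 0 h (by rwa [neg_zero])
  let f : (ι → ℤ) →+ (ι ⊕ κ → ℤ) :=
    { toFun := fun x => Sum.elim x 0
      map_zero' := by ext i; cases i <;> rfl
      map_add' := by intro x y; ext i; cases i <;> simp }
  let g : (κ → ℤ) →+ (ι ⊕ κ → ℤ) :=
    { toFun := fun y => Sum.elim 0 y
      map_zero' := by ext i; cases i <;> rfl
      map_add' := by intro x y; ext i; cases i <;> simp }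
  have hfg : ∀ x y, f x = g y → x = 0 ∧ y = 0 := by
    intro x y h
    constructor
    · ext i; exact congrFun h (Sum.inl i)
    · ext i; exact (congrFun h (Sum.inr i)).symm
  have hgf : ∀ x y, g x = f y → x = 0 ∧ y = 0 := fun x y e => ⟨(hfg y x e.symm).2, (hfg y x e.symm).1⟩
  refine ⟨ι ⊕ κ, inferInstance, A.image f ∪ B.image g, ?_, ?_, ?_⟩
  · intro h0
    rcases Finset.mem_union.1 h0 with h0 | h0
    · obtain ⟨x, hx, h1⟩ := Finset.mem_image.1 h0
      have h2 := (hfg x 0 (by rw [h1, map_zero])).1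
      exact hA0 (h2 ▸ hx)
    · obtain ⟨x, hx, h1⟩ := Finset.mem_image.1 h0
      have h2 := (hgf x 0 (by rw [h1, map_zero])).1
      exact hB (h2 ▸ hx)
  · rw [Finset.card_union_of_disjoint, Finset.card_image_of_injective _ (inj352 f g hfg),
      Finset.card_image_of_injective _ (inj352 g f hgf), hn, hn']
    rw [Finset.disjoint_left]
    intro d h1 h2
    obtain ⟨v, hv, rfl⟩ := Finset.mem_image.1 h1
    obtain ⟨w, hw, h3⟩ := Finset.mem_image.1 h2
    exact hA0 ((hfg v w h3.symm).1 ▸ hv)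
  · exact good352 f g hfg A B hA hB a b r r' hb hab hg hg'


end Pool.Agent.H891GAP
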