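import Pool.Agent.H891GAP.Defs
import Pool.Agent.H891GAP.DefsX
import Pool.Agent.H891GAP.GX_UNION

set_option autoImplicit false

namespace Pool.Agent.H891GAP

namespace W_GX_PAD

def emb {ι : Type} (x : ι → ℤ) : Option ι → ℤ := fun o => o.elim 0 x
def ee {ι : Type} : Option ι → ℤ := fun o => o.elim 1 (fun _ => 0)

theorem emb_inj {ι : Type} : Function.Injective (emb : (ι → ℤ) → (Option ι → ℤ)) := by
  intro x y h
  funext i
  exact congrFun h (some i)

theorem emb_sub {ι : Type} (x y : ι → ℤ) : emb x - emb y = emb (x - y) := by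
  funext o
  cases o <;> simp [emb]

theorem step (n a b r : ℕ) (hb : 1 ≤ b) (hab : b < a) (h : Rz n a b r) : Rz (n+1) a b r := by
  obtain ⟨ι, hι, A, h0, hc, hG1, hG2⟩ := h
  have hmem : ∀ p, p ∈ insert ee (A.image emb) ↔ p = ee ∨ ∃ x ∈ A, emb x = p := by
    intro p
    simp
  have hen : (ee : Option ι → ℤ) none = 1 := rfl
  have hemn : ∀ x : ι → ℤ, emb x none = 0 := fun x => rfl
  have hnotin : (ee : Option ι → ℤ) ∉ A.image emb := by
    intro hm
    obtain ⟨x, hx, hxe⟩ := Finset.mem_image.1 hm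
    have := congrFun hxe none
    rw [hemn, hen] at this
    exact zero_ne_one this
  have hmul : ∀ v : ι → ℤ, v ≠ 0 → multG (insert ee (A.image emb)) (emb v) = multG A v := by
    intro v hv
    unfold multG
    rw [← Finset.card_image_of_injective ((A ×ˢ A).filter (fun p => p.1 - p.2 = v))
      (emb_inj.prodMap emb_inj)]
    congr 1
    ext ⟨p, q⟩
    simp only [Finset.mem_filter, Finset.mem_product, hmem]
    constructor
    · rintro ⟨⟨hp, hq⟩, hpq⟩
      rcases hp with rfl | ⟨x, hx, rfl⟩ <;> rcases hq with rfl | ⟨y, hy, rfl⟩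
      · exfalso
        apply hv
        rw [sub_self] at hpq
        funext i
        exact (congrFun hpq (some i)).symm
      · exfalso
        have := congrFun hpq none
        simp only [Pi.sub_apply, hen, hemn] at this
        omega
      · exfalso
        have := congrFun hpq none
        simp only [Pi.sub_apply, hen, hemn] at this
        omega
      · refine Finset.mem_image.2 ⟨(x, y), ?_, rfl⟩
        rw [emb_sub] at hpq
        exact Finset.mem_filter.2 ⟨Finset.mem_product.2 ⟨hx, hy⟩, emb_inj hpq⟩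
    · intro hpq
      obtain ⟨⟨x, y⟩, hxy, hpq⟩ := Finset.mem_image.1 hpq
      obtain ⟨hxy1, hxy2⟩ := Finset.mem_filter.1 hxy
      obtain ⟨hx, hy⟩ := Finset.mem_product.1 hxy1
      have h1 : emb x = p := congrArg Prod.fst hpq
      have h2 : emb y = q := congrArg Prod.snd hpq
      refine ⟨⟨Or.inr ⟨x, hx, h1⟩, Or.inr ⟨y, hy, h2⟩⟩, ?_⟩
      rw [← h1, ← h2, emb_sub]
      exact congrArg emb hxy2
  have hone : ∀ w : Option ι → ℤ, w none ≠ 0 → multG (insert ee (A.image emb)) w ≤ 1 := by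
    intro w hw
    unfold multG
    rw [Finset.card_le_one]
    rintro ⟨p, q⟩ hpq ⟨p', q'⟩ hpq'
    simp only [Finset.mem_filter, Finset.mem_product, hmem] at hpq hpq'
    obtain ⟨⟨hp, hq⟩, h1⟩ := hpq
    obtain ⟨⟨hp', hq'⟩, h2⟩ := hpq'
    have hcl : ∀ p q : Option ι → ℤ, (p = ee ∨ ∃ x ∈ A, emb x = p) → (q = ee ∨ ∃ x ∈ A, emb x = q) →
        p - q = w → (p = ee ∧ w none = 1) ∨ (q = ee ∧ w none = -1) := by
      rintro p q hp hq rfl
      rcases hp with rfl | ⟨x, hx, rfl⟩ <;> rcases hq with rfl | ⟨y, hy, rfl⟩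
      · exact absurd (by simp) hw
      · left
        refine ⟨rfl, ?_⟩
        simp only [Pi.sub_apply, hen, hemn]
        omega
      · right
        refine ⟨rfl, ?_⟩
        simp only [Pi.sub_apply, hen, hemn]
        omega
      · exact absurd (by simp only [Pi.sub_apply, hemn]; omega) hw
    have h3 : p - q = p' - q' := h1.trans h2.symm
    rcases hcl p q hp hq h1 with ⟨hpe, hw1⟩ | ⟨hqe, hw1⟩ <;>
      rcases hcl p' q' hp' hq' h2 with ⟨hpe', hw2⟩ | ⟨hqe', hw2⟩
    · rw [hpe, hpe'] at h3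
      rw [hpe, hpe', sub_right_inj.1 h3]
    · omega
    · omega
    · rw [hqe, hqe'] at h3
      rw [hqe, hqe', sub_left_inj.1 h3]
  have htyp : ∀ w ∈ typesG (insert ee (A.image emb)), w none = 0 → ∃ v ∈ typesG A, emb v = w := by
    intro w hw hw0
    obtain ⟨⟨p, q⟩, hpq, rfl⟩ := Finset.mem_image.1 hw
    obtain ⟨hpq1, hne⟩ := Finset.mem_filter.1 hpq
    obtain ⟨hp, hq⟩ := Finset.mem_product.1 hpq1
    rcases (hmem p).1 hp with rfl | ⟨x, hx, rfl⟩ <;> rcases (hmem q).1 hq with rfl | ⟨y, hy, rfl⟩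
    · exact absurd rfl hne
    · simp only [Pi.sub_apply, hen, hemn] at hw0
      omega
    · simp only [Pi.sub_apply, hen, hemn] at hw0
      omega
    · refine ⟨x - y, ?_, (emb_sub x y).symm⟩
      refine Finset.mem_image.2 ⟨(x, y), ?_, rfl⟩
      refine Finset.mem_filter.2 ⟨Finset.mem_product.2 ⟨hx, hy⟩, ?_⟩
      intro hxy
      apply hne
      exact congrArg emb hxy
  have hne0 : ∀ v ∈ typesG A, v ≠ 0 := by
    intro v hv
    obtain ⟨⟨x, y⟩, hxy, rfl⟩ := Finset.mem_image.1 hv
    exact sub_ne_zero.2 (Finset.mem_filter.1 hxy).2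
  have htyp2 : ∀ v ∈ typesG A, emb v ∈ typesG (insert ee (A.image emb)) := by
    intro v hv
    obtain ⟨⟨x, y⟩, hxy, rfl⟩ := Finset.mem_image.1 hv
    obtain ⟨hxy1, hne⟩ := Finset.mem_filter.1 hxy
    obtain ⟨hx, hy⟩ := Finset.mem_product.1 hxy1
    refine Finset.mem_image.2 ⟨(emb x, emb y), ?_, emb_sub x y⟩
    refine Finset.mem_filter.2 ⟨Finset.mem_product.2 ⟨?_, ?_⟩, fun h => hne (emb_inj h)⟩
    · exact (hmem _).2 (Or.inr ⟨x, hx, rfl⟩)
    · exact (hmem _).2 (Or.inr ⟨y, hy, rfl⟩)
  refine ⟨Option ι, inferInstance, insert ee (A.image emb), ?_, ?_, ?_, ?_⟩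
  · intro hm
    rcases (hmem 0).1 hm with h | ⟨x, hx, h⟩
    · have := congrFun h none
      exact zero_ne_one this
    · apply h0
      have hx0 : x = 0 := by
        funext i
        exact congrFun h (some i)
      rwa [hx0] at hx
  · rw [Finset.card_insert_of_notMem hnotin, Finset.card_image_of_injective _ emb_inj, hc]
  · rw [← hG1, ← Finset.card_image_of_injective ((typesG A).filter (fun v => a ≤ multG A v)) emb_inj]
    refine congrArg Finset.card (Finset.ext (fun w => ?_))
    constructor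
    · intro hw
      obtain ⟨hw1, hw2⟩ := Finset.mem_filter.1 hw
      have hw0 : w none = 0 := by
        by_contra hcon
        have := hone w hcon
        omega
      obtain ⟨v, hv, rfl⟩ := htyp w hw1 hw0
      refine Finset.mem_image.2 ⟨v, Finset.mem_filter.2 ⟨hv, ?_⟩, rfl⟩
      rw [← hmul v (hne0 v hv)]
      exact hw2
    · intro hw
      obtain ⟨v, hv, rfl⟩ := Finset.mem_image.1 hw
      obtain ⟨hv1, hv2⟩ := Finset.mem_filter.1 hv
      refine Finset.mem_filter.2 ⟨htyp2 v hv1, ?_⟩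
      rw [hmul v (hne0 v hv1)]
      exact hv2
  · intro w hw
    by_cases hw0 : w none = 0
    · obtain ⟨v, hv, rfl⟩ := htyp w hw hw0
      rw [hmul v (hne0 v hv)]
      exact hG2 v hv
    · right
      exact (hone w hw0).trans hb

end W_GX_PAD

open W_GX_PAD in
theorem GX_PAD (n n' a b r : ℕ) (hb : 1 ≤ b) (hab : b < a) (h : Rz n a b r) (hn : n ≤ n') : Rz n' a b r := by
  induction n', hn using Nat.le_induction with
  | base => exact h
  | succ m _ ih => exact step m a b r hb hab ih


end Pool.Agent.H891GAP
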