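import Pool.Agent.H891GAP.Defs
import Pool.Agent.H891GAP.DefsX
import Pool.Agent.H891GAP.GX_GAP
import Pool.Agent.H891GAP.GX_UNION
import Pool.Agent.H891GAP.GX_PAD
import Pool.Agent.H891GAP.GX_FIT
import Pool.Agent.H891GAP.GX_DEC

set_option autoImplicit false

namespace Pool.Agent.H891GAP

namespace W_GX_GEN

theorem list_piece (D s m M : ℕ) (hm : 2 * s * (s + 1) ≤ m) (hm1 : 1 ≤ m) (hM : m ^ D ≤ M)
    (hb : 1 ≤ 8 * m * M) (hab : 8 * m * M < 8 * m * M + M) (L : List (ℕ × ℕ))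
    (hL : ∀ p ∈ L, p.1 ≤ D ∧ p.2 ≤ s) :
    ∃ X ≤ L.length * (16 * m * M), Rz X (8 * m * M + M) (8 * m * M)
      ((L.map (fun p => DN p.1 p.2)).sum) := by
  induction L with
  | nil =>
    refine ⟨0, Nat.zero_le _, Fin 0, inferInstance, ∅, Finset.notMem_empty _, rfl, ?_, ?_⟩
    · simp [typesG]
    · intro v hv
      simp [typesG] at hv
  | cons p L ih =>
    obtain ⟨X, hX, hR⟩ := ih (fun q hq => hL q (List.mem_cons_of_mem _ hq))
    have hp := hL p List.mem_cons_self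
    obtain ⟨Y, hY, hR'⟩ := GX_FIT D s m M p.1 p.2 hp.1 hp.2 hm hm1 hM
    refine ⟨Y + X, ?_, ?_⟩
    · rw [List.length_cons, add_mul, one_mul, add_comm (L.length * (16 * m * M))]
      exact Nat.add_le_add hY hX
    · rw [List.map_cons, List.sum_cons]
      exact GX_UNION Y X _ _ _ _ hb hab hR' hR

end W_GX_GEN

open W_GX_GEN in
theorem GX_GEN (n k D s m M r : ℕ) (hr : 1 ≤ r) (h : r ≤ k * DN D s) (hm : 2 * s * (s + 1) ≤ m) (hm1 : 1 ≤ m) (hM : m ^ D ≤ M) (hn : (k + 2 * D) * (16 * m * M) ≤ n) : ∃ P : Finset Pt, P.card = n ∧ 8 * m * M + M ≤ F P r ∧ F P (r + 1) ≤ 8 * m * M := by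
  have hM1 : 1 ≤ M := le_trans (Nat.one_le_pow D m hm1) hM
  have hb : 1 ≤ 8 * m * M := Nat.mul_pos (Nat.mul_pos (by norm_num) hm1) hM1
  have hab : 8 * m * M < 8 * m * M + M := Nat.lt_add_of_pos_right hM1
  obtain ⟨L, hL, hsum, hlen⟩ := GX_DEC k D s r h
  obtain ⟨X, hX, hR⟩ := list_piece D s m M hm hm1 hM hb hab L hL
  rw [hsum] at hR
  have hXn : X ≤ n := (hX.trans (Nat.mul_le_mul_right _ hlen)).trans hn
  obtain ⟨ι, hι, A, h0, hA, hg⟩ := GX_PAD X n _ _ r hb hab hR hXn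
  obtain ⟨P, hP, h1, h2⟩ := GX_GAP A _ _ r hr hab hg
  exact ⟨P, hP.trans hA, h1, h2⟩


end Pool.Agent.H891GAP
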