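import Pool.Agent.H891GAP.Defs
import Pool.Agent.H891GAP.DefsX
import Pool.Agent.H891GAP.GX_GEN
import Pool.Agent.H891GAP.GX_ASYM

set_option autoImplicit false

namespace Pool.Agent.H891GAP

namespace W_GX_MAIN

end W_GX_MAIN

open W_GX_MAIN in
theorem GX_MAIN (ε : ℝ) (hε : 0 < ε) (hε1 : ε < 1) : ∃ n0 : ℕ, ∀ n : ℕ, n0 ≤ n → ∀ r : ℕ, 1 ≤ r → (r : ℝ) ≤ (n : ℝ) ^ (1 - ε) → ∃ P : Finset Pt, P.card = n ∧ (min (n : ℝ) (((n : ℝ) / r) ^ 2)) ^ (1 - ε) ≤ (F P r : ℝ) - F P (r + 1) := by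
  obtain ⟨n0, hn0⟩ := GX_ASYM ε hε hε1
  refine ⟨n0, fun n hn r hr hrn => ?_⟩
  obtain ⟨k, D, s, m, M, h1, h2, h3, h4, h5, h6⟩ := hn0 n hn r hr hrn
  obtain ⟨P, hP, ha, hb⟩ := GX_GEN n k D s m M r hr h1 h2 h3 h4 h5
  refine ⟨P, hP, h6.trans ?_⟩
  have ha' : ((8 * m * M + M : ℕ) : ℝ) ≤ (F P r : ℝ) := by exact_mod_cast ha
  have hb' : (F P (r + 1) : ℝ) ≤ ((8 * m * M : ℕ) : ℝ) := by exact_mod_cast hb
  push_cast at ha' hb'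
  linarith


end Pool.Agent.H891GAP
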